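import Mathlib

/-!
# Product Bernoulli weights on the subsets of a finite type
-/

set_option autoImplicit false

namespace Pool.Agent.MP9a04dc

open Finset

section Bern

variable {E : Type*} [Fintype E] [DecidableEq E]

/-- The weight of `R` when every `e` is independently left out with probability `q e`. -/
noncomputable def wt (q : E → ℝ) (R : Finset E) : ℝ :=
  (∏ e ∈ R, (1 - q e)) * ∏ e ∈ univ \ R, q e

/-- Expectation of `F` for the random subset. -/
noncomputable def ex (q : E → ℝ) (F : Finset E → ℝ) : ℝ := ∑ R : Finset E, wt q R * F R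

lemma sum_prod_mul_prod (a b : E → ℝ) :
    ∑ R : Finset E, (∏ e ∈ R, a e) * ∏ e ∈ univ \ R, b e = ∏ e, (a e + b e) := by
  rw [Finset.prod_add, Finset.powerset_univ]

lemma wt_nonneg {q : E → ℝ} (h0 : ∀ e, 0 ≤ q e) (h1 : ∀ e, q e ≤ 1) (R : Finset E) :
    0 ≤ wt q R :=
  mul_nonneg (prod_nonneg fun e _ => sub_nonneg.2 (h1 e)) (prod_nonneg fun e _ => h0 e)

lemma sum_wt (q : E → ℝ) : ∑ R : Finset E, wt q R = 1 := by
  unfold wt
  rw [sum_prod_mul_prod]
  simp

lemma ex_add (q : E → ℝ) (F G : Finset E → ℝ) :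
    ex q (fun R => F R + G R) = ex q F + ex q G := by
  simp [ex, mul_add, sum_add_distrib]

lemma ex_sub (q : E → ℝ) (F G : Finset E → ℝ) :
    ex q (fun R => F R - G R) = ex q F - ex q G := by
  simp [ex, mul_sub, sum_sub_distrib]

lemma ex_mul (q : E → ℝ) (c : ℝ) (F : Finset E → ℝ) :
    ex q (fun R => c * F R) = c * ex q F := by
  simp only [ex, mul_sum]
  exact sum_congr rfl fun R _ => by ring

lemma ex_const (q : E → ℝ) (c : ℝ) : ex q (fun _ => c) = c := by
  simp only [ex, ← sum_mul, sum_wt, one_mul]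

lemma ex_sum {ι : Type*} (q : E → ℝ) (s : Finset ι) (F : ι → Finset E → ℝ) :
    ex q (fun R => ∑ i ∈ s, F i R) = ∑ i ∈ s, ex q (F i) := by
  simp only [ex, mul_sum]
  exact sum_comm

lemma ex_mono {q : E → ℝ} (h0 : ∀ e, 0 ≤ q e) (h1 : ∀ e, q e ≤ 1) {F G : Finset E → ℝ}
    (h : ∀ R, F R ≤ G R) : ex q F ≤ ex q G :=
  sum_le_sum fun R _ => mul_le_mul_of_nonneg_left (h R) (wt_nonneg h0 h1 R)

lemma exists_ge_ex {q : E → ℝ} (h0 : ∀ e, 0 ≤ q e) (h1 : ∀ e, q e ≤ 1) (F : Finset E → ℝ) :
    ∃ R, ex q F ≤ F R := by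
  by_contra hcon
  push Not at hcon
  have : ex q F < ex q F := by
    have h2 : ∃ R : Finset E, 0 < wt q R := by
      by_contra h
      push Not at h
      have := sum_wt q
      have h3 : ∑ R : Finset E, wt q R ≤ 0 := sum_nonpos fun R _ => h R
      linarith
    obtain ⟨R₀, hR₀⟩ := h2
    calc ex q F = ∑ R : Finset E, wt q R * F R := rfl
      _ < ∑ R : Finset E, wt q R * ex q F := by
          refine sum_lt_sum (fun R _ => mul_le_mul_of_nonneg_left (hcon R).le
            (wt_nonneg h0 h1 R)) ⟨R₀, mem_univ _, ?_⟩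
          exact mul_lt_mul_of_pos_left (hcon R₀) hR₀
      _ = ex q F := by rw [← sum_mul, sum_wt, one_mul]
  exact lt_irrefl _ this

/-- The probability that nothing in `K` is chosen. -/
lemma ex_avoid (q : E → ℝ) (K : Finset E) :
    ex q (fun R => if Disjoint R K then 1 else 0) = ∏ e ∈ K, q e := by
  have h : ∀ R : Finset E, wt q R * (if Disjoint R K then (1 : ℝ) else 0)
      = (∏ e ∈ R, (if e ∈ K then 0 else 1 - q e)) * ∏ e ∈ univ \ R, q e := by
    intro R
    by_cases hR : Disjoint R K
    · rw [if_pos hR, mul_one, wt]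
      congr 1
      refine prod_congr rfl fun e he => ?_
      rw [if_neg (Finset.disjoint_left.1 hR he)]
    · rw [if_neg hR, mul_zero]
      obtain ⟨e, he, heK⟩ := Finset.not_disjoint_iff.1 hR
      rw [prod_eq_zero he (by simp [heK]), zero_mul]
  unfold ex
  simp_rw [h]
  rw [sum_prod_mul_prod, ← Finset.prod_subset (subset_univ K)]
  · exact prod_congr rfl fun e he => by simp [he]
  · intro e _ he
    simp [he]

/-- The probability that `e₀` is the only chosen element of `K`. -/
lemma ex_single (q : E → ℝ) (K : Finset E) (e₀ : E) (he₀ : e₀ ∈ K) :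
    ex q (fun R => if R ∩ K = {e₀} then 1 else 0) = (1 - q e₀) * ∏ e ∈ K.erase e₀, q e := by
  have h : ∀ R : Finset E, wt q R * (if R ∩ K = {e₀} then (1 : ℝ) else 0)
      = (∏ e ∈ R, (if e ∈ K ∧ e ≠ e₀ then 0 else 1 - q e)) *
        ∏ e ∈ univ \ R, (if e = e₀ then 0 else q e) := by
    intro R
    by_cases hR : R ∩ K = {e₀}
    · have hmem : e₀ ∈ R := by
        have : e₀ ∈ R ∩ K := by rw [hR]; simp
        exact (mem_inter.1 this).1
      rw [if_pos hR, mul_one, wt]
      congr 1
      · refine prod_congr rfl fun e he => ?_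
        rw [if_neg]
        rintro ⟨h1, h2⟩
        have : e ∈ R ∩ K := mem_inter.2 ⟨he, h1⟩
        rw [hR] at this
        exact h2 (by simpa using this)
      · refine prod_congr rfl fun e he => ?_
        rw [if_neg]
        rintro rfl
        exact (mem_sdiff.1 he).2 hmem
    · rw [if_neg hR, mul_zero]
      symm
      by_cases hmem : e₀ ∈ R
      · have : ∃ e ∈ R, e ∈ K ∧ e ≠ e₀ := by
          by_contra hcon
          push Not at hcon
          apply hR
          ext e
          simp only [mem_inter, mem_singleton]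
          constructor
          · rintro ⟨h1, h2⟩
            exact hcon e h1 h2
          · rintro rfl
            exact ⟨hmem, he₀⟩
        obtain ⟨e, he, h1⟩ := this
        rw [prod_eq_zero he (by simp [h1]), zero_mul]
      · rw [prod_eq_zero (i := e₀) (s := univ \ R) (by simp [hmem]) (by simp), mul_zero]
  unfold ex
  simp_rw [h]
  rw [sum_prod_mul_prod]
  have : ∀ e : E, ((if e ∈ K ∧ e ≠ e₀ then 0 else 1 - q e) + (if e = e₀ then 0 else q e))
      = if e = e₀ then (1 - q e₀) else if e ∈ K then q e else 1 := by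
    intro e
    by_cases h1 : e = e₀
    · subst h1; simp
    · by_cases h2 : e ∈ K <;> simp [h1, h2]
  simp_rw [this]
  rw [← mul_prod_erase univ _ (mem_univ e₀), if_pos rfl]
  congr 1
  rw [← Finset.prod_subset (show K.erase e₀ ⊆ univ.erase e₀ from erase_subset_erase _ (subset_univ K))]
  · refine prod_congr rfl fun e he => ?_
    simp [(mem_erase.1 he).1, (mem_erase.1 he).2]
  · intro e he he'
    have h1 : e ≠ e₀ := (mem_erase.1 he).1
    have h2 : e ∉ K := fun h => he' (mem_erase.2 ⟨h1, h⟩)
    simp [h1, h2]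

end Bern

end Pool.Agent.MP9a04dc
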