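import Pool.Agent.MP9a04dc.Step2

/-!
# The weighted nibble theorem
-/

set_option autoImplicit false
set_option linter.unusedSectionVars false
set_option linter.unusedVariables false

namespace Pool.Agent.MP9a04dc

open Finset

section Nibble

variable {E V : Type*} [Fintype E] [DecidableEq E] [Fintype V] [DecidableEq V]
variable {vs : E → Finset V} {x : E → ℝ} {κ : ℝ} {r : ℕ}

lemma Good.sum_le (h : Good vs x κ r) : ∑ e, x e ≤ Fintype.card V := by
  have h1 : ∑ e, x e ≤ ∑ e, ((vs e ∩ univ).card : ℝ) * x e := by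
    refine sum_le_sum fun e _ => ?_
    have h2 : 1 ≤ (vs e ∩ univ).card := by
      rw [inter_univ]
      exact card_pos.2 (h.nonempty e)
    have h3 : (1 : ℝ) ≤ ((vs e ∩ univ).card : ℝ) := by exact_mod_cast h2
    nlinarith [h.nonneg e]
  refine h1.trans ?_
  rw [← sum_deg]
  calc ∑ v, deg vs x v ≤ ∑ v : V, (1 : ℝ) := sum_le_sum fun v _ => h.deg_le v
    _ = Fintype.card V := by simp

lemma Good.good_ny (h : Good vs x κ r) {θ : ℝ} (hθ : 0 ≤ θ) (R : Finset E) :
    Good vs (ny vs x θ R) (κ * Real.exp (θ * r)) r where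
  nonneg := fun e => ny_nonneg h.nonneg R e
  deg_le := fun v => deg_ny_le_one h.nonneg R v
  card_le := h.card_le
  nonempty := h.nonempty
  codeg_le := by
    intro u v huv
    have h1 : ∀ e, ny vs x θ R e ≤ x e * Real.exp (θ * r) := by
      intro e
      refine (ny_le_nx h.nonneg R e).trans ?_
      unfold nx nw
      have h2 : Real.exp (θ * (tau vs x e - 1)) ≤ Real.exp (θ * r) := by
        apply Real.exp_le_exp.2
        have := h.tau_le e
        nlinarith
      have h3 : x e * Real.exp (θ * (tau vs x e - 1)) ≤ x e * Real.exp (θ * r) :=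
        mul_le_mul_of_nonneg_left h2 (h.nonneg e)
      have h4 : 0 ≤ x e * Real.exp (θ * (tau vs x e - 1)) :=
        mul_nonneg (h.nonneg e) (Real.exp_pos _).le
      split_ifs
      · rw [mul_one]; exact h3
      · rw [mul_zero]; exact h4.trans h3
    refine (codeg_mono h1 u v).trans ?_
    have h5 : codeg vs (fun e => x e * Real.exp (θ * r)) u v
        = codeg vs x u v * Real.exp (θ * r) := by
      unfold codeg
      rw [sum_mul]
      exact sum_congr rfl fun e _ => by split_ifs <;> simp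
    rw [h5]
    exact mul_le_mul_of_nonneg_right (h.codeg_le u v huv) (Real.exp_pos _).le

lemma Good.step (h : Good vs x κ r) (hκ : 0 ≤ κ) {θ : ℝ} (hθ : 0 ≤ θ) (hθ1 : θ ≤ 1)
    {w : E → ℝ} {W : ℝ} (hw0 : ∀ e, 0 ≤ w e) (hwW : ∀ e, w e ≤ W) {c : ℝ} (hc : 0 ≤ c)
    (hW : 0 ≤ W)
    {lam : ℝ} (hlam : 0 < lam)
    (hl : (Real.exp (4 * ((r : ℝ) ^ 2 * κ)) - 1) + Real.exp (2 * r) * (r * κ) ≤ lam ^ 2) :
    ∃ (M : Finset E) (y : E → ℝ), Good vs y (κ * Real.exp (θ * r)) r ∧
      (∀ e ∈ M, ∀ f ∈ M, e ≠ f → Disjoint (vs e) (vs f)) ∧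
      (∀ e, 0 < y e → 0 < x e ∧ ∀ f ∈ M, Disjoint (vs e) (vs f)) ∧
      (∀ e ∈ M, 0 < x e) ∧
      (∑ e, w e * x e) * (1 - r * θ ^ 2) - c * Real.exp (-θ + θ * ((r : ℝ) ^ 2 * κ)) * ∑ e, x e
        - W * lam * Fintype.card V ≤ ∑ e ∈ M, w e + ∑ e, (w e - c) * y e := by
  classical
  set q : E → ℝ := fun e => Real.exp (-θ * x e) with hq
  have hq0 : ∀ e, 0 ≤ q e := fun e => (Real.exp_pos _).le
  have hq1 : ∀ e, q e ≤ 1 := fun e => by
    rw [hq]
    simp only
    rw [Real.exp_le_one_iff]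
    nlinarith [mul_nonneg hθ (h.nonneg e)]
  set w' : E → ℝ := fun e => if 0 < x e then w e else 0 with hw'
  have hw'0 : ∀ e, 0 ≤ w' e := fun e => by
    simp only [hw']; split_ifs; exacts [hw0 e, le_rfl]
  set G : Finset E → ℝ := fun R => (∑ e ∈ iso vs R, w' e) + (∑ e, w e * nx vs x θ R e)
    - W * (∑ v, max 0 (deg vs (nx vs x θ R) v - 1)) - c * ∑ e, nx vs x θ R e with hG
  have hex : (∑ e, w e * x e) * (1 - r * θ ^ 2)
      - c * Real.exp (-θ + θ * ((r : ℝ) ^ 2 * κ)) * ∑ e, x e - W * lam * Fintype.card V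
      ≤ ex q G := by
    have h1 : ex q G = ex q (fun R => ∑ e ∈ iso vs R, w' e)
        + ∑ e, w e * ex q (fun R => nx vs x θ R e)
        - W * ∑ v, ex q (fun R => max 0 (deg vs (nx vs x θ R) v - 1))
        - c * ∑ e, ex q (fun R => nx vs x θ R e) := by
      rw [hG, ex_sub, ex_sub, ex_add, ex_mul, ex_mul, ex_sum, ex_sum, ex_sum]
      simp_rw [ex_mul]
    rw [h1]
    have h2 := h.le_ex_iso hθ w' hw'0
    have h3 : ∑ e, w' e * x e * (θ - r * θ ^ 2) = (∑ e, w e * x e) * (θ - r * θ ^ 2) := by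
      rw [sum_mul]
      refine sum_congr rfl fun e _ => ?_
      simp only [hw']
      split_ifs with h4
      · rfl
      · have : x e = 0 := le_antisymm (not_lt.1 h4) (h.nonneg e)
        rw [this]; ring
    have h4 : (∑ e, w e * x e) * (1 - θ) ≤ ∑ e, w e * ex q (fun R => nx vs x θ R e) := by
      rw [sum_mul]
      refine sum_le_sum fun e _ => ?_
      rw [mul_assoc]
      refine mul_le_mul_of_nonneg_left ?_ (hw0 e)
      refine le_trans ?_ (h.le_ex_nx hθ e)
      refine mul_le_mul_of_nonneg_left ?_ (h.nonneg e)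
      have := Real.add_one_le_exp (-θ)
      linarith
    have h5 : ∑ v, ex q (fun R => max 0 (deg vs (nx vs x θ R) v - 1)) ≤ lam * Fintype.card V := by
      calc ∑ v, ex q (fun R => max 0 (deg vs (nx vs x θ R) v - 1)) ≤ ∑ v : V, lam :=
            sum_le_sum fun v _ => h.ex_max_le hκ hθ hθ1 hlam hl v
        _ = lam * Fintype.card V := by simp [mul_comm]
    have h6 : ∑ e, ex q (fun R => nx vs x θ R e)
        ≤ Real.exp (-θ + θ * ((r : ℝ) ^ 2 * κ)) * ∑ e, x e := by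
      rw [mul_sum]
      refine sum_le_sum fun e _ => ?_
      rw [mul_comm (Real.exp _)]
      exact h.ex_nx_le hκ hθ e
    have h7 := mul_le_mul_of_nonneg_left h5 hW
    have h8 := mul_le_mul_of_nonneg_left h6 hc
    rw [h3] at h2
    change (∑ e, w e * x e) * (θ - r * θ ^ 2) ≤ ex q (fun R => ∑ e ∈ iso vs R, w' e) at h2
    nlinarith
  obtain ⟨R, hR⟩ := exists_ge_ex hq0 hq1 G
  refine ⟨(iso vs R).filter (fun e => 0 < x e), ny vs x θ R, h.good_ny hθ R, ?_, ?_, ?_, ?_⟩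
  · intro e he f hf hef
    have he1 := (mem_filter.1 (mem_filter.1 he).1).2
    have hf1 := (mem_filter.1 (mem_filter.1 hf).1).1
    by_contra hcon
    have : f ∈ R ∩ meets vs (vs e) := by
      refine mem_inter.2 ⟨hf1, mem_meets.2 fun h1 => hcon h1.symm⟩
    rw [he1, mem_singleton] at this
    exact hef this.symm
  · intro e he
    have hnx : 0 < nx vs x θ R e := lt_of_lt_of_le he (ny_le_nx h.nonneg R e)
    have hdis : Disjoint R (meets vs (vs e)) := by
      by_contra hcon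
      unfold nx at hnx
      rw [if_neg hcon, mul_zero] at hnx
      exact lt_irrefl _ hnx
    refine ⟨?_, ?_⟩
    · rcases (h.nonneg e).lt_or_eq with h1 | h1
      · exact h1
      · exfalso
        unfold nx nw at hnx
        rw [← h1, zero_mul, zero_mul] at hnx
        exact lt_irrefl _ hnx
    · intro f hf
      have hf1 := (mem_filter.1 (mem_filter.1 hf).1).1
      by_contra hcon
      exact (Finset.disjoint_left.1 hdis hf1) (mem_meets.2 fun h1 => hcon h1.symm)
  · intro e he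
    exact (mem_filter.1 he).2
  · refine hex.trans (hR.trans ?_)
    have h1 : ∑ e ∈ (iso vs R).filter (fun e => 0 < x e), w e = ∑ e ∈ iso vs R, w' e := by
      rw [sum_filter]
    rw [h1, hG]
    simp only
    have h2 := sum_nx_sub_ny_le (vs := vs) (θ := θ) h.nonneg R
    have h3 : ∑ e, w e * (nx vs x θ R e - ny vs x θ R e)
        ≤ W * ∑ e, (nx vs x θ R e - ny vs x θ R e) := by
      rw [mul_sum]
      exact sum_le_sum fun e _ => mul_le_mul_of_nonneg_right (hwW e)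
        (sub_nonneg.2 (ny_le_nx h.nonneg R e))
    have h4 := mul_le_mul_of_nonneg_left h2 hW
    have h5 : ∑ e, w e * (nx vs x θ R e - ny vs x θ R e)
        = ∑ e, w e * nx vs x θ R e - ∑ e, w e * ny vs x θ R e := by
      rw [← sum_sub_distrib]
      exact sum_congr rfl fun e _ => by ring
    have h6 : ∑ e, (w e - c) * ny vs x θ R e
        = ∑ e, w e * ny vs x θ R e - c * ∑ e, ny vs x θ R e := by
      rw [mul_sum, ← sum_sub_distrib]
      exact sum_congr rfl fun e _ => by ring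
    have h7 : c * ∑ e, ny vs x θ R e ≤ c * ∑ e, nx vs x θ R e :=
      mul_le_mul_of_nonneg_left (sum_le_sum fun e _ => ny_le_nx h.nonneg R e) hc
    linarith

lemma nibble_iter {θ : ℝ} (hθ : 0 ≤ θ) (hθ1 : θ ≤ 1) (hκ : 0 ≤ κ)
    {w : E → ℝ} {W : ℝ} (hw0 : ∀ e, 0 ≤ w e) (hwW : ∀ e, w e ≤ W) (hW : 0 ≤ W)
    {lam : ℝ} (hlam : 0 < lam)
    (hl : (Real.exp (4 * ((r : ℝ) ^ 2 * κ)) - 1) + Real.exp (2 * r) * (r * κ) ≤ lam ^ 2) (T : ℕ) :
    ∀ x : E → ℝ, Good vs x (κ * Real.exp (-(θ * r * T))) r →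
      ∃ M : Finset E, (∀ e ∈ M, 0 < x e) ∧ (∀ e ∈ M, ∀ f ∈ M, e ≠ f → Disjoint (vs e) (vs f)) ∧
        ∑ e, (w e - W * Real.exp (-θ + θ * ((r : ℝ) ^ 2 * κ)) ^ T) * x e
          - T * (W * (r * θ ^ 2 + lam) * Fintype.card V) ≤ ∑ e ∈ M, w e := by
  classical
  induction T with
  | zero =>
    intro x hx
    refine ⟨∅, by simp, by simp, ?_⟩
    simp only [pow_zero, mul_one, Nat.cast_zero, zero_mul, sub_zero, sum_empty]
    exact sum_nonpos fun e _ => mul_nonpos_of_nonpos_of_nonneg (sub_nonpos.2 (hwW e)) (hx.nonneg e)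
  | succ T ih =>
    intro x hx
    set ρ := Real.exp (-θ + θ * ((r : ℝ) ^ 2 * κ)) with hρ
    have hρ0 : 0 < ρ := Real.exp_pos _
    set κ' := κ * Real.exp (-(θ * r * ((T + 1 : ℕ) : ℝ))) with hκ'
    have hκ'0 : 0 ≤ κ' := mul_nonneg hκ (Real.exp_pos _).le
    have hκ'κ : κ' ≤ κ := by
      rw [hκ']
      refine mul_le_of_le_one_right hκ ?_
      rw [Real.exp_le_one_iff]
      have : 0 ≤ θ * r * ((T + 1 : ℕ) : ℝ) := by positivity
      linarith
    have hl' : (Real.exp (4 * ((r : ℝ) ^ 2 * κ')) - 1) + Real.exp (2 * r) * (r * κ') ≤ lam ^ 2 := by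
      refine le_trans (add_le_add (sub_le_sub_right (Real.exp_le_exp.2 ?_) _) ?_) hl
      · have : (r : ℝ) ^ 2 * κ' ≤ (r : ℝ) ^ 2 * κ := mul_le_mul_of_nonneg_left hκ'κ (by positivity)
        linarith
      · exact mul_le_mul_of_nonneg_left (mul_le_mul_of_nonneg_left hκ'κ (by positivity))
          (Real.exp_pos _).le
    obtain ⟨M₁, y, hy, hM₁, hyM, hMx, hsum⟩ := hx.step hκ'0 hθ hθ1 hw0 hwW
      (c := W * ρ ^ T) (by positivity) hW hlam hl'
    have hκ'' : κ' * Real.exp (θ * r) = κ * Real.exp (-(θ * r * T)) := by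
      rw [hκ', mul_assoc, ← Real.exp_add]
      congr 2
      push_cast
      ring
    rw [hκ''] at hy
    obtain ⟨M₂, hM₂x, hM₂, hsum₂⟩ := ih y hy
    have hdisj : Disjoint M₁ M₂ := by
      rw [Finset.disjoint_left]
      intro e he1 he2
      have h1 := (hyM e (hM₂x e he2)).2 e he1
      rw [disjoint_self] at h1
      exact (hx.nonempty e).ne_empty h1
    refine ⟨M₁ ∪ M₂, ?_, ?_, ?_⟩
    · intro e he
      rcases mem_union.1 he with h1 | h1
      · exact hMx e h1
      · exact (hyM e (hM₂x e h1)).1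
    · intro e he f hf hef
      rcases mem_union.1 he with h1 | h1 <;> rcases mem_union.1 hf with h2 | h2
      · exact hM₁ e h1 f h2 hef
      · exact ((hyM f (hM₂x f h2)).2 e h1).symm
      · exact (hyM e (hM₂x e h1)).2 f h2
      · exact hM₂ e h1 f h2 hef
    · rw [sum_union hdisj]
      have h1 : Real.exp (-θ + θ * ((r : ℝ) ^ 2 * κ')) ≤ ρ := by
        rw [hρ]
        apply Real.exp_le_exp.2
        have : (r : ℝ) ^ 2 * κ' ≤ (r : ℝ) ^ 2 * κ := mul_le_mul_of_nonneg_left hκ'κ (by positivity)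
        nlinarith
      have hS0 : 0 ≤ ∑ e, x e := sum_nonneg fun e _ => hx.nonneg e
      have hSV := hx.sum_le
      have h2 : W * ρ ^ T * Real.exp (-θ + θ * ((r : ℝ) ^ 2 * κ')) * ∑ e, x e
          ≤ W * ρ ^ (T + 1) * ∑ e, x e := by
        refine mul_le_mul_of_nonneg_right ?_ hS0
        calc W * ρ ^ T * Real.exp (-θ + θ * ((r : ℝ) ^ 2 * κ')) ≤ W * ρ ^ T * ρ :=
              mul_le_mul_of_nonneg_left h1 (by positivity)
          _ = W * ρ ^ (T + 1) := by ring
      have h3 : ∑ e, (w e - W * ρ ^ (T + 1)) * x e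
          = ∑ e, w e * x e - W * ρ ^ (T + 1) * ∑ e, x e := by
        rw [mul_sum, ← sum_sub_distrib]
        exact sum_congr rfl fun e _ => by ring
      have h4 : ∑ e, w e * x e ≤ W * Fintype.card V := by
        calc ∑ e, w e * x e ≤ ∑ e, W * x e :=
              sum_le_sum fun e _ => mul_le_mul_of_nonneg_right (hwW e) (hx.nonneg e)
          _ = W * ∑ e, x e := by rw [mul_sum]
          _ ≤ _ := mul_le_mul_of_nonneg_left hSV hW
      have h5 : (∑ e, w e * x e) * (r * θ ^ 2) ≤ W * Fintype.card V * (r * θ ^ 2) :=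
        mul_le_mul_of_nonneg_right h4 (by positivity)
      rw [h3]
      push_cast
      nlinarith

end Nibble

/-- **Weighted nibble theorem** (Frankl–Rödl, Pippenger, Kahn).  For every `r`, `W` and `ε > 0`
there is `κ > 0` such that every fractional matching `x` with codegrees at most `κ` in a
hypergraph of rank at most `r` with edge weights in `[0, W]` has a matching inside the support
of `x` of total weight at least `∑ w x - ε |V|`. -/
theorem nibble (r : ℕ) (W ε : ℝ) (hW : 0 < W) (hε : 0 < ε) :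
    ∃ κ > 0, ∀ (E V : Type) [Fintype E] [DecidableEq E] [Fintype V] [DecidableEq V]
      (vs : E → Finset V) (x w : E → ℝ), Good vs x κ r → (∀ e, 0 ≤ w e) → (∀ e, w e ≤ W) →
      ∃ M : Finset E, (∀ e ∈ M, 0 < x e) ∧
        (∀ e ∈ M, ∀ f ∈ M, e ≠ f → Disjoint (vs e) (vs f)) ∧
        ∑ e, w e * x e - ε * Fintype.card V ≤ ∑ e ∈ M, w e := by
  obtain ⟨L, hL0, hL⟩ : ∃ L : ℝ, 0 < L ∧ W * Real.exp (-(L / 2)) ≤ ε / 3 := by
    refine ⟨max 1 (2 * Real.log (3 * W / ε)), lt_max_of_lt_left one_pos, ?_⟩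
    have h1 : Real.log (3 * W / ε) ≤ max 1 (2 * Real.log (3 * W / ε)) / 2 := by
      have := le_max_right 1 (2 * Real.log (3 * W / ε))
      linarith
    have h2 : Real.exp (-(max 1 (2 * Real.log (3 * W / ε)) / 2)) ≤ ε / (3 * W) := by
      calc Real.exp (-(max 1 (2 * Real.log (3 * W / ε)) / 2))
          ≤ Real.exp (-Real.log (3 * W / ε)) := Real.exp_le_exp.2 (neg_le_neg h1)
        _ = ε / (3 * W) := by
            rw [Real.exp_neg, Real.exp_log (by positivity), inv_div]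
    calc W * Real.exp (-(max 1 (2 * Real.log (3 * W / ε)) / 2)) ≤ W * (ε / (3 * W)) :=
          mul_le_mul_of_nonneg_left h2 hW.le
      _ = ε / 3 := by field_simp
  obtain ⟨T, hT⟩ := exists_nat_gt (max L (3 * W * r * L ^ 2 / ε))
  have hTL : L < T := lt_of_le_of_lt (le_max_left _ _) hT
  have hT0 : (0 : ℝ) < T := hL0.trans hTL
  have hT2 : 3 * W * r * L ^ 2 / ε < T := lt_of_le_of_lt (le_max_right _ _) hT
  set θ := L / T with hθ
  have hθ0 : 0 ≤ θ := by positivity
  have hθ1 : θ ≤ 1 := by rw [hθ, div_le_one hT0]; exact hTL.le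
  set lam := ε / (3 * T * W) with hlam
  have hlam0 : 0 < lam := by positivity
  obtain ⟨κ, hκ0, hκ1, hκ2⟩ : ∃ κ : ℝ, 0 < κ ∧ (r : ℝ) ^ 2 * κ ≤ 1 / 2 ∧
      (Real.exp (4 * ((r : ℝ) ^ 2 * κ)) - 1) + Real.exp (2 * r) * (r * κ) ≤ lam ^ 2 := by
    have hc : Filter.Tendsto (fun κ : ℝ => (Real.exp (4 * ((r : ℝ) ^ 2 * κ)) - 1)
        + Real.exp (2 * r) * (r * κ)) (nhds 0) (nhds 0) := by
      have : Continuous (fun κ : ℝ => (Real.exp (4 * ((r : ℝ) ^ 2 * κ)) - 1)
        + Real.exp (2 * r) * (r * κ)) := by fun_prop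
      have h := this.tendsto 0
      simpa using h
    have hc2 : Filter.Tendsto (fun κ : ℝ => (r : ℝ) ^ 2 * κ) (nhds 0) (nhds 0) := by
      have : Continuous (fun κ : ℝ => (r : ℝ) ^ 2 * κ) := by fun_prop
      have h := this.tendsto 0
      simpa using h
    have h1 := hc.eventually_lt_const (show (0 : ℝ) < lam ^ 2 by positivity)
    have h2 := hc2.eventually_lt_const (show (0 : ℝ) < 1 / 2 by norm_num)
    have h3 := (h1.and h2)
    have h4 := (h3.filter_mono (nhdsWithin_le_nhds (s := Set.Ioi 0))).and self_mem_nhdsWithin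
    obtain ⟨κ, ⟨ha, hb⟩, hc⟩ := h4.exists
    exact ⟨κ, hc, hb.le, ha.le⟩
  refine ⟨κ * Real.exp (-(θ * r * T)), by positivity, ?_⟩
  intro E V _ _ _ _ vs x w hx hw0 hwW
  obtain ⟨M, hMx, hMd, hM⟩ := nibble_iter (vs := vs) hθ0 hθ1 hκ0.le hw0 hwW hW.le hlam0 hκ2 T x hx
  refine ⟨M, hMx, hMd, le_trans ?_ hM⟩
  have hS0 : 0 ≤ ∑ e, x e := sum_nonneg fun e _ => hx.nonneg e
  have hSV := hx.sum_le
  have h3 : ∑ e, (w e - W * Real.exp (-θ + θ * ((r : ℝ) ^ 2 * κ)) ^ T) * x e
      = ∑ e, w e * x e - W * Real.exp (-θ + θ * ((r : ℝ) ^ 2 * κ)) ^ T * ∑ e, x e := by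
    rw [mul_sum, ← sum_sub_distrib]
    exact sum_congr rfl fun e _ => by ring
  rw [h3]
  have h4 : Real.exp (-θ + θ * ((r : ℝ) ^ 2 * κ)) ^ T ≤ Real.exp (-(L / 2)) := by
    rw [← Real.exp_nat_mul]
    apply Real.exp_le_exp.2
    have h5 : -θ + θ * ((r : ℝ) ^ 2 * κ) ≤ -(θ / 2) := by nlinarith
    have h6 : (T : ℝ) * (-(θ / 2)) = -(L / 2) := by
      rw [hθ]
      field_simp
    calc (T : ℝ) * (-θ + θ * ((r : ℝ) ^ 2 * κ)) ≤ T * (-(θ / 2)) :=
          mul_le_mul_of_nonneg_left h5 hT0.le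
      _ = _ := h6
  have h7 : W * Real.exp (-θ + θ * ((r : ℝ) ^ 2 * κ)) ^ T ≤ ε / 3 :=
    (mul_le_mul_of_nonneg_left h4 hW.le).trans hL
  have h8 : W * Real.exp (-θ + θ * ((r : ℝ) ^ 2 * κ)) ^ T * ∑ e, x e
      ≤ ε / 3 * Fintype.card V :=
    mul_le_mul h7 hSV hS0 (by positivity)
  have h9 : (T : ℝ) * (W * (r * θ ^ 2 + lam) * Fintype.card V)
      ≤ (ε / 3 + ε / 3) * Fintype.card V := by
    rw [← mul_assoc]
    refine mul_le_mul_of_nonneg_right ?_ (by positivity)
    have h10 : (T : ℝ) * (W * (r * θ ^ 2 + lam)) = T * W * r * θ ^ 2 + T * W * lam := by ring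
    rw [h10]
    refine add_le_add ?_ (le_of_eq ?_)
    · rw [hθ]
      have h11 : (T : ℝ) * W * r * (L / T) ^ 2 = W * r * L ^ 2 / T := by
        field_simp
      rw [h11, div_le_iff₀ hT0]
      rw [div_lt_iff₀ hε] at hT2
      linarith
    · rw [hlam]
      field_simp
  linarith

end Pool.Agent.MP9a04dc
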