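import Mathlib

/-!
# Lagrangian duality for linear constraints on a compact convex set
-/

set_option autoImplicit false
set_option linter.unusedSectionVars false
set_option linter.unusedVariables false

namespace Pool.Agent.MP9a04dc

open Finset Matrix

section Duality

variable {J I : Type*} [Fintype J] [Fintype I] [DecidableEq I]

lemma lp_duality (K : Set (J → ℝ)) (hK : IsCompact K) (hKc : Convex ℝ K)
    (g : I → J → ℝ) (c : I → ℝ) (w : J → ℝ) (v : ℝ) (x₀ : J → ℝ) (hx₀ : x₀ ∈ K)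
    (hfeas : ∀ i, g i ⬝ᵥ x₀ ≤ c i)
    (h : ∀ z : I → ℝ, (∀ i, 0 ≤ z i) → ∃ x ∈ K, v ≤ w ⬝ᵥ x - ∑ i, z i * (g i ⬝ᵥ x - c i)) :
    ∃ x ∈ K, (∀ i, g i ⬝ᵥ x ≤ c i) ∧ v ≤ w ⬝ᵥ x := by
  by_contra hcon
  push Not at hcon
  set F : (J → ℝ) → (Option I → ℝ) → ℝ := fun x y =>
    y none * (v - w ⬝ᵥ x) + ∑ i, y (some i) * (g i ⬝ᵥ x - c i) with hF
  set Y : Set (Option I → ℝ) := {y | ∀ i, 0 ≤ y i} with hY
  have hYc : Convex ℝ Y := by
    intro y hy y' hy' a b ha hb hab i
    simp only [Pi.add_apply, Pi.smul_apply, smul_eq_mul]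
    exact add_nonneg (mul_nonneg ha (hy i)) (mul_nonneg hb (hy' i))
  have hcx : ∀ y, Continuous fun x => F x y := by
    intro y
    simp only [hF, dotProduct]
    fun_prop
  have hcy : ∀ x, Continuous fun y => F x y := by
    intro x
    simp only [hF]
    fun_prop
  have hlinx : ∀ y x x' (a b : ℝ), a + b = 1 → F (a • x + b • x') y = a * F x y + b * F x' y := by
    intro y x x' a b hab
    simp only [hF, dotProduct_add, dotProduct_smul, smul_eq_mul]
    have h1 : ∑ i, y (some i) * (a * g i ⬝ᵥ x + b * g i ⬝ᵥ x' - c i)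
        = a * (∑ i, y (some i) * (g i ⬝ᵥ x - c i)) + b * ∑ i, y (some i) * (g i ⬝ᵥ x' - c i) := by
      rw [mul_sum, mul_sum, ← sum_add_distrib]
      refine sum_congr rfl fun i _ => ?_
      have : c i = a * c i + b * c i := by rw [← add_mul, hab, one_mul]
      calc y (some i) * (a * g i ⬝ᵥ x + b * g i ⬝ᵥ x' - c i)
          = y (some i) * (a * g i ⬝ᵥ x + b * g i ⬝ᵥ x' - (a * c i + b * c i)) := by rw [← this]
        _ = _ := by ring
    rw [h1]
    have : v = a * v + b * v := by rw [← add_mul, hab, one_mul]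
    calc y none * (v - (a * w ⬝ᵥ x + b * w ⬝ᵥ x')) + _
        = y none * (a * v + b * v - (a * w ⬝ᵥ x + b * w ⬝ᵥ x')) + (a * (∑ i, y (some i) * (g i ⬝ᵥ x - c i)) + b * ∑ i, y (some i) * (g i ⬝ᵥ x' - c i)) := by rw [← this]
      _ = _ := by ring
  have hliny : ∀ x y y' (a b : ℝ), F x (a • y + b • y') = a * F x y + b * F x y' := by
    intro x y y' a b
    simp only [hF, Pi.add_apply, Pi.smul_apply, smul_eq_mul]
    rw [mul_add, mul_add, mul_sum, mul_sum]
    have : ∑ i, (a * y (some i) + b * y' (some i)) * (g i ⬝ᵥ x - c i)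
        = ∑ i, a * (y (some i) * (g i ⬝ᵥ x - c i)) + ∑ i, b * (y' (some i) * (g i ⬝ᵥ x - c i)) := by
      rw [← sum_add_distrib]
      exact sum_congr rfl fun i _ => by ring
    rw [this]
    ring
  obtain ⟨y₀, hy₀, hpos⟩ := Sion.exists_lt_iInf_of_lt_iInf_of_finite (X := K) (Y := Y) (f := F)
    ⟨x₀, hx₀⟩ hK
    (fun y _ => (hcx y).lowerSemicontinuous.lowerSemicontinuousOn K)
    (fun y _ => by
      refine ConvexOn.quasiconvexOn ⟨hKc, ?_⟩
      intro x _ x' _ a b _ _ hab
      exact (hlinx y x x' a b hab).le)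
    hYc
    (fun x _ => (hcy x).upperSemicontinuous.upperSemicontinuousOn Y)
    (fun x _ => by
      refine ConcaveOn.quasiconcaveOn ⟨hYc, ?_⟩
      intro y _ y' _ a b _ _ hab
      exact (hliny x y y' a b).ge)
    hKc (s := Set.range fun i : Option I => (Pi.single i (1 : ℝ) : Option I → ℝ))
    (Set.finite_range _)
    (by
      rintro _ ⟨i, rfl⟩ j
      by_cases hij : j = i
      · subst hij; simp
      · simp [Pi.single_eq_of_ne hij])
    (t := 0)
    (by
      intro x hx
      by_cases hg : ∀ i, g i ⬝ᵥ x ≤ c i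
      · refine ⟨_, ⟨none, rfl⟩, ?_⟩
        simp only [hF]
        simp
        exact hcon x hx hg
      · push Not at hg
        obtain ⟨i, hi⟩ := hg
        refine ⟨_, ⟨some i, rfl⟩, ?_⟩
        simp only [hF]
        rw [Pi.single_eq_of_ne (by simp), zero_mul, zero_add,
          Finset.sum_eq_single i]
        · simp; exact hi
        · intro j _ hj
          rw [Pi.single_eq_of_ne (by simpa using hj), zero_mul]
        · simp)
  have hn : 0 < y₀ none := by
    rcases (hy₀ none).lt_or_eq with h1 | h1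
    · exact h1
    · exfalso
      have h2 := hpos x₀ hx₀
      simp only [hF] at h2
      rw [← h1, zero_mul, zero_add] at h2
      have h3 : ∑ i, y₀ (some i) * (g i ⬝ᵥ x₀ - c i) ≤ 0 :=
        sum_nonpos fun i _ => mul_nonpos_of_nonneg_of_nonpos (hy₀ _) (sub_nonpos.2 (hfeas i))
      linarith
  obtain ⟨x, hx, hvx⟩ := h (fun i => y₀ (some i) / y₀ none)
    (fun i => div_nonneg (hy₀ _) hn.le)
  have h2 := hpos x hx
  simp only [hF] at h2
  have h3 : y₀ none * ∑ i, y₀ (some i) / y₀ none * (g i ⬝ᵥ x - c i)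
      = ∑ i, y₀ (some i) * (g i ⬝ᵥ x - c i) := by
    rw [mul_sum]
    refine sum_congr rfl fun i _ => ?_
    field_simp
  have h4 := mul_le_mul_of_nonneg_left hvx hn.le
  rw [mul_sub, h3] at h4
  nlinarith

end Duality

end Pool.Agent.MP9a04dc
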