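import Pool.Agent.MP9a04dc.Pack

set_option autoImplicit false

open Finset BigOperators

namespace Pool.Agent.MP9a04dc

/-- differences of small numbers are units modulo `p` when `s!` is coprime to `p` -/
theorem unit_of_lt {s p : ℕ} (hp : Nat.Coprime s.factorial p) {i j : ℕ} (hi : i < s) (hj : j < s)
    (hij : i ≠ j) : IsUnit ((i : ZMod p) - j) := by
  have key : ∀ a b : ℕ, a < s → b < a → IsUnit ((a : ZMod p) - b) := by
    intro a b ha hb
    have h1 : ((a : ZMod p) - b) = ((a - b : ℕ) : ZMod p) := by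
      rw [Nat.cast_sub hb.le]
    rw [h1, ZMod.isUnit_iff_coprime]
    refine Nat.Coprime.coprime_dvd_left ?_ hp
    exact Nat.dvd_factorial (by omega) (by omega)
  rcases Nat.lt_or_gt_of_ne hij with h | h
  · have := key j i hj h
    rw [← neg_sub]
    exact this.neg
  · exact key i j hi h

/-- two points with different rows lie on at most one line -/
theorem line_unique {p : ℕ} {i j : ℕ} (hu : IsUnit ((i : ZMod p) - j)) {t t' a b a' b' : ZMod p}
    (h1 : t = a + i * b) (h2 : t' = a + j * b) (h3 : t = a' + i * b') (h4 : t' = a' + j * b') :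
    a = a' ∧ b = b' := by
  have hb : b = b' := by
    have : ((i : ZMod p) - j) * b = ((i : ZMod p) - j) * b' := by
      linear_combination -h1 + h2 + h3 - h4
    exact hu.mul_left_cancel this
  refine ⟨?_, hb⟩
  rw [hb] at h1
  have := h1.symm.trans h3
  exact add_right_cancel this

theorem line_exists {p : ℕ} {i j : ℕ} (hu : IsUnit ((i : ZMod p) - j)) (t t' : ZMod p) :
    ∃ a b : ZMod p, t = a + i * b ∧ t' = a + j * b := by
  obtain ⟨u, hu'⟩ := hu
  refine ⟨t - i * (↑u⁻¹ * (t - t')), ↑u⁻¹ * (t - t'), by ring, ?_⟩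
  have h1 : ((i : ZMod p) - j) * (↑u⁻¹ * (t - t')) = t - t' := by
    rw [← hu', ← mul_assoc, Units.mul_inv, one_mul]
  linear_combination h1

/-- transversal design -/
theorem pack_td (s p : ℕ) [NeZero p] (hs : 2 ≤ s) (hp : Nat.Coprime s.factorial p) :
    ∃ P : Finset (Finset (Fin s × ZMod p)), IsPack s univ P ∧ P.card = p * p := by
  classical
  let blk : ZMod p × ZMod p → Finset (Fin s × ZMod p) := fun q =>
    univ.image fun i : Fin s => (i, q.1 + ((i : ℕ) : ZMod p) * q.2)
  have hmem : ∀ q x, x ∈ blk q ↔ x.2 = q.1 + ((x.1 : ℕ) : ZMod p) * q.2 := by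
    intro q x
    simp only [blk, mem_image, mem_univ, true_and]
    constructor
    · rintro ⟨i, rfl⟩
      rfl
    · intro h
      exact ⟨x.1, by rw [← h]⟩
  have hcard : ∀ q, (blk q).card = s := by
    intro q
    simp only [blk]
    rw [card_image_of_injective, card_univ, Fintype.card_fin]
    intro i j hij
    exact (Prod.mk.inj hij).1
  have hinter : ∀ q q', q ≠ q' → (blk q ∩ blk q').card ≤ 1 := by
    intro q q' hne
    rw [card_le_one]
    intro x hx y hy
    rw [mem_inter, hmem, hmem] at hx hy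
    by_contra hxy
    have h1 : (x.1 : ℕ) ≠ (y.1 : ℕ) := by
      intro h
      apply hxy
      have h2 : x.1 = y.1 := Fin.ext h
      refine Prod.ext h2 ?_
      rw [hx.1, hy.1, h]
    have hu := unit_of_lt hp x.1.isLt y.1.isLt h1
    have := line_unique hu hx.1 hy.1 hx.2 hy.2
    exact hne (Prod.ext this.1 this.2)
  have hinj : Function.Injective blk := by
    intro q q' h
    by_contra hne
    have := hinter q q' hne
    rw [← h, inter_self, hcard] at this
    omega
  refine ⟨univ.image blk, ⟨fun o ho => ?_, fun o ho o' ho' hne => ?_⟩, ?_⟩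
  · obtain ⟨q, -, rfl⟩ := mem_image.1 ho
    exact ⟨subset_univ _, hcard q⟩
  · obtain ⟨q, -, rfl⟩ := mem_image.1 ho
    obtain ⟨q', -, rfl⟩ := mem_image.1 ho'
    exact hinter q q' fun h => hne (by rw [h])
  · rw [card_image_of_injective _ hinj, card_univ, Fintype.card_prod, ZMod.card]

theorem pack_large (s : ℕ) (hs : 2 ≤ s) : ∃ L : ℝ, 0 ≤ L ∧
    ∀ {α : Type} [DecidableEq α] (M : Finset α),
    ∃ P : Finset (Finset α), IsPack s M P ∧
      (M.card : ℝ) * (M.card - 1) / s ^ 2 - L * M.card ≤ P.card := by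
  have hs0 : 0 < s := by omega
  have hsR : (2 : ℝ) ≤ s := by exact_mod_cast hs
  have hf : 1 ≤ s.factorial := Nat.factorial_pos s
  refine ⟨2 * (s.factorial + 1), by positivity, fun {α} _ M => ?_⟩
  rcases Nat.lt_or_ge M.card s with hlt | hge
  · refine ⟨∅, isPack_empty _ _, ?_⟩
    rw [card_empty, Nat.cast_zero]
    have h1 : (M.card : ℝ) ≤ s := by exact_mod_cast hlt.le
    have h2 : (0 : ℝ) ≤ M.card := Nat.cast_nonneg _
    have h3 : (M.card : ℝ) * (M.card - 1) / s ^ 2 ≤ M.card := by
      rw [div_le_iff₀ (by positivity)]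
      have : (M.card : ℝ) - 1 ≤ s ^ 2 := by nlinarith
      nlinarith
    have h4 : (1 : ℝ) ≤ s.factorial := by exact_mod_cast hf
    nlinarith
  · set m := M.card with hm
    set b := m / s with hb
    have hb1 : 1 ≤ b := (Nat.one_le_div_iff hs0).2 hge
    set p := (b - 1) / s.factorial * s.factorial + 1 with hp
    have hpb : p ≤ b := by
      have := Nat.div_mul_le_self (b - 1) s.factorial
      omega
    have hbp : b ≤ p + s.factorial := by
      have h1 := Nat.div_add_mod (b - 1) s.factorial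
      have h2 := Nat.mod_lt (b - 1) (Nat.factorial_pos s)
      rw [mul_comm] at h1
      omega
    have : NeZero p := ⟨by omega⟩
    have hcop : Nat.Coprime s.factorial p := by
      rw [hp]
      simp
    obtain ⟨P, hP, hPc⟩ := pack_td s p hs hcop
    have hle : Fintype.card (Fin s × ZMod p) ≤ Fintype.card M := by
      rw [Fintype.card_prod, Fintype.card_fin, ZMod.card, Fintype.card_coe]
      calc s * p ≤ s * b := Nat.mul_le_mul_left _ hpb
        _ ≤ m := Nat.mul_div_le m s
    obtain ⟨f⟩ := Function.Embedding.nonempty_of_card_le hle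
    let f' : (Fin s × ZMod p) ↪ α := f.trans (Function.Embedding.subtype _)
    refine ⟨_, hP.map f' (M' := M) fun a _ => (f a).2, ?_⟩
    rw [card_map, hPc]
    push_cast
    -- p ≥ m / s - 1 - s!
    have h1 : (m : ℝ) ≤ s * (p + s.factorial + 1) := by
      have h2 : m < s * (b + 1) := by
        have := Nat.lt_mul_div_succ m hs0
        rw [← hb] at this
        exact this
      have h3 : m ≤ s * (p + s.factorial + 1) := by
        refine h2.le.trans (Nat.mul_le_mul_left _ (by omega))
      exact_mod_cast h3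
    have hm0 : (0 : ℝ) ≤ m := Nat.cast_nonneg _
    have hp0 : (0 : ℝ) ≤ p := Nat.cast_nonneg _
    have hs2 : (0 : ℝ) < (s : ℝ) ^ 2 := by positivity
    have h4 : (1 : ℝ) ≤ s.factorial := by exact_mod_cast hf
    set F : ℝ := (s.factorial : ℝ) + 1 with hF
    -- m/s - F ≤ p
    have h5 : (m : ℝ) / s - F ≤ p := by
      rw [sub_le_iff_le_add, div_le_iff₀ (by linarith)]
      rw [hF]; linarith
    have h6 : (m : ℝ) * (m - 1) / s ^ 2 ≤ (m / s) * (m / s) := by
      rw [div_mul_div_comm, ← sq (s : ℝ)]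
      exact div_le_div_of_nonneg_right (by nlinarith) hs2.le
    have h7 : (m : ℝ) / s ≤ m := div_le_self hm0 (by linarith)
    have h8 : (0 : ℝ) ≤ m / s := by positivity
    rcases le_total F ((m : ℝ) / s) with h9 | h9
    · nlinarith
    · have h10 : (m : ℝ) / s * (m / s) ≤ F * (m / s) := mul_le_mul_of_nonneg_right h9 h8
      nlinarith

/-- pair cost of a block of size `s` -/
noncomputable def kap (s : ℕ) : ℝ :=
  if s ≤ 1 then 0 else if s = 2 then 1 else if s = 3 then 3 else (s : ℝ) ^ 2 / 2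

theorem kap_pos {s : ℕ} (hs : 2 ≤ s) : 0 < kap s := by
  unfold kap
  rw [if_neg (by omega)]
  split_ifs
  · norm_num
  · norm_num
  · positivity

theorem kap_one : kap 1 = 0 := by simp [kap]
theorem kap_two : kap 2 = 1 := by simp [kap]
theorem kap_three : kap 3 = 3 := by simp [kap]
theorem kap_four : kap 4 = 8 := by simp [kap]; norm_num

theorem pack (s : ℕ) (hs : 2 ≤ s) : ∃ L : ℝ, 0 ≤ L ∧ (s = 2 → L = 0) ∧
    ∀ {α : Type} [DecidableEq α] (M : Finset α),
    ∃ P : Finset (Finset α), IsPack s M P ∧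
      (M.card : ℝ) * (M.card - 1) / (2 * kap s) - L * M.card ≤ P.card := by
  rcases Nat.lt_or_ge 3 s with h | h
  · obtain ⟨L, hL, hpk⟩ := pack_large s hs
    refine ⟨L, hL, by omega, fun {α} _ M => ?_⟩
    obtain ⟨P, hP, hc⟩ := hpk M
    refine ⟨P, hP, ?_⟩
    have : kap s = (s : ℝ) ^ 2 / 2 := by
      unfold kap
      rw [if_neg (by omega), if_neg (by omega), if_neg (by omega)]
    rw [this, mul_div_cancel₀ _ (two_ne_zero)]
    exact hc
  · interval_cases s
    · refine ⟨0, le_rfl, fun _ => rfl, fun {α} _ M => ?_⟩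
      obtain ⟨P, hP, hc⟩ := pack_two M
      refine ⟨P, hP, ?_⟩
      rw [kap_two, mul_one, zero_mul, sub_zero]
      exact hc
    · refine ⟨1, zero_le_one, by omega, fun {α} _ M => ?_⟩
      obtain ⟨P, hP, hc⟩ := pack_three M
      refine ⟨P, hP, ?_⟩
      rw [kap_three, one_mul]
      norm_num
      norm_num at hc
      exact hc

/-- piecewise linear cost bounded by the cube -/
theorem kap_interp {d : ℝ} {s : ℕ} (hs : 2 ≤ s) (h1 : (s : ℝ) - 1 < d) (h2 : d ≤ s) :
    (s - d) * kap (s - 1) + (d - (s - 1)) * kap s ≤ 4 / 27 * d ^ 3 := by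
  rcases Nat.lt_or_ge 5 s with h | h
  · have hsR : (6 : ℝ) ≤ s := by exact_mod_cast h
    have e1 : kap s = (s : ℝ) ^ 2 / 2 := by
      unfold kap
      rw [if_neg (by omega), if_neg (by omega), if_neg (by omega)]
    have e2 : kap (s - 1) = ((s - 1 : ℕ) : ℝ) ^ 2 / 2 := by
      unfold kap
      rw [if_neg (by omega), if_neg (by omega), if_neg (by omega)]
    rw [e1, e2, Nat.cast_sub (by omega)]
    push_cast
    have h3 : ((s : ℝ) - d) * (((s : ℝ) - 1) ^ 2 / 2) ≤ (s - d) * ((s : ℝ) ^ 2 / 2) := by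
      apply mul_le_mul_of_nonneg_left _ (by linarith)
      nlinarith
    have h4 : (s - d) * ((s : ℝ) ^ 2 / 2) + (d - (s - 1)) * ((s : ℝ) ^ 2 / 2) =
        (s : ℝ) ^ 2 / 2 := by ring
    have h5 : ((s : ℝ) - 1) ^ 3 ≤ d ^ 3 := by
      apply pow_le_pow_left₀ (by linarith) h1.le
    have h6 : (s : ℝ) ^ 2 / 2 ≤ 4 / 27 * ((s : ℝ) - 1) ^ 3 := by
      obtain ⟨t, ht⟩ : ∃ t : ℝ, (s : ℝ) = 6 + t := ⟨s - 6, by ring⟩
      rw [ht]
      have ht0 : 0 ≤ t := by linarith
      nlinarith [pow_nonneg ht0 2, pow_nonneg ht0 3]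
    linarith
  · have hcub : ∀ x y : ℝ, 0 ≤ x → 0 ≤ y → 0 ≤ (x - y) ^ 2 * (x + 2 * y) := fun x y hx hy => by
      positivity
    interval_cases s
    · -- tangent at 3/2
      norm_num at h1 h2 ⊢
      rw [kap_one, kap_two]
      nlinarith [hcub d (3 / 2) (by linarith) (by norm_num)]
    · norm_num at h1 h2 ⊢
      rw [kap_two, kap_three]
      nlinarith [hcub d 2 (by linarith) (by norm_num)]
    · norm_num at h1 h2 ⊢
      rw [kap_three, kap_four]
      nlinarith [hcub d (10 / 3) (by linarith) (by norm_num)]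
    · norm_num at h1 h2 ⊢
      have e5 : kap 5 = 25 / 2 := by simp [kap]; norm_num
      rw [kap_four, e5]
      nlinarith [hcub d 4 (by linarith) (by norm_num)]

end Pool.Agent.MP9a04dc
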