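import Pool.Agent.MP9a04dc.Prod
import Pool.Agent.MP9a04dc.TD

set_option autoImplicit false

open Finset BigOperators

namespace Pool.Agent.MP9a04dc

/-- balanced rows with few pairs in a common row -/
theorem rows {A : Type*} [Fintype A] [DecidableEq A] (K : ℕ) [NeZero K] (u : A → A → ℝ)
    (hu : ∀ i j, 0 ≤ u i j) :
    ∃ (r : A → ZMod K) (t : A → ℕ), (∀ i, t i ≤ Fintype.card A / K) ∧
      (∀ i j, r i = r j → t i = t j → i = j) ∧
      ∑ i, ∑ j, (if i ≠ j ∧ r i = r j then u i j else 0) ≤ (1 / K) * ∑ i, ∑ j, u i j := by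
  classical
  obtain ⟨e⟩ : Nonempty (A ≃ Fin (Fintype.card A)) := ⟨Fintype.equivFin A⟩
  have hK : 0 < K := Nat.pos_of_ne_zero (NeZero.ne K)
  have hKR : (0 : ℝ) < K := by exact_mod_cast hK
  have hg : ∀ i : A, (e i : ℕ) / K < Fintype.card A / K + 1 := fun i =>
    Nat.lt_succ_of_le (Nat.div_le_div_right (e i).isLt.le)
  let g : A → Fin (Fintype.card A / K + 1) := fun i => ⟨(e i : ℕ) / K, hg i⟩
  let R : (Fin (Fintype.card A / K + 1) → ZMod K) → A → ZMod K := fun c i =>
    ((e i : ℕ) : ZMod K) + c (g i)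
  have hinj : ∀ c i j, R c i = R c j → g i = g j → i = j := by
    intro c i j h1 h2
    simp only [R, h2] at h1
    have h3 := add_right_cancel h1
    rw [ZMod.natCast_eq_natCast_iff] at h3
    have h4 : (e i : ℕ) / K = (e j : ℕ) / K := congrArg Fin.val h2
    have h5 : (e i : ℕ) % K = (e j : ℕ) % K := h3
    have h6 := Nat.div_add_mod (e i : ℕ) K
    have h7 := Nat.div_add_mod (e j : ℕ) K
    rw [h4, h5] at h6
    exact e.injective (Fin.ext (h6.symm.trans h7))
  let p : Fin (Fintype.card A / K + 1) → ZMod K → ℝ := fun _ _ => 1 / K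
  have hp : ∀ i k, 0 ≤ p i k := fun i k => by positivity
  have hind : ∀ (x : Fin (Fintype.card A / K + 1)) (k0 : ZMod K),
      ∑ k, p x k * (if k = k0 then (1 : ℝ) else 0) = 1 / K := by
    intro x k0
    simp [p]
  have hp1 : ∀ i, ∑ k, p i k = 1 := by
    intro i
    simp only [p, sum_const, card_univ, ZMod.card, nsmul_eq_mul]
    field_simp
  obtain ⟨c, -, hc⟩ := EE_exists_le hp hp1
    (fun c => ∑ i, ∑ j, (if i ≠ j ∧ R c i = R c j then u i j else 0))
  refine ⟨R c, fun i => (e i : ℕ) / K, fun i => Nat.lt_succ_iff.1 (hg i), fun i j h1 h2 =>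
    hinj c i j h1 (Fin.ext h2), hc.trans ?_⟩
  rw [EE_sum, mul_sum]
  refine sum_le_sum fun i _ => ?_
  rw [EE_sum, mul_sum]
  refine sum_le_sum fun j _ => ?_
  by_cases hij : g i = g j
  · have : (fun c => if i ≠ j ∧ R c i = R c j then u i j else 0) = fun _ => 0 := by
      funext c
      rw [if_neg]
      rintro ⟨h1, h2⟩
      exact h1 (hinj c i j h2 hij)
    rw [this, EE_const hp1]
    exact mul_nonneg (by positivity) (hu i j)
  · have hle : ∀ c, (if i ≠ j ∧ R c i = R c j then u i j else 0) ≤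
        u i j * ∑ k, (if c (g i) = k then (1 : ℝ) else 0) *
          (if c (g j) = ((e i : ℕ) : ZMod K) + k - ((e j : ℕ) : ZMod K) then 1 else 0) := by
      intro c
      have hs : ∑ k, (if c (g i) = k then (1 : ℝ) else 0) *
          (if c (g j) = ((e i : ℕ) : ZMod K) + k - ((e j : ℕ) : ZMod K) then 1 else 0) =
          if c (g j) = ((e i : ℕ) : ZMod K) + c (g i) - ((e j : ℕ) : ZMod K) then 1 else 0 := by
        rw [sum_eq_single (c (g i))]
        · rw [if_pos rfl, one_mul]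
        · intro b _ hb
          rw [if_neg (Ne.symm hb), zero_mul]
        · intro h
          exact absurd (mem_univ _) h
      rw [hs]
      split_ifs with h1 h2 h2
      · rw [mul_one]
      · exfalso
        apply h2
        have := h1.2
        simp only [R] at this
        rw [this]; ring
      · rw [mul_one]; exact hu i j
      · rw [mul_zero]
    refine (EE_mono hp hle).trans ?_
    rw [EE_const_mul, EE_sum]
    have : ∀ k : ZMod K, EE p (fun c => (if c (g i) = k then (1 : ℝ) else 0) *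
          (if c (g j) = ((e i : ℕ) : ZMod K) + k - ((e j : ℕ) : ZMod K) then 1 else 0)) =
          1 / K * (1 / K) := by
      intro k
      rw [EE_two hp1 hij (fun x => if x = k then 1 else 0)
        (fun x => if x = ((e i : ℕ) : ZMod K) + k - ((e j : ℕ) : ZMod K) then 1 else 0),
        hind (g i), hind (g j)]
    rw [sum_congr rfl fun k _ => this k, sum_const, card_univ, ZMod.card, nsmul_eq_mul]
    have e1 : (K : ℝ) * (1 / K * (1 / K)) = 1 / K := by field_simp
    rw [e1, mul_comm]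

section cells

variable {A : Type*} [DecidableEq A] {K Q : ℕ} [NeZero K] [NeZero Q]

/-- incidence of the point `i` with the cell `ℓ` -/
def inC (r : A → ZMod K) (τ : A → ZMod Q) (ℓ : ZMod Q × ZMod Q) (i : A) : Prop :=
  τ i = ℓ.1 + ((r i).val : ZMod Q) * ℓ.2

instance (r : A → ZMod K) (τ : A → ZMod Q) (ℓ : ZMod Q × ZMod Q) (i : A) :
    Decidable (inC r τ ℓ i) := by unfold inC; infer_instance

/-- the rows met by `X` in the cell `ℓ` -/
def MM (r : A → ZMod K) (τ : A → ZMod Q) (X : Finset A) (ℓ : ZMod Q × ZMod Q) :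
    Finset (ZMod K) :=
  (X.filter fun i => inC r τ ℓ i).image r

theorem inC_inj {r : A → ZMod K} {τ : A → ZMod Q} (hinj : ∀ i j, r i = r j → τ i = τ j → i = j)
    {ℓ : ZMod Q × ZMod Q} {i j : A} (hi : inC r τ ℓ i) (hj : inC r τ ℓ j) (h : r i = r j) :
    i = j := by
  refine hinj i j h ?_
  unfold inC at hi hj
  rw [hi, hj, h]

theorem card_MM {r : A → ZMod K} {τ : A → ZMod Q} (hinj : ∀ i j, r i = r j → τ i = τ j → i = j)
    (X : Finset A) (ℓ : ZMod Q × ZMod Q) :
    (MM r τ X ℓ).card = (X.filter fun i => inC r τ ℓ i).card := by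
  unfold MM
  refine card_image_of_injOn fun i hi j hj h => ?_
  rw [mem_coe, mem_filter] at hi hj
  exact inC_inj hinj hi.2 hj.2 h

theorem inC_unique {r : A → ZMod K} {τ : A → ZMod Q} (hcop : Nat.Coprime K.factorial Q)
    {ℓ ℓ' : ZMod Q × ZMod Q} {i j : A} (hij : r i ≠ r j) (h1 : inC r τ ℓ i) (h2 : inC r τ ℓ j)
    (h3 : inC r τ ℓ' i) (h4 : inC r τ ℓ' j) : ℓ = ℓ' := by
  have hne : (r i).val ≠ (r j).val := fun h => hij (ZMod.val_injective K h)
  have hu := unit_of_lt hcop (ZMod.val_lt (r i)) (ZMod.val_lt (r j)) hne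
  have := line_unique hu h1 h2 h3 h4
  exact Prod.ext this.1 this.2

theorem card_cells_one (r : A → ZMod K) (τ : A → ZMod Q) (i : A) :
    (univ.filter fun ℓ : ZMod Q × ZMod Q => inC r τ ℓ i).card = Q := by
  have : (univ.filter fun ℓ : ZMod Q × ZMod Q => inC r τ ℓ i) =
      (univ : Finset (ZMod Q)).image fun b => (τ i - ((r i).val : ZMod Q) * b, b) := by
    ext ℓ
    rw [mem_filter, mem_image]
    unfold inC
    constructor
    · rintro ⟨-, h⟩
      refine ⟨ℓ.2, mem_univ _, ?_⟩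
      ext
      · simp only; rw [h]; ring
      · rfl
    · rintro ⟨b, -, rfl⟩
      refine ⟨mem_univ _, ?_⟩
      simp only
      ring
  rw [this, card_image_of_injective, card_univ, ZMod.card]
  intro b b' h
  exact (Prod.mk.inj h).2

theorem card_cells_two {r : A → ZMod K} {τ : A → ZMod Q} (hcop : Nat.Coprime K.factorial Q)
    {i j : A} (hij : r i ≠ r j) :
    (univ.filter fun ℓ : ZMod Q × ZMod Q => inC r τ ℓ i ∧ inC r τ ℓ j).card = 1 := by
  have hne : (r i).val ≠ (r j).val := fun h => hij (ZMod.val_injective K h)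
  have hu := unit_of_lt hcop (ZMod.val_lt (r i)) (ZMod.val_lt (r j)) hne
  obtain ⟨a, b, h1, h2⟩ := line_exists hu (τ i) (τ j)
  rw [card_eq_one]
  refine ⟨(a, b), ?_⟩
  ext ℓ
  rw [mem_filter, mem_singleton]
  constructor
  · rintro ⟨-, h3, h4⟩
    exact inC_unique hcop hij h3 h4 h1 h2
  · rintro rfl
    exact ⟨mem_univ _, h1, h2⟩

theorem sum_card_cells (r : A → ZMod K) (τ : A → ZMod Q) (X : Finset A) :
    ∑ ℓ : ZMod Q × ZMod Q, (((X.filter fun i => inC r τ ℓ i).card : ℕ) : ℝ) = X.card * Q := by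
  have h1 : ∀ ℓ : ZMod Q × ZMod Q, (((X.filter fun i => inC r τ ℓ i).card : ℕ) : ℝ) =
      ∑ i ∈ X, if inC r τ ℓ i then 1 else 0 := by
    intro ℓ
    rw [card_filter]
    push_cast
    rfl
  rw [sum_congr rfl fun ℓ _ => h1 ℓ, sum_comm]
  have h2 : ∀ i, ∑ ℓ : ZMod Q × ZMod Q, (if inC r τ ℓ i then (1 : ℝ) else 0) = Q := by
    intro i
    rw [← sum_filter, sum_const, card_cells_one, nsmul_eq_mul, mul_one]
  rw [sum_congr rfl fun i _ => h2 i, sum_const, nsmul_eq_mul]

/-- ordered pairs of `X` in a common row -/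
def RR (r : A → ZMod K) (X : Finset A) : ℕ :=
  ((X ×ˢ X).filter fun q => q.1 ≠ q.2 ∧ r q.1 = r q.2).card

theorem sum_sq_cells {r : A → ZMod K} {τ : A → ZMod Q} (hcop : Nat.Coprime K.factorial Q)
    (hinj : ∀ i j, r i = r j → τ i = τ j → i = j) (X : Finset A) :
    ∑ ℓ : ZMod Q × ZMod Q, (((X.filter fun i => inC r τ ℓ i).card : ℕ) : ℝ) *
      (((X.filter fun i => inC r τ ℓ i).card : ℕ) - 1) =
      X.card * (X.card - 1) - RR r X := by
  have h1 : ∀ ℓ : ZMod Q × ZMod Q, (((X.filter fun i => inC r τ ℓ i).card : ℕ) : ℝ) *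
      (((X.filter fun i => inC r τ ℓ i).card : ℕ) - 1) =
      ∑ q ∈ X.offDiag, if inC r τ ℓ q.1 ∧ inC r τ ℓ q.2 then 1 else 0 := by
    intro ℓ
    rw [← sum_filter, sum_const, nsmul_eq_mul, mul_one]
    have h2 : (X.offDiag.filter fun q => inC r τ ℓ q.1 ∧ inC r τ ℓ q.2) =
        (X.filter fun i => inC r τ ℓ i).offDiag := by
      ext q
      simp only [mem_filter, mem_offDiag]
      tauto
    rw [h2, offDiag_card, Nat.cast_sub (Nat.le_mul_self _)]
    push_cast
    ring
  rw [sum_congr rfl fun ℓ _ => h1 ℓ, sum_comm]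
  have h2 : ∀ q ∈ X.offDiag, ∑ ℓ : ZMod Q × ZMod Q,
      (if inC r τ ℓ q.1 ∧ inC r τ ℓ q.2 then (1 : ℝ) else 0) =
      if r q.1 = r q.2 then 0 else 1 := by
    intro q hq
    rw [mem_offDiag] at hq
    rw [← sum_filter, sum_const, nsmul_eq_mul, mul_one]
    split_ifs with h
    · rw [Nat.cast_eq_zero, card_eq_zero, filter_eq_empty_iff]
      rintro ℓ - ⟨h3, h4⟩
      exact hq.2.2 (inC_inj hinj h3 h4 h)
    · rw [card_cells_two hcop h]
      norm_num
  rw [sum_congr rfl h2]
  have h3 : (X.offDiag.filter fun q => r q.1 = r q.2) =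
      (X ×ˢ X).filter fun q => q.1 ≠ q.2 ∧ r q.1 = r q.2 := by
    ext q
    simp only [mem_filter, mem_offDiag, mem_product]
    tauto
  have h4 : ∑ q ∈ X.offDiag, (if r q.1 = r q.2 then (0 : ℝ) else 1) +
      ∑ q ∈ X.offDiag, (if r q.1 = r q.2 then (1 : ℝ) else 0) = X.offDiag.card := by
    rw [← sum_add_distrib, card_eq_sum_ones, Nat.cast_sum]
    refine sum_congr rfl fun q _ => ?_
    split_ifs <;> norm_num
  have h5 : ∑ q ∈ X.offDiag, (if r q.1 = r q.2 then (1 : ℝ) else 0) = RR r X := by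
    rw [← sum_filter, h3, sum_const, nsmul_eq_mul, mul_one]
    rfl
  rw [h5] at h4
  have h6 : ((X.offDiag.card : ℕ) : ℝ) = X.card * (X.card - 1) := by
    rw [offDiag_card, Nat.cast_sub (Nat.le_mul_self _)]
    push_cast
    ring
  linarith

/-- the points of `X` in the cell `ℓ` with rows in `o` -/
def blkSet (r : A → ZMod K) (τ : A → ZMod Q) (X : Finset A) (ℓ : ZMod Q × ZMod Q)
    (o : Finset (ZMod K)) : Finset A :=
  X.filter fun i => inC r τ ℓ i ∧ r i ∈ o

theorem card_blkSet {r : A → ZMod K} {τ : A → ZMod Q}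
    (hinj : ∀ i j, r i = r j → τ i = τ j → i = j) {X : Finset A} {ℓ : ZMod Q × ZMod Q}
    {o : Finset (ZMod K)} (ho : o ⊆ MM r τ X ℓ) : (blkSet r τ X ℓ o).card = o.card := by
  have h1 : (blkSet r τ X ℓ o).image r = o := by
    ext x
    rw [mem_image]
    constructor
    · rintro ⟨i, hi, rfl⟩
      exact (mem_filter.1 hi).2.2
    · intro hx
      have := ho hx
      unfold MM at this
      obtain ⟨i, hi, rfl⟩ := mem_image.1 this
      rw [mem_filter] at hi
      exact ⟨i, mem_filter.2 ⟨hi.1, hi.2, hx⟩, rfl⟩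
  rw [← h1, card_image_of_injOn]
  · rw [h1]
  · intro i hi j hj h
    rw [mem_coe] at hi hj
    exact inC_inj hinj (mem_filter.1 hi).2.1 (mem_filter.1 hj).2.1 h

end cells

end Pool.Agent.MP9a04dc
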