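import Pool.Agent.MP9a04dc.Round
import Pool.Agent.MP9a04dc.Cells

set_option autoImplicit false

open Finset BigOperators

namespace Pool.Agent.MP9a04dc

/-- the `b`-th block of a packing -/
noncomputable def nthBlk {α : Type*} (P : Finset (Finset α)) (b : ℕ) : Finset α :=
  if h : b < P.card then (P.equivFin.symm ⟨b, h⟩ : Finset α) else ∅

theorem nthBlk_mem {α : Type*} {P : Finset (Finset α)} {b : ℕ} (h : b < P.card) :
    nthBlk P b ∈ P := by
  unfold nthBlk
  rw [dif_pos h]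
  exact (P.equivFin.symm ⟨b, h⟩).2

theorem nthBlk_inj {α : Type*} {P : Finset (Finset α)} {b b' : ℕ} (h : b < P.card)
    (h' : b' < P.card) (he : nthBlk P b = nthBlk P b') : b = b' := by
  unfold nthBlk at he
  rw [dif_pos h, dif_pos h'] at he
  have := P.equivFin.symm.injective (Subtype.ext he)
  exact congrArg Fin.val this

theorem assign {A B : Type} [Fintype A] [DecidableEq A] [Fintype B] [DecidableEq B]
    {K Q : ℕ} [NeZero K] [NeZero Q] (N : B → Finset A) (hN : ∀ v, (N v).Nonempty)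
    (hcop : Nat.Coprime K.factorial Q) {r : A → ZMod K} {τ : A → ZMod Q}
    (hinj : ∀ i j, r i = r j → τ i = τ j → i = j) (s₀ : ℕ)
    (P : Fin (s₀ + 1) → Finset (ZMod K) → Finset (Finset (ZMod K)))
    (hP : ∀ (s : Fin (s₀ + 1)) M, 2 ≤ (s : ℕ) → IsPack (s : ℕ) M (P s M))
    (c : B → ℝ) (hc0 : ∀ v, 0 ≤ c v) (hc1 : ∑ v, c v ≤ 1) {cm : ℝ} (hcm0 : 0 ≤ cm)
    (hcm : ∀ v, c v ≤ cm)
    (π : B → Fin (s₀ + 1) → ℝ) (hπ0 : ∀ v s, 0 ≤ π v s) (hπ1 : ∀ v, ∑ s, π v s ≤ 1)
    (hπ2 : ∀ v s, 0 < π v s → 2 ≤ (s : ℕ))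
    (hmass : ∀ v, ∑ s, π v s * (c v * ∑ ℓ, ((P s (MM r τ (N v) ℓ)).card : ℝ)) ≤ 1)
    {δ : ℝ} (hδ : 0 < δ) {D : ℕ} (hD1 : 2 ^ K ≤ D) (hD2 : s₀ ≤ D) :
    ∃ S : B → Finset A, (∀ v, S v ⊆ N v) ∧ (∀ v v', v ≠ v' → (S v ∩ S v').card ≤ 1) ∧
      (Fintype.card B : ℝ) +
        ∑ v, ∑ s, π v s * ((s : ℕ) - 1) * (c v * ∑ ℓ, ((P s (MM r τ (N v) ℓ)).card : ℝ)) -
        (Q * Q : ℝ) * (2 ^ K * (s₀ + 1)) * δ * D ^ 2 -
        (1 + D) * Real.sqrt (Fintype.card B * ((Q * Q : ℝ) * (cm * (D ^ 2 + (D ^ 2) ^ 2) / δ))) ≤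
      ∑ v, ((S v).card : ℝ) := by
  classical
  set a : B → (ZMod Q × ZMod Q) → (Finset (ZMod K) × Fin (s₀ + 1)) → ℝ := fun v ℓ k =>
    if MM r τ (N v) ℓ = k.1 then c v * π v k.2 else 0 with ha_def
  set nb : (Finset (ZMod K) × Fin (s₀ + 1)) → ℕ := fun k => (P k.2 k.1).card with hnb_def
  set gb : (Finset (ZMod K) × Fin (s₀ + 1)) → ℝ := fun k => (((k.2 : ℕ) - 1 : ℕ) : ℝ) with hgb_def
  have hsumk : ∀ v ℓ (h : (Finset (ZMod K) × Fin (s₀ + 1)) → ℝ),
      ∑ k, a v ℓ k * h k = ∑ s, π v s * (c v * h (MM r τ (N v) ℓ, s)) := by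
    intro v ℓ h
    rw [Fintype.sum_prod_type, sum_comm]
    refine sum_congr rfl fun s _ => ?_
    simp only [ha_def, ite_mul, zero_mul]
    rw [sum_ite_eq]
    simp only [mem_univ, if_true]
    ring
  have ha0 : ∀ v ℓ k, 0 ≤ a v ℓ k := by
    intro v ℓ k
    simp only [ha_def]
    split_ifs
    · exact mul_nonneg (hc0 v) (hπ0 v _)
    · exact le_rfl
  have hsum : ∀ ℓ, ∑ v, ∑ k, a v ℓ k ≤ 1 := by
    intro ℓ
    refine le_trans (sum_le_sum fun v _ => ?_) hc1
    have := hsumk v ℓ (fun _ => 1)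
    simp only [mul_one] at this
    rw [this, ← sum_mul]
    have h1 := mul_le_mul_of_nonneg_right (hπ1 v) (hc0 v)
    rwa [one_mul] at h1
  have hnbD : ∀ k, nb k ≤ D := by
    intro k
    refine le_trans ?_ hD1
    simp only [hnb_def]
    refine (card_le_univ _).trans ?_
    rw [Fintype.card_finset, ZMod.card]
  have hgb0 : ∀ k, 0 ≤ gb k := fun k => Nat.cast_nonneg _
  have hgbD : ∀ k, gb k ≤ D := by
    intro k
    simp only [hgb_def]
    exact_mod_cast (Nat.sub_le _ _).trans ((Nat.lt_succ_iff.1 k.2.isLt).trans hD2)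
  have hπle : ∀ v s, π v s ≤ 1 := fun v s =>
    (single_le_sum (fun s _ => hπ0 v s) (mem_univ s)).trans (hπ1 v)
  have hcm' : ∀ v ℓ k, a v ℓ k ≤ cm := by
    intro v ℓ k
    simp only [ha_def]
    split_ifs
    · have h1 := mul_le_mul_of_nonneg_left (hπle v k.2) (hc0 v)
      rw [mul_one] at h1
      exact h1.trans (hcm v)
    · exact hcm0
  have hmass' : ∀ v, ∑ ℓ, ∑ k, a v ℓ k * nb k ≤ 1 := by
    intro v
    refine le_trans (le_of_eq ?_) (hmass v)
    rw [sum_congr rfl fun ℓ _ => hsumk v ℓ (fun k => (nb k : ℝ)), sum_comm]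
    refine sum_congr rfl fun s _ => ?_
    rw [← mul_sum, ← mul_sum]
  obtain ⟨cf, φ, φ1, φ2, φ3⟩ := rounding ha0 hsum hnbD hgb0 hgbD hcm0 hcm' hmass' hδ
  -- total gain
  have htot : ∑ v, ∑ ℓ, ∑ k, a v ℓ k * nb k * gb k =
      ∑ v, ∑ s, π v s * ((s : ℕ) - 1) * (c v * ∑ ℓ, ((P s (MM r τ (N v) ℓ)).card : ℝ)) := by
    refine sum_congr rfl fun v _ => ?_
    have e1 : ∀ ℓ, ∑ k, a v ℓ k * nb k * gb k = ∑ s, π v s * (c v * ((nb (MM r τ (N v) ℓ, s) : ℝ) *
        gb (MM r τ (N v) ℓ, s))) := by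
      intro ℓ
      rw [← hsumk v ℓ (fun k => (nb k : ℝ) * gb k)]
      exact sum_congr rfl fun k _ => by ring
    rw [sum_congr rfl fun ℓ _ => e1 ℓ, sum_comm]
    refine sum_congr rfl fun s _ => ?_
    rcases (hπ0 v s).eq_or_lt with h | h
    · rw [← h]; simp
    · have h2 := hπ2 v s h
      have e2 : ∀ ℓ, gb (MM r τ (N v) ℓ, s) = ((s : ℕ) : ℝ) - 1 := by
        intro ℓ
        simp only [hgb_def]
        rw [Nat.cast_sub (by omega)]
        simp
      simp only [e2, hnb_def]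
      rw [mul_sum, mul_sum]
      exact sum_congr rfl fun ℓ _ => by ring
  have hcardΛ : (Fintype.card (ZMod Q × ZMod Q) : ℝ) = Q * Q := by
    rw [Fintype.card_prod, ZMod.card]; push_cast; ring
  have hcardκ : (Fintype.card (Finset (ZMod K) × Fin (s₀ + 1)) : ℝ) = 2 ^ K * (s₀ + 1) := by
    rw [Fintype.card_prod, Fintype.card_finset, ZMod.card, Fintype.card_fin]; push_cast; ring
  rw [htot, hcardΛ, hcardκ] at φ3
  -- the sets
  set S : B → Finset A := fun v => match φ v with
    | none => {(hN v).choose}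
    | some j => match cf j.1 with
      | none => ∅
      | some k => blkSet r τ (N v) j.1 (nthBlk (P k.2 k.1) j.2) with hS
  have hSnone : ∀ v, φ v = none → S v = {(hN v).choose} := by
    intro v h
    simp only [hS]
    rw [h]
  have hSsome : ∀ v j, φ v = some j → ∃ k, cf j.1 = some k ∧ (j.2 : ℕ) < (P k.2 k.1).card ∧
      2 ≤ (k.2 : ℕ) ∧ MM r τ (N v) j.1 = k.1 ∧
      S v = blkSet r τ (N v) j.1 (nthBlk (P k.2 k.1) j.2) := by
    intro v j h
    obtain ⟨k, hk, hb, hpos⟩ := φ2 v j h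
    refine ⟨k, hk, hb, ?_, ?_, ?_⟩
    · simp only [ha_def] at hpos
      split_ifs at hpos with h1
      · refine hπ2 v k.2 ?_
        by_contra hcon
        have h0 : π v k.2 = 0 := le_antisymm (not_lt.1 hcon) (hπ0 _ _)
        rw [h0, mul_zero] at hpos
        exact lt_irrefl _ hpos
      · exact absurd hpos (lt_irrefl _)
    · simp only [ha_def] at hpos
      split_ifs at hpos with h1
      · exact h1
      · exact absurd hpos (lt_irrefl _)
    · simp only [hS]
      rw [h]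
      simp only [hk]
  refine ⟨S, fun v => ?_, fun v v' hvv => ?_, ?_⟩
  · rcases hv : φ v with _ | j
    · rw [hSnone v hv, singleton_subset_iff]
      exact (hN v).choose_spec
    · obtain ⟨k, -, -, -, -, hS'⟩ := hSsome v j hv
      rw [hS']
      exact filter_subset _ _
  · rcases hv : φ v with _ | j
    · rw [hSnone v hv]
      exact (card_le_card inter_subset_left).trans (card_singleton _).le
    · rcases hv' : φ v' with _ | j'
      · rw [hSnone v' hv']
        exact (card_le_card inter_subset_right).trans (card_singleton _).le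
      · obtain ⟨k, hk, hb, hk2, hM, hS1⟩ := hSsome v j hv
        obtain ⟨k', hk', hb', hk2', hM', hS2⟩ := hSsome v' j' hv'
        rw [hS1, hS2, card_le_one]
        intro x hx y hy
        by_contra hxy
        rw [mem_inter] at hx hy
        have x1 := (mem_filter.1 hx.1).2
        have x2 := (mem_filter.1 hx.2).2
        have y1 := (mem_filter.1 hy.1).2
        have y2 := (mem_filter.1 hy.2).2
        have hrne : r x ≠ r y := fun h => hxy (inC_inj hinj x1.1 y1.1 h)
        have hℓ : j.1 = j'.1 := inC_unique hcop hrne x1.1 y1.1 x2.1 y2.1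
        have hkk : k = k' := by
          rw [hℓ, hk'] at hk
          exact (Option.some.inj hk).symm
        subst hkk
        have hbne : (j.2 : ℕ) ≠ (j'.2 : ℕ) := by
          intro h
          apply hvv
          refine φ1 v v' j hv ?_
          rw [hv']
          congr 1
          exact Prod.ext hℓ.symm (Fin.ext h.symm)
        have hone := nthBlk_inj hb hb'
        have hcard := (hP k.2 k.1 hk2).2 _ (nthBlk_mem hb) _ (nthBlk_mem hb')
          (fun h => hbne (hone h))
        rw [card_le_one] at hcard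
        exact hrne (hcard (r x) (mem_inter.2 ⟨x1.2, x2.2⟩) (r y) (mem_inter.2 ⟨y1.2, y2.2⟩))
  · have φ4 : ∑ v, ∑ s, π v s * ((s : ℕ) - 1) *
          (c v * ∑ ℓ, ((P s (MM r τ (N v) ℓ)).card : ℝ)) -
        (Q * Q : ℝ) * (2 ^ K * (s₀ + 1)) * δ * D ^ 2 -
        (1 + D) * Real.sqrt (Fintype.card B * ((Q * Q : ℝ) * (cm * (D ^ 2 + (D ^ 2) ^ 2) / δ))) ≤
        ∑ v, (match φ v with
        | none => 0
        | some j => match cf j.1 with
          | none => 0
          | some k => gb k) := by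
      refine φ3.trans (le_of_eq (sum_congr rfl fun v _ => ?_))
      rcases φ v with _ | j
      · rfl
      · simp only
        rcases cf j.1 with _ | k <;> rfl
    have hle : (Fintype.card B : ℝ) + ∑ v, (match φ v with
        | none => 0
        | some j => match cf j.1 with
          | none => 0
          | some k => gb k) ≤ ∑ v, ((S v).card : ℝ) := by
      rw [← card_univ, card_eq_sum_ones, Nat.cast_sum, ← sum_add_distrib]
      refine sum_le_sum fun v _ => ?_
      rcases hv : φ v with _ | j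
      · simp only
        rw [hSnone v hv, card_singleton]
        norm_num
      · obtain ⟨k, hk, hb, hk2, hM, hS1⟩ := hSsome v j hv
        have hmem := (hP k.2 k.1 hk2).1 _ (nthBlk_mem hb)
        rw [hS1, card_blkSet hinj (by rw [hM]; exact hmem.1), hmem.2]
        simp only [hk, hgb_def]
        rw [Nat.cast_sub (by omega)]
        push_cast
        linarith
    linarith

end Pool.Agent.MP9a04dc
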