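import Pool.Agent.MP9a04dc.Frac

/-!
# The bipartite part
-/

set_option autoImplicit false
set_option linter.unusedSectionVars false
set_option linter.unusedVariables false

namespace Pool.Agent.MP9a04dc

open Finset

/-- the optimisation of the size -/
lemma size_opt {d s0 : ℕ} {D Z : ℝ} (hd2 : 2 ≤ d) (hdD : (d : ℝ) ≤ D) (hs0 : 1 ≤ s0)
    (hZ : 0 < Z) :
    ∃ s : ℕ, s ≤ s0 ∧ ((d : ℝ) - 1) * min (1 / √(2 * Z)) (s0 / (2 * D))
      ≤ (s : ℝ) - (s.choose 2 : ℝ) / (d.choose 2) * Z := by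
  have hd2' : (2 : ℝ) ≤ d := by exact_mod_cast hd2
  have hD : 0 < D := by linarith
  have hs0' : (1 : ℝ) ≤ s0 := by exact_mod_cast hs0
  set y := √(2 * Z) with hy
  have hy0 : 0 < y := Real.sqrt_pos.2 (by linarith)
  have hy2 : y ^ 2 = 2 * Z := Real.sq_sqrt (by linarith)
  set u : ℝ := d * (d - 1) / Z with hu
  have hu0 : 0 < u := by
    have : (0 : ℝ) < d * (d - 1) := mul_pos (by linarith) (by linarith)
    positivity
  have hterm : ∀ s : ℕ, (s : ℝ) - (s.choose 2 : ℝ) / (d.choose 2) * Z = s - s * (s - 1) / u := by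
    intro s
    rw [Nat.cast_choose_two, Nat.cast_choose_two, hu]
    have : (d : ℝ) * (d - 1) ≠ 0 := (mul_pos (by linarith) (by linarith)).ne'
    field_simp
  by_cases hc : ⌈u / 2⌉₊ ≤ s0
  · refine ⟨⌈u / 2⌉₊, hc, ?_⟩
    rw [hterm]
    set s : ℝ := (⌈u / 2⌉₊ : ℝ) with hs
    have h1 : u / 2 ≤ s := Nat.le_ceil _
    have h2 : s < u / 2 + 1 := Nat.ceil_lt_add_one (by positivity)
    have h3 : u / 4 + 1 / 2 ≤ s - s * (s - 1) / u := by
      have h4 : s * (s - 1) / u ≤ s - (u / 4 + 1 / 2) := by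
        rw [div_le_iff₀ hu0]
        nlinarith
      linarith
    refine le_trans ?_ h3
    have h5 : ((d : ℝ) - 1) * min (1 / y) (s0 / (2 * D)) ≤ (d - 1) / y := by
      calc ((d : ℝ) - 1) * min (1 / y) (s0 / (2 * D)) ≤ ((d : ℝ) - 1) * (1 / y) :=
            mul_le_mul_of_nonneg_left (min_le_left _ _) (by linarith)
        _ = (d - 1) / y := by ring
    refine h5.trans ?_
    set ω := ((d : ℝ) - 1) / y with hω
    have h6 : 2 * ω ^ 2 ≤ u := by
      rw [hω, hu, div_pow, hy2, mul_div_assoc', div_le_div_iff₀ (by positivity) hZ]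
      have h7 : ((d : ℝ) - 1) ^ 2 ≤ d * (d - 1) := by nlinarith
      nlinarith
    nlinarith [sq_nonneg (ω - 1)]
  · refine ⟨s0, le_rfl, ?_⟩
    rw [hterm]
    have h1 : (s0 : ℝ) < u / 2 := Nat.lt_ceil.1 (not_le.1 hc)
    have h2 : (s0 : ℝ) / 2 ≤ s0 - s0 * (s0 - 1) / u := by
      have h3 : (s0 : ℝ) * (s0 - 1) / u ≤ s0 / 2 := by
        rw [div_le_iff₀ hu0]
        nlinarith
      linarith
    refine le_trans ?_ h2
    have h5 : ((d : ℝ) - 1) * min (1 / y) (s0 / (2 * D)) ≤ (d - 1) * (s0 / (2 * D)) :=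
      mul_le_mul_of_nonneg_left (min_le_right _ _) (by linarith)
    refine h5.trans ?_
    have h6 : ((d : ℝ) - 1) * (s0 / (2 * D)) ≤ D * (s0 / (2 * D)) :=
      mul_le_mul_of_nonneg_right (by linarith) (by positivity)
    have h7 : D * ((s0 : ℝ) / (2 * D)) = s0 / 2 := by field_simp
    linarith

lemma dual_value {B : Type} [Fintype B] {s0 : ℕ} {D μ : ℝ} (d : B → ℕ) (hd2 : ∀ b, 2 ≤ d b)
    (hdD : ∀ b, (d b : ℝ) ≤ D) (hD : 0 < D) (hs0 : 1 ≤ s0) (hμ : 0 < μ) (hμd : μ ^ 3 ≤ ∑ b, ((d b : ℝ) - 1))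
    (hs0D : 3 * D ≤ μ * s0) (Z : ℝ) (hZ : 0 ≤ Z) :
    ∃ s : B → ℕ, (∀ b, s b ≤ s0) ∧
      3 / 2 * μ ^ 2 ≤ ∑ b, ((s b : ℝ) - ((s b).choose 2 : ℝ) / ((d b).choose 2) * Z) + Z := by
  have hμ3 : 0 < μ ^ 3 := by positivity
  have hbig : 3 / 2 * μ ^ 2 ≤ (s0 / (2 * D)) * μ ^ 3 := by
    have h1 : (s0 : ℝ) / (2 * D) * μ ^ 3 = μ ^ 2 * (μ * s0) / (2 * D) := by ring
    rw [h1, le_div_iff₀ (by positivity)]
    have := mul_le_mul_of_nonneg_left hs0D (show 0 ≤ μ ^ 2 by positivity)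
    linarith
  rcases hZ.eq_or_lt with h0 | h0
  · refine ⟨fun _ => s0, fun _ => le_rfl, ?_⟩
    rw [← h0]
    simp only [mul_zero, sub_zero, add_zero]
    refine hbig.trans ?_
    have h2 : (s0 : ℝ) / (2 * D) * μ ^ 3 ≤ (s0 : ℝ) / (2 * D) * ∑ b, ((d b : ℝ) - 1) :=
      mul_le_mul_of_nonneg_left hμd (by positivity)
    refine h2.trans ?_
    rw [mul_sum]
    refine sum_le_sum fun b _ => ?_
    have h3 : (s0 : ℝ) / (2 * D) * (d b - 1) ≤ (s0 : ℝ) / (2 * D) * (2 * D) := by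
      refine mul_le_mul_of_nonneg_left ?_ (by positivity)
      have := hdD b
      linarith
    have h4 : (s0 : ℝ) / (2 * D) * (2 * D) = s0 := by field_simp
    linarith
  · choose s hs hsv using fun b => size_opt (hd2 b) (hdD b) hs0 h0
    refine ⟨s, hs, ?_⟩
    set q := min (1 / √(2 * Z)) ((s0 : ℝ) / (2 * D)) with hq
    have hq0 : 0 ≤ q := le_min (by positivity) (by positivity)
    have h1 : q * μ ^ 3 ≤ ∑ b, ((s b : ℝ) - ((s b).choose 2 : ℝ) / ((d b).choose 2) * Z) := by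
      calc q * μ ^ 3 ≤ q * ∑ b, ((d b : ℝ) - 1) := mul_le_mul_of_nonneg_left hμd hq0
        _ = ∑ b, ((d b : ℝ) - 1) * q := by rw [mul_comm, sum_mul]
        _ ≤ _ := sum_le_sum fun b _ => hsv b
    have h2 : 3 / 2 * μ ^ 2 ≤ q * μ ^ 3 + Z := by
      rcases min_choice (1 / √(2 * Z)) ((s0 : ℝ) / (2 * D)) with h3 | h3
      · rw [hq, h3]
        set y := √(2 * Z) with hy
        have hy0 : 0 < y := Real.sqrt_pos.2 (by linarith)
        have hy2 : y ^ 2 = 2 * Z := Real.sq_sqrt (by linarith)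
        have h4 : Z = y ^ 2 / 2 := by linarith
        rw [h4]
        have h5 : 1 / y * μ ^ 3 + y ^ 2 / 2 - 3 / 2 * μ ^ 2
            = (μ - y) ^ 2 * (2 * μ + y) / (2 * y) := by
          field_simp
          ring
        have h6 : 0 ≤ (μ - y) ^ 2 * (2 * μ + y) / (2 * y) := by positivity
        linarith
      · rw [hq, h3]
        linarith
    linarith

lemma choose_ratio_le (r s d : ℕ) (hd : 2 * r ≤ d) :
    (s.choose r : ℝ) / (d.choose r) ≤ (2 * s / d) ^ r := by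
  rcases Nat.eq_zero_or_pos r with hr | hr
  · subst hr; simp
  have hd0 : (0 : ℝ) < d := by exact_mod_cast (show 0 < d by omega)
  have hc0 : (0 : ℝ) < (d.choose r : ℝ) := by exact_mod_cast Nat.choose_pos (by omega)
  have h1 : (s.choose r : ℝ) ≤ (s : ℝ) ^ r / (r.factorial : ℝ) := Nat.choose_le_pow_div r s
  have h2 : (((d + 1 - r : ℕ) : ℝ) ^ r) ≤ (r.factorial : ℝ) * (d.choose r : ℝ) := by
    have := Nat.pow_le_choose (α := ℝ) r d
    have hf : (0 : ℝ) < (r.factorial : ℝ) := by exact_mod_cast Nat.factorial_pos r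
    rw [div_le_iff₀ hf] at this
    linarith
  have h3 : (d : ℝ) / 2 ≤ ((d + 1 - r : ℕ) : ℝ) := by
    rw [Nat.cast_sub (by omega)]
    push_cast
    have : (2 : ℝ) * r ≤ d := by exact_mod_cast hd
    linarith
  have h4 : ((d : ℝ) / 2) ^ r ≤ ((d + 1 - r : ℕ) : ℝ) ^ r := pow_le_pow_left₀ (by positivity) h3 r
  rw [div_le_iff₀ hc0]
  have hf : (0 : ℝ) < (r.factorial : ℝ) := by exact_mod_cast Nat.factorial_pos r
  have h5 : (2 * (s : ℝ) / d) ^ r * ((d : ℝ) / 2) ^ r = (s : ℝ) ^ r := by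
    rw [← mul_pow]
    congr 1
    field_simp
  have h6 : (s : ℝ) ^ r ≤ (2 * (s : ℝ) / d) ^ r * ((r.factorial : ℝ) * (d.choose r : ℝ)) := by
    rw [← h5]
    exact mul_le_mul_of_nonneg_left (h4.trans h2) (by positivity)
  calc (s.choose r : ℝ) ≤ (s : ℝ) ^ r / (r.factorial : ℝ) := h1
    _ ≤ ((2 * (s : ℝ) / d) ^ r * ((r.factorial : ℝ) * (d.choose r : ℝ))) / (r.factorial : ℝ) :=
        div_le_div_of_nonneg_right h6 hf.le
    _ = _ := by field_simp

/-- The bipartite part of the argument. -/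
theorem bip (C ε : ℝ) (hC : 1 ≤ C) (hε : 0 < ε) :
    ∃ M₀ : ℝ, ∀ M : ℝ, M₀ ≤ M → ∀ (A B : Type) [Fintype A] [DecidableEq A] [Fintype B]
      [DecidableEq B] (Nb : B → Finset A) (μ : ℝ), (Fintype.card A : ℝ) ≤ C * M →
      (Fintype.card B : ℝ) ≤ C * M ^ 2 → (∀ b, M / C ≤ ((Nb b).card : ℝ)) → M / C ≤ μ →
      μ ^ 3 ≤ ∑ b, (((Nb b).card : ℝ) - 1) →
      ∃ S : B → Finset A, (∀ b, S b ⊆ Nb b) ∧ (∀ b b', b ≠ b' → (S b ∩ S b').card ≤ 1) ∧
        3 / 2 * μ ^ 2 - ε * M ^ 2 ≤ ∑ b, ((S b).card : ℝ) := by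
  have hC0 : 0 < C := by linarith
  set s0 : ℕ := ⌈3 * C ^ 2⌉₊ with hs0
  have hs0C : 3 * C ^ 2 ≤ s0 := Nat.le_ceil _
  have hs01 : 1 ≤ s0 := by
    rw [hs0]
    exact Nat.one_le_ceil_iff.2 (by positivity)
  have hs0pos : (0 : ℝ) < s0 := by exact_mod_cast hs01
  obtain ⟨κ, hκ0, hnib⟩ := nibble (1 + s0 ^ 2) s0 (ε / (2 * C ^ 2)) hs0pos (by positivity)
  set M₀ : ℝ := max (max (C * s0) (6 * C)) (max ((2 * s0 * C) ^ 2 / κ)
    (C * (2 * s0 * C) ^ 3 / κ)) with hM₀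
  refine ⟨M₀, ?_⟩
  intro M hM A B _ _ _ _ Nb μ hA hB hNb hμM hμ
  have hM1 : C * s0 ≤ M := (le_max_left _ _).trans ((le_max_left _ _).trans hM)
  have hM2 : 6 * C ≤ M := (le_max_right _ _).trans ((le_max_left _ _).trans hM)
  have hM3 : (2 * s0 * C) ^ 2 / κ ≤ M := (le_max_left _ _).trans ((le_max_right _ _).trans hM)
  have hM4 : C * (2 * s0 * C) ^ 3 / κ ≤ M :=
    (le_max_right _ _).trans ((le_max_right _ _).trans hM)
  have hMpos : 0 < M := by linarith
  have hM1' : 1 ≤ M := by linarith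
  have hdR : ∀ b, (6 : ℝ) ≤ ((Nb b).card : ℝ) := by
    intro b
    refine le_trans ?_ (hNb b)
    rw [le_div_iff₀ hC0]
    exact hM2
  have hd6 : ∀ b, 6 ≤ (Nb b).card := fun b => by exact_mod_cast hdR b
  have hds : ∀ b, s0 ≤ (Nb b).card := by
    intro b
    have : (s0 : ℝ) ≤ ((Nb b).card : ℝ) := by
      refine le_trans ?_ (hNb b)
      rw [le_div_iff₀ hC0, mul_comm]
      exact hM1
    exact_mod_cast this
  have hratio : ∀ b, 2 * (s0 : ℝ) / ((Nb b).card : ℝ) ≤ 2 * s0 * C / M := by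
    intro b
    have h6 := hdR b
    rw [div_le_div_iff₀ (by linarith) hMpos]
    have h7 := hNb b
    rw [div_le_iff₀ hC0] at h7
    have h8 := mul_le_mul_of_nonneg_left h7 (show (0 : ℝ) ≤ 2 * s0 by positivity)
    linarith
  have hκ2 : ∀ b, (s0.choose 2 : ℝ) / ((Nb b).card.choose 2) ≤ κ := by
    intro b
    refine (choose_ratio_le 2 s0 _ (by have := hd6 b; omega)).trans ?_
    refine (pow_le_pow_left₀ (by positivity) (hratio b) 2).trans ?_
    rw [div_pow, div_le_iff₀ (by positivity)]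
    rw [div_le_iff₀ hκ0] at hM3
    nlinarith
  have hκ3 : ∑ b, (s0.choose 3 : ℝ) / ((Nb b).card.choose 3) ≤ κ := by
    calc ∑ b, (s0.choose 3 : ℝ) / ((Nb b).card.choose 3)
        ≤ ∑ b : B, (2 * s0 * C / M) ^ 3 := by
          refine sum_le_sum fun b _ => ?_
          refine (choose_ratio_le 3 s0 _ (by have := hd6 b; omega)).trans ?_
          exact pow_le_pow_left₀ (by positivity) (hratio b) 3
      _ = (Fintype.card B : ℝ) * (2 * s0 * C / M) ^ 3 := by
          rw [sum_const, card_univ, nsmul_eq_mul]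
      _ ≤ (C * M ^ 2) * (2 * s0 * C / M) ^ 3 := mul_le_mul_of_nonneg_right hB (by positivity)
      _ = C * (2 * s0 * C) ^ 3 / M := by field_simp
      _ ≤ κ := by
          rw [div_le_iff₀ hMpos]
          rw [div_le_iff₀ hκ0] at hM4
          linarith
  have hμ0 : 0 < μ := lt_of_lt_of_le (by positivity) hμM
  have hdD : ∀ b, ((Nb b).card : ℝ) ≤ C * M := by
    intro b
    refine le_trans ?_ hA
    exact_mod_cast card_le_univ _
  obtain ⟨x, hx, hxv⟩ := exists_frac hs01 hds hκ0.le hκ2 hκ3 (3 / 2 * μ ^ 2)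
    (dual_value (fun b => (Nb b).card) (fun b => by have := hd6 b; omega)
      hdD (by positivity) hs01 hμ0 hμ (by
        have h1 : M / C * (3 * C ^ 2) ≤ μ * s0 :=
          mul_le_mul hμM hs0C (by positivity) hμ0.le
        have h2 : M / C * (3 * C ^ 2) = 3 * (C * M) := by field_simp
        linarith))
  obtain ⟨Mt, hMtx, hMtd, hMt⟩ := hnib (Jt Nb s0) (B ⊕ Pr A) (vsJ Nb s0) x (ww Nb s0) hx
    (fun j => by unfold ww; positivity)
    (fun j => by
      unfold ww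
      exact_mod_cast (mem_filter.1 j.2.2).2)
  classical
  -- the chosen sets
  set S : B → Finset A := fun b => if h : ∃ j ∈ Mt, j.1 = b then (Classical.choose h).2.1 else ∅
    with hS
  have hinj : ∀ j ∈ Mt, ∀ j' ∈ Mt, j.1 = j'.1 → j = j' := by
    intro j hj j' hj' hjj
    by_contra hne
    have := hMtd j hj j' hj' hne
    rw [Finset.disjoint_left] at this
    exact this (inl_mem_vsJ.2 rfl) (inl_mem_vsJ.2 hjj.symm)
  have hSj : ∀ j ∈ Mt, S j.1 = j.2.1 := by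
    intro j hj
    have h : ∃ j' ∈ Mt, j'.1 = j.1 := ⟨j, hj, rfl⟩
    rw [hS]
    simp only
    rw [dif_pos h]
    have h1 := Classical.choose_spec h
    rw [hinj _ h1.1 j hj h1.2]
  have hSe : ∀ b, (∀ j ∈ Mt, j.1 ≠ b) → S b = ∅ := by
    intro b hb
    rw [hS]
    simp only
    rw [dif_neg]
    rintro ⟨j, hj, hjb⟩
    exact hb j hj hjb
  have hcase : ∀ b, (∃ j ∈ Mt, j.1 = b) ∨ S b = ∅ := by
    intro b
    by_cases h : ∃ j ∈ Mt, j.1 = b
    · exact Or.inl h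
    · push Not at h
      exact Or.inr (hSe b h)
  refine ⟨S, ?_, ?_, ?_⟩
  · intro b
    rcases hcase b with ⟨j, hj, rfl⟩ | h
    · rw [hSj j hj]
      exact mem_powerset.1 (mem_filter.1 j.2.2).1
    · rw [h]; exact empty_subset _
  · intro b b' hbb
    rcases hcase b with ⟨j, hj, rfl⟩ | h
    · rcases hcase b' with ⟨j', hj', rfl⟩ | h'
      · rw [hSj j hj, hSj j' hj']
        by_contra hcon
        push Not at hcon
        obtain ⟨e, he, he2⟩ := exists_subset_card_eq (show 2 ≤ (j.2.1 ∩ j'.2.1).card from hcon)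
        have hne : j ≠ j' := fun h => hbb (by rw [h])
        have := hMtd j hj j' hj' hne
        rw [Finset.disjoint_left] at this
        exact this (inr_mem_vsJ (e := ⟨e, he2⟩).2 (he.trans inter_subset_left))
          (inr_mem_vsJ (e := ⟨e, he2⟩).2 (he.trans inter_subset_right))
      · rw [h']; simp
    · rw [h]; simp
  · have h1 : ∑ j ∈ Mt, ww Nb s0 j ≤ ∑ b, ((S b).card : ℝ) := by
      have h2 : ∑ j ∈ Mt, ww Nb s0 j = ∑ b ∈ Mt.image (fun j => j.1), ((S b).card : ℝ) := by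
        rw [sum_image (fun j hj j' hj' h => hinj j hj j' hj' h)]
        refine sum_congr rfl fun j hj => ?_
        rw [hSj j hj]
        rfl
      rw [h2]
      exact sum_le_sum_of_subset_of_nonneg (subset_univ _) fun b _ _ => by positivity
    have h3 : (Fintype.card (B ⊕ Pr A) : ℝ) ≤ 2 * C ^ 2 * M ^ 2 := by
      rw [Fintype.card_sum, Fintype.card_finset_len]
      push_cast
      have h4 : ((Fintype.card A).choose 2 : ℝ) ≤ (Fintype.card A : ℝ) ^ 2 := by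
        exact_mod_cast Nat.choose_le_pow (Fintype.card A) 2
      have h5 : (Fintype.card A : ℝ) ^ 2 ≤ (C * M) ^ 2 := pow_le_pow_left₀ (by positivity) hA 2
      have h6 : C * M ^ 2 ≤ C ^ 2 * M ^ 2 := by
        refine mul_le_mul_of_nonneg_right ?_ (by positivity)
        nlinarith
      nlinarith
    have h7 : ε / (2 * C ^ 2) * (Fintype.card (B ⊕ Pr A) : ℝ) ≤ ε * M ^ 2 := by
      calc ε / (2 * C ^ 2) * (Fintype.card (B ⊕ Pr A) : ℝ)
          ≤ ε / (2 * C ^ 2) * (2 * C ^ 2 * M ^ 2) :=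
            mul_le_mul_of_nonneg_left h3 (by positivity)
        _ = ε * M ^ 2 := by field_simp
    linarith

end Pool.Agent.MP9a04dc
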