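import Pool.Agent.MP9a04dc.Nibble
import Pool.Agent.MP9a04dc.Duality

/-!
# The fractional problem for the bipartite part
-/

set_option autoImplicit false
set_option linter.unusedSectionVars false
set_option linter.unusedVariables false

namespace Pool.Agent.MP9a04dc

open Finset Matrix

section Count

variable {A : Type*} [DecidableEq A]

lemma card_superset (N T : Finset A) (s : ℕ) (hTN : T ⊆ N) (hs : T.card ≤ s) :
    ((N.powersetCard s).filter (T ⊆ ·)).card = (N.card - T.card).choose (s - T.card) := by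
  rw [← card_sdiff_of_subset hTN, ← card_powersetCard]
  refine card_bij' (fun S _ => S \ T) (fun S _ => S ∪ T) ?_ ?_ ?_ ?_
  · intro S hS
    rw [mem_filter, mem_powersetCard] at hS
    rw [mem_powersetCard]
    refine ⟨sdiff_subset_sdiff hS.1.1 le_rfl, ?_⟩
    rw [card_sdiff_of_subset hS.2, hS.1.2]
  · intro S hS
    rw [mem_powersetCard] at hS
    rw [mem_filter, mem_powersetCard]
    have hd : Disjoint S T := by
      rw [Finset.disjoint_left]
      intro a ha
      exact (mem_sdiff.1 (hS.1 ha)).2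
    refine ⟨⟨union_subset (hS.1.trans sdiff_subset) hTN, ?_⟩, subset_union_right⟩
    rw [card_union_of_disjoint hd, hS.2]
    omega
  · intro S hS
    rw [mem_filter] at hS
    exact sdiff_union_of_subset hS.2
  · intro S hS
    rw [mem_powersetCard] at hS
    have hd : Disjoint S T := by
      rw [Finset.disjoint_left]
      intro a ha
      exact (mem_sdiff.1 (hS.1 ha)).2
    exact union_sdiff_cancel_right hd

lemma card_superset_le (N T : Finset A) (s : ℕ) (hsN : s ≤ N.card) :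
    (((N.powersetCard s).filter (T ⊆ ·)).card : ℝ) / (N.card.choose s)
      ≤ (s.choose T.card : ℝ) / (N.card.choose T.card) := by
  have hpos : (0 : ℝ) < (N.card.choose s : ℝ) := by exact_mod_cast Nat.choose_pos hsN
  by_cases h : T ⊆ N ∧ T.card ≤ s
  · have hT : T.card ≤ N.card := card_le_card h.1
    have hpos2 : (0 : ℝ) < (N.card.choose T.card : ℝ) := by exact_mod_cast Nat.choose_pos hT
    rw [card_superset N T s h.1 h.2, div_le_div_iff₀ hpos hpos2]
    have := Nat.choose_mul (n := N.card) (k := s) (s := T.card) h.2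
    have h2 : ((N.card.choose s * s.choose T.card : ℕ) : ℝ)
        = ((N.card.choose T.card * (N.card - T.card).choose (s - T.card) : ℕ) : ℝ) := by
      exact_mod_cast this
    push_cast at h2
    nlinarith
  · have : (N.powersetCard s).filter (T ⊆ ·) = ∅ := by
      rw [filter_eq_empty_iff]
      intro S hS hTS
      rw [mem_powersetCard] at hS
      exact h ⟨hTS.trans hS.1, by rw [← hS.2]; exact card_le_card hTS⟩
    rw [this]
    simp only [card_empty, Nat.cast_zero, zero_div]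
    positivity

end Count

section Frac

variable {A B : Type} [Fintype A] [DecidableEq A] [Fintype B] [DecidableEq B]

/-- the pairs of elements of `A` -/
abbrev Pr (A : Type) : Type := {e : Finset A // e.card = 2}

/-- admissible sets at `b` -/
def Sset (Nb : B → Finset A) (s0 : ℕ) (b : B) : Finset (Finset A) :=
  (Nb b).powerset.filter fun S => S.card ≤ s0

/-- hyperedges -/
abbrev Jt (Nb : B → Finset A) (s0 : ℕ) : Type := (b : B) × ↥(Sset Nb s0 b)

variable {Nb : B → Finset A} {s0 : ℕ}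

/-- vertex sets of the hyperedges -/
def vsJ (Nb : B → Finset A) (s0 : ℕ) (j : Jt Nb s0) : Finset (B ⊕ Pr A) :=
  ({j.1} : Finset B).disjSum (univ.filter fun e : Pr A => e.1 ⊆ j.2.1)

lemma inl_mem_vsJ {j : Jt Nb s0} {b : B} : Sum.inl b ∈ vsJ Nb s0 j ↔ j.1 = b := by
  simp [vsJ, eq_comm]

lemma inr_mem_vsJ {j : Jt Nb s0} {e : Pr A} : Sum.inr e ∈ vsJ Nb s0 j ↔ e.1 ⊆ j.2.1 := by
  simp [vsJ]

lemma card_vsJ (j : Jt Nb s0) : (vsJ Nb s0 j).card ≤ 1 + s0 ^ 2 := by
  unfold vsJ
  rw [card_disjSum, card_singleton]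
  have h1 : (univ.filter fun e : Pr A => e.1 ⊆ j.2.1).card ≤ (j.2.1.powersetCard 2).card := by
    refine card_le_card_of_injOn (fun e => e.1) ?_ ?_
    · intro e he
      have he' := (mem_filter.1 (mem_coe.1 he)).2
      exact mem_coe.2 (mem_powersetCard.2 ⟨he', e.2⟩)
    · intro e _ f _ h
      exact Subtype.ext h
  have h2 : (j.2.1.powersetCard 2).card ≤ s0 ^ 2 := by
    rw [card_powersetCard]
    have hc : j.2.1.card ≤ s0 := (mem_filter.1 j.2.2).2
    calc j.2.1.card.choose 2 ≤ s0.choose 2 := Nat.choose_le_choose 2 hc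
      _ ≤ s0 ^ 2 := Nat.choose_le_pow s0 2
  omega

/-- uniform distribution on the subsets of size `s b` -/
noncomputable def ux (Nb : B → Finset A) (s0 : ℕ) (s : B → ℕ) (j : Jt Nb s0) : ℝ :=
  if j.2.1.card = s j.1 then 1 / ((Nb j.1).card.choose (s j.1) : ℝ) else 0

lemma ux_nonneg (s : B → ℕ) (j : Jt Nb s0) : 0 ≤ ux Nb s0 s j := by
  unfold ux; split_ifs <;> positivity

lemma sum_ux_superset (s : B → ℕ) (b : B) (hs : s b ≤ s0) (T : Finset A) :
    ∑ S : ↥(Sset Nb s0 b), (if T ⊆ S.1 then ux Nb s0 s ⟨b, S⟩ else 0)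
      = (((Nb b).powersetCard (s b)).filter (T ⊆ ·)).card / ((Nb b).card.choose (s b) : ℝ) := by
  have h1 : ∑ S : ↥(Sset Nb s0 b), (if T ⊆ S.1 then ux Nb s0 s ⟨b, S⟩ else 0)
      = ∑ S ∈ Sset Nb s0 b, (if T ⊆ S then (if S.card = s b then
          1 / ((Nb b).card.choose (s b) : ℝ) else 0) else 0) := by
    rw [← Finset.sum_coe_sort (Sset Nb s0 b)]
    rfl
  rw [h1]
  have h2 : ((Nb b).powersetCard (s b)).filter (T ⊆ ·)
      = (Sset Nb s0 b).filter (fun S => T ⊆ S ∧ S.card = s b) := by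
    ext S
    simp only [mem_filter, mem_powersetCard, Sset, mem_powerset]
    constructor
    · rintro ⟨⟨h3, h4⟩, h5⟩
      exact ⟨⟨h3, by omega⟩, h5, h4⟩
    · rintro ⟨⟨h3, h4⟩, h5, h6⟩
      exact ⟨⟨h3, h6⟩, h5⟩
  rw [h2, div_eq_mul_one_div (((Sset Nb s0 b).filter
    (fun S => T ⊆ S ∧ S.card = s b)).card : ℝ), card_filter]
  push_cast
  rw [sum_mul]
  refine sum_congr rfl fun S _ => ?_
  by_cases h3 : T ⊆ S <;> by_cases h4 : S.card = s b <;> simp [h3, h4]

lemma sum_ux_superset_le (s : B → ℕ) (b : B) (hs : s b ≤ s0) (hd : s0 ≤ (Nb b).card)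
    (T : Finset A) :
    ∑ S : ↥(Sset Nb s0 b), (if T ⊆ S.1 then ux Nb s0 s ⟨b, S⟩ else 0)
      ≤ ((s b).choose T.card : ℝ) / ((Nb b).card.choose T.card) := by
  rw [sum_ux_superset s b hs T]
  exact card_superset_le _ _ _ (hs.trans hd)

lemma sum_ux (s : B → ℕ) (b : B) (hs : s b ≤ s0) (hd : s0 ≤ (Nb b).card) :
    ∑ S : ↥(Sset Nb s0 b), ux Nb s0 s ⟨b, S⟩ = 1 := by
  have h := sum_ux_superset (Nb := Nb) s b hs ∅
  simp only [empty_subset, if_true, filter_true, card_powersetCard] at h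
  rw [h, div_self]
  have : 0 < (Nb b).card.choose (s b) := Nat.choose_pos (hs.trans hd)
  exact_mod_cast this.ne'

lemma codeg_comm {E V : Type*} [Fintype E] [DecidableEq V] (vs : E → Finset V) (x : E → ℝ)
    (u v : V) : codeg vs x u v = codeg vs x v u := by
  unfold codeg
  exact sum_congr rfl fun e _ => by simp [and_comm]

lemma codeg_ux_le (s : B → ℕ) (hs : ∀ b, s b ≤ s0) (hd : ∀ b, s0 ≤ (Nb b).card) {κ : ℝ}
    (hκ : 0 ≤ κ) (hκ2 : ∀ b, (s0.choose 2 : ℝ) / ((Nb b).card.choose 2) ≤ κ)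
    (hκ3 : ∑ b, (s0.choose 3 : ℝ) / ((Nb b).card.choose 3) ≤ κ) (u v : B ⊕ Pr A) (huv : u ≠ v) :
    codeg (vsJ Nb s0) (ux Nb s0 s) u v ≤ κ := by
  have key : ∀ b e, codeg (vsJ Nb s0) (ux Nb s0 s) (Sum.inl b) (Sum.inr e) ≤ κ := by
    intro b e
    unfold codeg
    rw [Fintype.sum_sigma, Finset.sum_eq_single b]
    · simp only [inl_mem_vsJ, inr_mem_vsJ, true_and]
      refine (sum_ux_superset_le s b (hs b) (hd b) e.1).trans ?_
      rw [e.2]
      refine le_trans ?_ (hκ2 b)
      refine div_le_div_of_nonneg_right ?_ (by positivity)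
      exact_mod_cast Nat.choose_le_choose 2 (hs b)
    · intro b' _ hb'
      refine sum_eq_zero fun S _ => ?_
      rw [if_neg]
      rw [inl_mem_vsJ]
      exact fun h => hb' h.1
    · simp
  rcases u with b | e <;> rcases v with b' | e'
  · unfold codeg
    rw [sum_eq_zero]
    · exact hκ
    · intro j _
      rw [if_neg]
      rw [inl_mem_vsJ, inl_mem_vsJ]
      rintro ⟨h1, h2⟩
      exact huv (by rw [← h1, h2])
  · exact key b e'
  · rw [codeg_comm]; exact key b' e
  · have hne : e.1 ≠ e'.1 := fun h => huv (by rw [Subtype.ext h])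
    have hcard : 3 ≤ (e.1 ∪ e'.1).card := by
      by_contra hcon
      have h1 : e.1 = e.1 ∪ e'.1 := eq_of_subset_of_card_le subset_union_left (by rw [e.2]; omega)
      have h2 : e'.1 = e.1 ∪ e'.1 := eq_of_subset_of_card_le subset_union_right (by rw [e'.2]; omega)
      exact hne (h1.trans h2.symm)
    obtain ⟨T, hT, hT3⟩ := exists_subset_card_eq hcard
    unfold codeg
    rw [Fintype.sum_sigma]
    refine le_trans ?_ hκ3
    refine sum_le_sum fun b _ => ?_
    have h1 : ∀ S : ↥(Sset Nb s0 b),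
        (if Sum.inr e ∈ vsJ Nb s0 ⟨b, S⟩ ∧ Sum.inr e' ∈ vsJ Nb s0 ⟨b, S⟩ then
          ux Nb s0 s ⟨b, S⟩ else 0) ≤ (if T ⊆ S.1 then ux Nb s0 s ⟨b, S⟩ else 0) := by
      intro S
      rw [if_congr (and_congr inr_mem_vsJ inr_mem_vsJ) rfl rfl]
      by_cases h2 : e.1 ⊆ S.1 ∧ e'.1 ⊆ S.1
      · rw [if_pos h2, if_pos (hT.trans (union_subset h2.1 h2.2))]
      · rw [if_neg h2]
        split_ifs
        · exact ux_nonneg s _
        · exact le_rfl
    refine (sum_le_sum fun S _ => h1 S).trans ?_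
    refine (sum_ux_superset_le s b (hs b) (hd b) T).trans ?_
    rw [hT3]
    refine div_le_div_of_nonneg_right ?_ (by positivity)
    exact_mod_cast Nat.choose_le_choose 3 (hs b)

/-- the compact convex set of candidate fractional solutions -/
def KK (Nb : B → Finset A) (s0 : ℕ) (κ : ℝ) : Set (Jt Nb s0 → ℝ) :=
  {x | (∀ j, 0 ≤ x j) ∧ (∀ b, ∑ S : ↥(Sset Nb s0 b), x ⟨b, S⟩ = 1) ∧
    ∀ u v, u ≠ v → codeg (vsJ Nb s0) x u v ≤ κ}

lemma continuous_codeg {E V : Type*} [Fintype E] [DecidableEq V] (vs : E → Finset V) (u v : V) :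
    Continuous fun x : E → ℝ => codeg vs x u v := by
  unfold codeg
  refine continuous_finsetSum _ fun e _ => ?_
  split_ifs
  · exact continuous_apply e
  · exact continuous_const

lemma isCompact_KK (κ : ℝ) : IsCompact (KK Nb s0 κ) := by
  refine IsCompact.of_isClosed_subset
    (isCompact_univ_pi fun _ : Jt Nb s0 => isCompact_Icc (a := (0 : ℝ)) (b := 1)) ?_ ?_
  · have h1 : IsClosed {x : Jt Nb s0 → ℝ | ∀ j, 0 ≤ x j} := by
      rw [Set.ofPred_forall]
      exact isClosed_iInter fun j => isClosed_le continuous_const (continuous_apply j)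
    have h2 : IsClosed {x : Jt Nb s0 → ℝ | ∀ b, ∑ S : ↥(Sset Nb s0 b), x ⟨b, S⟩ = 1} := by
      rw [Set.ofPred_forall]
      exact isClosed_iInter fun b => isClosed_eq
        (continuous_finsetSum _ fun S _ => continuous_apply _) continuous_const
    have h3 : IsClosed {x : Jt Nb s0 → ℝ |
        ∀ u v, u ≠ v → codeg (vsJ Nb s0) x u v ≤ κ} := by
      simp only [Set.ofPred_forall]
      exact isClosed_iInter fun u => isClosed_iInter fun v => isClosed_iInter fun _ =>
        isClosed_le (continuous_codeg _ u v) continuous_const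
    exact h1.inter (h2.inter h3)
  · intro x hx j _
    refine ⟨hx.1 j, ?_⟩
    have h1 := hx.2.1 j.1
    have h2 := single_le_sum (f := fun S : ↥(Sset Nb s0 j.1) => x ⟨j.1, S⟩)
      (fun S _ => hx.1 _) (mem_univ j.2)
    linarith

lemma codeg_combo {E V : Type*} [Fintype E] [DecidableEq V] (vs : E → Finset V) (x y : E → ℝ)
    (a b : ℝ) (u v : V) :
    codeg vs (a • x + b • y) u v = a * codeg vs x u v + b * codeg vs y u v := by
  unfold codeg
  rw [mul_sum, mul_sum, ← sum_add_distrib]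
  refine sum_congr rfl fun e _ => ?_
  split_ifs <;> simp

lemma convex_KK (κ : ℝ) : Convex ℝ (KK Nb s0 κ) := by
  intro x hx y hy a b ha hb hab
  refine ⟨fun j => ?_, fun i => ?_, fun u v huv => ?_⟩
  · simp only [Pi.add_apply, Pi.smul_apply, smul_eq_mul]
    exact add_nonneg (mul_nonneg ha (hx.1 j)) (mul_nonneg hb (hy.1 j))
  · simp only [Pi.add_apply, Pi.smul_apply, smul_eq_mul]
    rw [sum_add_distrib, ← mul_sum, ← mul_sum, hx.2.1 i, hy.2.1 i]
    linarith
  · rw [codeg_combo]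
    have h1 := mul_le_mul_of_nonneg_left (hx.2.2 u v huv) ha
    have h2 := mul_le_mul_of_nonneg_left (hy.2.2 u v huv) hb
    have h3 : a * κ + b * κ = κ := by rw [← add_mul, hab, one_mul]
    linarith

lemma ux_mem_KK (s : B → ℕ) (hs : ∀ b, s b ≤ s0) (hd : ∀ b, s0 ≤ (Nb b).card) {κ : ℝ}
    (hκ : 0 ≤ κ) (hκ2 : ∀ b, (s0.choose 2 : ℝ) / ((Nb b).card.choose 2) ≤ κ)
    (hκ3 : ∑ b, (s0.choose 3 : ℝ) / ((Nb b).card.choose 3) ≤ κ) :
    ux Nb s0 s ∈ KK Nb s0 κ :=
  ⟨ux_nonneg s, fun b => sum_ux s b (hs b) (hd b), codeg_ux_le s hs hd hκ hκ2 hκ3⟩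

/-- incidence vector of a pair -/
def gg (Nb : B → Finset A) (s0 : ℕ) (e : Pr A) (j : Jt Nb s0) : ℝ :=
  if e.1 ⊆ j.2.1 then 1 else 0

/-- size vector -/
def ww (Nb : B → Finset A) (s0 : ℕ) (j : Jt Nb s0) : ℝ := j.2.1.card

/-- **Fractional solution.** -/
lemma exists_frac (hs0 : 1 ≤ s0) (hd : ∀ b, s0 ≤ (Nb b).card) {κ : ℝ}
    (hκ : 0 ≤ κ) (hκ2 : ∀ b, (s0.choose 2 : ℝ) / ((Nb b).card.choose 2) ≤ κ)
    (hκ3 : ∑ b, (s0.choose 3 : ℝ) / ((Nb b).card.choose 3) ≤ κ) (v : ℝ)
    (hv : ∀ Z : ℝ, 0 ≤ Z → ∃ s : B → ℕ, (∀ b, s b ≤ s0) ∧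
      v ≤ ∑ b, ((s b : ℝ) - ((s b).choose 2 : ℝ) / ((Nb b).card.choose 2) * Z) + Z) :
    ∃ x : Jt Nb s0 → ℝ, Good (vsJ Nb s0) x κ (1 + s0 ^ 2) ∧ v ≤ ∑ j, ww Nb s0 j * x j := by
  obtain ⟨x, hxK, hx1, hxv⟩ := lp_duality (KK Nb s0 κ) (isCompact_KK κ) (convex_KK κ)
    (gg Nb s0) (fun _ => 1) (ww Nb s0) v (ux Nb s0 fun _ => 1)
    (ux_mem_KK _ (fun _ => hs0) hd hκ hκ2 hκ3)
    (by
      intro e
      have : gg Nb s0 e ⬝ᵥ (ux Nb s0 fun _ => 1) = 0 := by
        unfold dotProduct gg ux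
        refine sum_eq_zero fun j _ => ?_
        by_cases h1 : e.1 ⊆ j.2.1
        · by_cases h2 : j.2.1.card = 1
          · have := card_le_card h1
            rw [e.2, h2] at this
            omega
          · rw [if_neg h2, mul_zero]
        · rw [if_neg h1, zero_mul]
      rw [this]
      exact zero_le_one)
    (by
      intro z hz
      obtain ⟨s, hs, hsv⟩ := hv (∑ e, z e) (sum_nonneg fun e _ => hz e)
      refine ⟨ux Nb s0 s, ux_mem_KK s hs hd hκ hκ2 hκ3, hsv.trans ?_⟩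
      have h1 : ww Nb s0 ⬝ᵥ ux Nb s0 s = ∑ b, (s b : ℝ) := by
        unfold dotProduct
        rw [Fintype.sum_sigma]
        refine sum_congr rfl fun b _ => ?_
        have h2 : ∀ S : ↥(Sset Nb s0 b), ww Nb s0 ⟨b, S⟩ * ux Nb s0 s ⟨b, S⟩
            = (s b : ℝ) * ux Nb s0 s ⟨b, S⟩ := by
          intro S
          unfold ww ux
          by_cases h3 : S.1.card = s b
          · simp only [h3]
          · simp only [h3, if_false, mul_zero]
        rw [sum_congr rfl fun S _ => h2 S, ← mul_sum, sum_ux s b (hs b) (hd b), mul_one]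
      have h3 : ∀ e : Pr A, gg Nb s0 e ⬝ᵥ ux Nb s0 s
          ≤ ∑ b, ((s b).choose 2 : ℝ) / ((Nb b).card.choose 2) := by
        intro e
        unfold dotProduct
        rw [Fintype.sum_sigma]
        refine sum_le_sum fun b _ => ?_
        have h4 := sum_ux_superset_le (Nb := Nb) s b (hs b) (hd b) e.1
        rw [e.2] at h4
        refine le_trans (le_of_eq ?_) h4
        refine sum_congr rfl fun S _ => ?_
        unfold gg
        by_cases h5 : e.1 ⊆ S.1
        · simp only [h5, if_true, one_mul]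
        · simp only [h5, if_false, zero_mul]
      have h4 : ∑ e, z e * (gg Nb s0 e ⬝ᵥ ux Nb s0 s - 1)
          ≤ (∑ b, ((s b).choose 2 : ℝ) / ((Nb b).card.choose 2)) * (∑ e, z e) - ∑ e, z e := by
        have : ∀ e, z e * (gg Nb s0 e ⬝ᵥ ux Nb s0 s - 1)
            ≤ (∑ b, ((s b).choose 2 : ℝ) / ((Nb b).card.choose 2)) * z e - z e := by
          intro e
          have := mul_le_mul_of_nonneg_left (h3 e) (hz e)
          linarith
        refine (sum_le_sum fun e _ => this e).trans (le_of_eq ?_)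
        rw [sum_sub_distrib, ← mul_sum]
      rw [h1, sum_sub_distrib, ← sum_mul]
      linarith)
  refine ⟨x, ⟨hxK.1, ?_, hxK.2.2, card_vsJ, fun j => ⟨Sum.inl j.1, inl_mem_vsJ.2 rfl⟩⟩, ?_⟩
  · rintro (b | e)
    · unfold deg
      rw [Fintype.sum_sigma, Finset.sum_eq_single b]
      · simp only [inl_mem_vsJ, if_true]
        exact (hxK.2.1 b).le
      · intro b' _ hb'
        refine sum_eq_zero fun S _ => ?_
        rw [if_neg]
        rw [inl_mem_vsJ]
        exact hb'
      · simp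
    · refine le_trans (le_of_eq ?_) (hx1 e)
      unfold deg dotProduct gg
      refine sum_congr rfl fun j _ => ?_
      rw [if_congr inr_mem_vsJ rfl rfl]
      split_ifs <;> simp
  · exact hxv

end Frac

end Pool.Agent.MP9a04dc
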