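import Mathlib

/-!
# Large `C₄`-free subgraphs of graphs of small maximum degree

Random map to the polarity graph `y + b = a x` over `ZMod p`.
-/

set_option autoImplicit false
set_option linter.unusedSectionVars false
set_option linter.unusedVariables false

namespace Pool.Agent.MP9a04dc

open Finset

/-- no four-cycle -/
def NoC4 {V : Type*} (H : SimpleGraph V) : Prop :=
  ∀ a b c d, a ≠ c → b ≠ d → H.Adj a b → H.Adj b c → H.Adj c d → H.Adj d a → False

section Sparse

variable {V : Type*} [Fintype V] [DecidableEq V]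

variable {p : ℕ}

/-- The polarity relation. -/
def rel (P Q : ZMod p × ZMod p) : Prop := P.2 + Q.2 = P.1 * Q.1

lemma rel_symm {P Q : ZMod p × ZMod p} (h : rel P Q) : rel Q P := by
  unfold rel at *
  rw [add_comm, h, mul_comm]

lemma rel_comm {P Q : ZMod p × ZMod p} : rel P Q ↔ rel Q P := ⟨rel_symm, rel_symm⟩

lemma rel_noC4 [Fact p.Prime] {P P' Q Q' : ZMod p × ZMod p} (hP : P ≠ P') (hQ : Q ≠ Q')
    (h1 : rel P Q) (h2 : rel P Q') (h3 : rel P' Q) (h4 : rel P' Q') : False := by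
  obtain ⟨x, y⟩ := P
  obtain ⟨x', y'⟩ := P'
  obtain ⟨a, b⟩ := Q
  obtain ⟨a', b'⟩ := Q'
  unfold rel at *
  simp only at h1 h2 h3 h4
  have h5 : (x - x') * (a - a') = 0 := by linear_combination h2 + h3 - h1 - h4
  rcases mul_eq_zero.1 h5 with h6 | h6
  · have hx : x = x' := sub_eq_zero.1 h6
    subst hx
    apply hP
    have : y = y' := by linear_combination h1 - h3
    rw [this]
  · have ha : a = a' := sub_eq_zero.1 h6
    subst ha
    apply hQ
    have : b = b' := by linear_combination h1 - h2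
    rw [this]

instance (P Q : ZMod p × ZMod p) : Decidable (rel P Q) := by unfold rel; infer_instance

/-- the random subgraph -/
def rsub (G : SimpleGraph V) (χ : V → ZMod p × ZMod p) : SimpleGraph V where
  Adj u v := G.Adj u v ∧ rel (χ u) (χ v) ∧ (∀ w, G.Adj u w → w ≠ v → χ w ≠ χ v) ∧
    (∀ w, G.Adj v w → w ≠ u → χ w ≠ χ u)
  symm := ⟨fun u v h => ⟨h.1.symm, rel_symm h.2.1, h.2.2.2, h.2.2.1⟩⟩
  loopless := ⟨fun u h => h.1.ne rfl⟩

lemma rsub_noC4 [Fact p.Prime] (G : SimpleGraph V) (χ : V → ZMod p × ZMod p) :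
    NoC4 (rsub G χ) := by
  intro a b c d hac hbd hab hbc hcd hda
  -- `a, c` are neighbours of `b`; `b, d` are neighbours of `a`
  have h1 : χ c ≠ χ a := hab.2.2.2 c hbc.1 hac.symm
  have h2 : χ d ≠ χ b := hab.2.2.1 d hda.1.symm hbd.symm
  exact rel_noC4 h1.symm h2.symm hab.2.1 (rel_symm hda.2.1) (rel_symm hbc.2.1) hcd.2.1

variable [NeZero p]

lemma sum_shift {K : Type*} [Fintype K] [AddGroup K] (f : (V → K) → ℝ) (w : V) (t : K) :
    ∑ χ, f (χ + (Pi.single w t : V → K)) = ∑ χ, f χ :=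
  Equiv.sum_comp (Equiv.addRight (Pi.single w t : V → K)) f

lemma count_rel (u v : V) (huv : u ≠ v) :
    (p : ℝ) * ∑ χ : V → ZMod p × ZMod p, (if rel (χ u) (χ v) then (1 : ℝ) else 0)
      = Fintype.card (V → ZMod p × ZMod p) := by
  have h1 : ∀ t : ZMod p, ∑ χ : V → ZMod p × ZMod p, (if rel (χ u) (χ v) then (1 : ℝ) else 0)
      = ∑ χ : V → ZMod p × ZMod p, (if rel (χ u + (0, t)) (χ v) then (1 : ℝ) else 0) := by
    intro t
    rw [← sum_shift _ u ((0, t) : ZMod p × ZMod p)]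
    refine sum_congr rfl fun χ _ => ?_
    simp [huv.symm]
  have h2 : (p : ℝ) * ∑ χ : V → ZMod p × ZMod p, (if rel (χ u) (χ v) then (1 : ℝ) else 0)
      = ∑ t : ZMod p, ∑ χ : V → ZMod p × ZMod p,
          (if rel (χ u + (0, t)) (χ v) then (1 : ℝ) else 0) := by
    rw [← sum_congr rfl fun t _ => h1 t, sum_const, card_univ, ZMod.card, nsmul_eq_mul]
  rw [h2, sum_comm]
  have h3 : ∀ χ : V → ZMod p × ZMod p,
      ∑ t : ZMod p, (if rel (χ u + (0, t)) (χ v) then (1 : ℝ) else 0) = 1 := by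
    intro χ
    have h4 : ∀ t : ZMod p, rel (χ u + (0, t)) (χ v) ↔ t = (χ u).1 * (χ v).1 - (χ u).2 - (χ v).2 := by
      intro t
      unfold rel
      simp only [Prod.snd_add, Prod.fst_add, add_zero]
      constructor
      · intro h; linear_combination h
      · intro h; rw [h]; ring
    simp [h4]
  simp [h3]

lemma count_rel_eq (u v w : V) (huw : u ≠ w) (hvw : v ≠ w) :
    (p : ℝ) ^ 2 * ∑ χ : V → ZMod p × ZMod p,
      (if rel (χ u) (χ v) ∧ χ w = χ v then (1 : ℝ) else 0)
      = ∑ χ : V → ZMod p × ZMod p, (if rel (χ u) (χ v) then (1 : ℝ) else 0) := by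
  have h1 : ∀ t : ZMod p × ZMod p, ∑ χ : V → ZMod p × ZMod p,
      (if rel (χ u) (χ v) ∧ χ w = χ v then (1 : ℝ) else 0)
      = ∑ χ : V → ZMod p × ZMod p, (if rel (χ u) (χ v) ∧ χ w + t = χ v then (1 : ℝ) else 0) := by
    intro t
    rw [← sum_shift _ w t]
    refine sum_congr rfl fun χ _ => ?_
    simp [huw, hvw]
  have h2 : (p : ℝ) ^ 2 * ∑ χ : V → ZMod p × ZMod p,
      (if rel (χ u) (χ v) ∧ χ w = χ v then (1 : ℝ) else 0)
      = ∑ t : ZMod p × ZMod p, ∑ χ : V → ZMod p × ZMod p,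
          (if rel (χ u) (χ v) ∧ χ w + t = χ v then (1 : ℝ) else 0) := by
    rw [← sum_congr rfl fun t _ => h1 t, sum_const, card_univ, Fintype.card_prod, ZMod.card,
      nsmul_eq_mul]
    push_cast
    ring
  rw [h2, sum_comm]
  refine sum_congr rfl fun χ _ => ?_
  have h4 : ∀ t : ZMod p × ZMod p, (χ w + t = χ v) ↔ t = χ v - χ w := by
    intro t
    rw [eq_sub_iff_add_eq, add_comm]
  by_cases h : rel (χ u) (χ v)
  · simp [h, h4]
  · simp [h]

open scoped Classical in
lemma arc_count (G : SimpleGraph V) (D : ℝ)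
    (hdeg : ∀ v, ((univ.filter fun w => G.Adj v w).card : ℝ) ≤ D)
    (hp : 4 * D ≤ (p : ℝ) ^ 2) (u v : V) (huv : G.Adj u v) :
    (Fintype.card (V → ZMod p × ZMod p) : ℝ) / (2 * p)
      ≤ ∑ χ : V → ZMod p × ZMod p, (if (rsub G χ).Adj u v then (1 : ℝ) else 0) := by
  classical
  have hp0 : (0 : ℝ) < p := by exact_mod_cast Nat.pos_of_ne_zero (NeZero.ne p)
  set N : ℝ := (Fintype.card (V → ZMod p × ZMod p) : ℝ) with hN
  have hN0 : 0 ≤ N := by positivity
  have hpt : ∀ χ : V → ZMod p × ZMod p,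
      (if rel (χ u) (χ v) then (1 : ℝ) else 0)
        - ∑ w ∈ (univ.filter fun w => G.Adj u w).erase v,
          (if rel (χ u) (χ v) ∧ χ w = χ v then (1 : ℝ) else 0)
        - ∑ w ∈ (univ.filter fun w => G.Adj v w).erase u,
          (if rel (χ v) (χ u) ∧ χ w = χ u then (1 : ℝ) else 0)
        ≤ (if (rsub G χ).Adj u v then (1 : ℝ) else 0) := by
    intro χ
    have hs1 : 0 ≤ ∑ w ∈ (univ.filter fun w => G.Adj u w).erase v,
          (if rel (χ u) (χ v) ∧ χ w = χ v then (1 : ℝ) else 0) :=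
      sum_nonneg fun w _ => by split_ifs <;> norm_num
    have hs2 : 0 ≤ ∑ w ∈ (univ.filter fun w => G.Adj v w).erase u,
          (if rel (χ v) (χ u) ∧ χ w = χ u then (1 : ℝ) else 0) :=
      sum_nonneg fun w _ => by split_ifs <;> norm_num
    by_cases hR : rel (χ u) (χ v)
    · by_cases hA : (rsub G χ).Adj u v
      · rw [if_pos hR, if_pos hA]; linarith
      · rw [if_pos hR, if_neg hA]
        by_cases h1 : ∀ w, G.Adj u w → w ≠ v → χ w ≠ χ v
        · have h2 : ¬ ∀ w, G.Adj v w → w ≠ u → χ w ≠ χ u := fun h2 => hA ⟨huv, hR, h1, h2⟩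
          push Not at h2
          obtain ⟨w, hw1, hw2, hw3⟩ := h2
          have e1 : (if rel (χ v) (χ u) ∧ χ w = χ u then (1 : ℝ) else 0) = 1 :=
            if_pos ⟨rel_symm hR, hw3⟩
          have := single_le_sum (f := fun w => if rel (χ v) (χ u) ∧ χ w = χ u then (1 : ℝ) else 0)
            (fun w _ => by split_ifs <;> norm_num)
            (show w ∈ (univ.filter fun w => G.Adj v w).erase u from by simp [hw1, hw2])
          simp only [e1] at this
          linarith
        · push Not at h1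
          obtain ⟨w, hw1, hw2, hw3⟩ := h1
          have e1 : (if rel (χ u) (χ v) ∧ χ w = χ v then (1 : ℝ) else 0) = 1 :=
            if_pos ⟨hR, hw3⟩
          have := single_le_sum (f := fun w => if rel (χ u) (χ v) ∧ χ w = χ v then (1 : ℝ) else 0)
            (fun w _ => by split_ifs <;> norm_num)
            (show w ∈ (univ.filter fun w => G.Adj u w).erase v from by simp [hw1, hw2])
          simp only [e1] at this
          linarith
    · rw [if_neg hR]
      have : (0 : ℝ) ≤ (if (rsub G χ).Adj u v then (1 : ℝ) else 0) := by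
        split_ifs <;> norm_num
      linarith
  refine le_trans ?_ (sum_le_sum fun χ _ => hpt χ)
  rw [sum_sub_distrib, sum_sub_distrib]
  have hS : ∑ χ : V → ZMod p × ZMod p, (if rel (χ u) (χ v) then (1 : ℝ) else 0) = N / p := by
    rw [eq_div_iff hp0.ne', mul_comm, count_rel u v huv.ne]
  have hS' : ∑ χ : V → ZMod p × ZMod p, (if rel (χ v) (χ u) then (1 : ℝ) else 0) = N / p := by
    rw [eq_div_iff hp0.ne', mul_comm, count_rel v u huv.ne.symm]
  have h1 : ∑ χ : V → ZMod p × ZMod p, ∑ w ∈ (univ.filter fun w => G.Adj u w).erase v,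
          (if rel (χ u) (χ v) ∧ χ w = χ v then (1 : ℝ) else 0) ≤ D * (N / p / p ^ 2) := by
    rw [sum_comm]
    have h2 : ∀ w ∈ (univ.filter fun w => G.Adj u w).erase v, ∑ χ : V → ZMod p × ZMod p,
        (if rel (χ u) (χ v) ∧ χ w = χ v then (1 : ℝ) else 0) = N / p / p ^ 2 := by
      intro w hw
      have hw1 : w ≠ v := ne_of_mem_erase hw
      have hw2 : G.Adj u w := by simpa using mem_of_mem_erase hw
      rw [eq_div_iff (by positivity), mul_comm, count_rel_eq u v w hw2.ne hw1.symm, hS]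
    rw [sum_congr rfl h2, sum_const, nsmul_eq_mul]
    refine mul_le_mul_of_nonneg_right ?_ (by positivity)
    refine le_trans ?_ (hdeg u)
    exact_mod_cast card_le_card (erase_subset _ _)
  have h2 : ∑ χ : V → ZMod p × ZMod p, ∑ w ∈ (univ.filter fun w => G.Adj v w).erase u,
          (if rel (χ v) (χ u) ∧ χ w = χ u then (1 : ℝ) else 0) ≤ D * (N / p / p ^ 2) := by
    rw [sum_comm]
    have h2 : ∀ w ∈ (univ.filter fun w => G.Adj v w).erase u, ∑ χ : V → ZMod p × ZMod p,
        (if rel (χ v) (χ u) ∧ χ w = χ u then (1 : ℝ) else 0) = N / p / p ^ 2 := by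
      intro w hw
      have hw1 : w ≠ u := ne_of_mem_erase hw
      have hw2 : G.Adj v w := by simpa using mem_of_mem_erase hw
      rw [eq_div_iff (by positivity), mul_comm, count_rel_eq v u w hw2.ne hw1.symm, hS']
    rw [sum_congr rfl h2, sum_const, nsmul_eq_mul]
    refine mul_le_mul_of_nonneg_right ?_ (by positivity)
    refine le_trans ?_ (hdeg v)
    exact_mod_cast card_le_card (erase_subset _ _)
  have h3 : D * (N / p / p ^ 2) ≤ N / p / 4 := by
    have h4 : D ≤ p ^ 2 / 4 := by linarith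
    calc D * (N / p / p ^ 2) ≤ (p ^ 2 / 4) * (N / p / p ^ 2) :=
          mul_le_mul_of_nonneg_right h4 (by positivity)
      _ = N / p / 4 := by field_simp
  have h5 : N / (2 * p) = N / p / 2 := by field_simp
  rw [hS, h5]
  linarith

open scoped Classical in
/-- number of arcs (ordered adjacent pairs) -/
noncomputable def arcs (H : SimpleGraph V) : ℝ :=
  ∑ u, ∑ v, (if H.Adj u v then (1 : ℝ) else 0)

lemma arcs_eq (H : SimpleGraph V) : arcs H = 2 * (H.edgeSet.ncard : ℝ) := by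
  classical
  unfold arcs
  have h1 : ∀ u, ∑ v, (if H.Adj u v then (1 : ℝ) else 0) = H.degree u := by
    intro u
    rw [← sum_filter, sum_const, nsmul_eq_mul, mul_one]
    congr 2
    ext v
    simp
  simp_rw [h1]
  have h2 := H.sum_degrees_eq_twice_card_edges
  have h3 : H.edgeSet.ncard = #H.edgeFinset := by
    rw [← SimpleGraph.coe_edgeFinset, Set.ncard_coe_finset]
  rw [h3]
  exact_mod_cast h2

open scoped Classical in
/-- Every graph of maximum degree at most `D` has a `C₄`-free subgraph with at least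
`e(G) / (12 √D)` edges. -/
theorem sparse_sub (G : SimpleGraph V) (D : ℝ) (hD : 1 ≤ D)
    (hdeg : ∀ v, ((univ.filter fun w => G.Adj v w).card : ℝ) ≤ D) :
    ∃ H ≤ G, NoC4 H ∧ (G.edgeSet.ncard : ℝ) / (12 * √D) ≤ H.edgeSet.ncard := by
  classical
  have hsD : 1 ≤ √D := by rw [Real.one_le_sqrt]; exact hD
  set n : ℕ := ⌈2 * √D⌉₊ with hn
  have hn0 : n ≠ 0 := by
    rw [hn]
    exact (Nat.ceil_pos.2 (by linarith)).ne'
  obtain ⟨q, hq, hnq, hqn⟩ := Nat.exists_prime_lt_and_le_two_mul n hn0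
  have : Fact q.Prime := ⟨hq⟩
  have : NeZero q := ⟨hq.ne_zero⟩
  have hq1 : 2 * √D ≤ q := by
    have h1 : 2 * √D ≤ n := Nat.le_ceil _
    have h2 : (n : ℝ) ≤ q := by exact_mod_cast hnq.le
    linarith
  have hq2 : (q : ℝ) ≤ 6 * √D := by
    have h1 : (n : ℝ) < 2 * √D + 1 := Nat.ceil_lt_add_one (by positivity)
    have h2 : (q : ℝ) ≤ 2 * n := by exact_mod_cast hqn
    linarith
  have hq3 : 4 * D ≤ (q : ℝ) ^ 2 := by
    have h1 : (2 * √D) ^ 2 ≤ (q : ℝ) ^ 2 := pow_le_pow_left₀ (by positivity) hq1 2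
    have h2 : (2 * √D) ^ 2 = 4 * D := by
      rw [mul_pow, Real.sq_sqrt (by linarith)]; norm_num
    linarith
  have hq0 : (0 : ℝ) < q := by exact_mod_cast hq.pos
  set N : ℝ := (Fintype.card (V → ZMod q × ZMod q) : ℝ) with hN
  have hN0 : 0 < N := by rw [hN]; exact_mod_cast Fintype.card_pos
  have hsum : arcs G * (N / (2 * q)) ≤ ∑ χ : V → ZMod q × ZMod q, arcs (rsub G χ) := by
    have h1 : ∑ χ : V → ZMod q × ZMod q, arcs (rsub G χ)
        = ∑ u, ∑ v, ∑ χ : V → ZMod q × ZMod q,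
          (if (rsub G χ).Adj u v then (1 : ℝ) else 0) := by
      unfold arcs
      rw [sum_comm]
      exact sum_congr rfl fun u _ => sum_comm
    rw [h1]
    unfold arcs
    rw [sum_mul]
    refine sum_le_sum fun u _ => ?_
    rw [sum_mul]
    refine sum_le_sum fun v _ => ?_
    by_cases huv : G.Adj u v
    · rw [if_pos huv, one_mul]
      exact arc_count (p := q) G D hdeg hq3 u v huv
    · rw [if_neg huv, zero_mul]
      exact sum_nonneg fun χ _ => by split_ifs <;> norm_num
  obtain ⟨χ, hχ⟩ : ∃ χ : V → ZMod q × ZMod q, arcs G / (2 * q) ≤ arcs (rsub G χ) := by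
    by_contra hcon
    push Not at hcon
    have h1 : ∑ χ : V → ZMod q × ZMod q, arcs (rsub G χ)
        < ∑ χ : V → ZMod q × ZMod q, arcs G / (2 * q) :=
      sum_lt_sum_of_nonempty univ_nonempty fun χ _ => hcon χ
    rw [sum_const, card_univ, nsmul_eq_mul] at h1
    have h2 : (Fintype.card (V → ZMod q × ZMod q) : ℝ) * (arcs G / (2 * q))
        = arcs G * (N / (2 * q)) := by rw [← hN]; ring
    linarith
  refine ⟨rsub G χ, fun u v h => h.1, rsub_noC4 G χ, ?_⟩
  rw [arcs_eq, arcs_eq] at hχ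
  have h1 : (G.edgeSet.ncard : ℝ) / (12 * √D) ≤ (G.edgeSet.ncard : ℝ) / (2 * q) := by
    refine div_le_div_of_nonneg_left (by positivity) (by positivity) ?_
    linarith
  have h2 : 2 * (G.edgeSet.ncard : ℝ) / (2 * q) = 2 * ((G.edgeSet.ncard : ℝ) / (2 * q)) := by ring
  rw [h2] at hχ
  linarith

end Sparse

end Pool.Agent.MP9a04dc
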