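import Pool.Agent.MP9a04dc.Bip
import Pool.Agent.MP9a04dc.Sparse

/-!
# Every graph with `m` edges has a `C₄`-free subgraph with `(3/2 - o(1)) m^{2/3}` edges
-/

set_option autoImplicit false
set_option linter.unusedSectionVars false
set_option linter.unusedVariables false

namespace Pool.Agent.MP9a04dc

open Finset

section Main

variable {V : Type} [Fintype V] [DecidableEq V]

/-- the graph with the given edges -/
def pairGraph {V : Type} (P : Finset (V × V)) (hP : ∀ u, (u, u) ∉ P) : SimpleGraph V where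
  Adj := fun u v => (u, v) ∈ P ∨ (v, u) ∈ P
  symm := ⟨fun u v h => h.symm⟩
  loopless := ⟨fun u h => hP u (h.elim id id)⟩

open scoped Classical in
lemma of_pairs (G : SimpleGraph V) (A : Finset V) (P : Finset (V × V))
    (hP : ∀ p ∈ P, p.1 ∉ A ∧ p.2 ∈ A ∧ G.Adj p.1 p.2)
    (hno : ∀ b b' a a', b ≠ b' → a ≠ a' → (b, a) ∈ P → (b, a') ∈ P → (b', a) ∈ P →
      (b', a') ∈ P → False) :
    ∃ H ≤ G, NoC4 H ∧ (H.edgeSet.ncard : ℝ) = (P.card : ℝ) := by
  set H : SimpleGraph V := pairGraph P (fun u h => (hP _ h).1 (hP _ h).2.1) with hH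
  refine ⟨H, ?_, ?_, ?_⟩
  · rintro u v (h | h)
    · exact (hP _ h).2.2
    · exact (hP _ h).2.2.symm
  · intro a b c d hac hbd hab hbc hcd hda
    by_cases ha : a ∈ A
    · have h1 : (b, a) ∈ P := hab.elim (fun h => absurd ha (hP _ h).1) id
      have h2 : (d, a) ∈ P := hda.elim id (fun h => absurd ha (hP _ h).1)
      have h3 : (b, c) ∈ P := hbc.elim id (fun h => absurd (hP _ h).2.1 (hP _ h1).1)
      have h4 : (d, c) ∈ P := hcd.elim (fun h => absurd (hP _ h).2.1 (hP _ h2).1) id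
      exact hno b d a c hbd hac h1 h3 h2 h4
    · have h1 : (a, b) ∈ P := hab.elim id (fun h => absurd (hP _ h).2.1 ha)
      have h2 : (a, d) ∈ P := hda.elim (fun h => absurd (hP _ h).2.1 ha) id
      have h3 : (c, b) ∈ P := hbc.elim (fun h => absurd (hP _ h1).2.1 (hP _ h).1) id
      have h4 : (c, d) ∈ P := hcd.elim id (fun h => absurd (hP _ h2).2.1 (hP _ h).1)
      exact hno a c b d hac hbd h1 h2 h3 h4
  · have h1 := arcs_eq H
    have h2 : arcs H = 2 * (P.card : ℝ) := by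
      unfold arcs
      have h3 : ∀ u v, (if H.Adj u v then (1 : ℝ) else 0)
          = (if (u, v) ∈ P then (1 : ℝ) else 0) + (if (v, u) ∈ P then (1 : ℝ) else 0) := by
        intro u v
        by_cases h4 : (u, v) ∈ P
        · have h5 : (v, u) ∉ P := fun h => (hP _ h).1 (hP _ h4).2.1
          rw [if_pos (show H.Adj u v from Or.inl h4), if_pos h4, if_neg h5, add_zero]
        · by_cases h5 : (v, u) ∈ P
          · rw [if_pos (show H.Adj u v from Or.inr h5), if_neg h4, if_pos h5, zero_add]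
          · rw [if_neg (show ¬ H.Adj u v from fun h => h.elim h4 h5), if_neg h4, if_neg h5,
              zero_add]
      simp_rw [h3, sum_add_distrib]
      have h6 : ∑ u : V, ∑ v : V, (if (u, v) ∈ P then (1 : ℝ) else 0) = P.card := by
        rw [← Fintype.sum_prod_type' (fun u v => if (u, v) ∈ P then (1 : ℝ) else 0)]
        simp
      have h7 : ∑ u : V, ∑ v : V, (if (v, u) ∈ P then (1 : ℝ) else 0) = P.card := by
        rw [sum_comm]
        exact h6
      rw [h6, h7]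
      ring
    linarith

/-- the graph induced outside `A` -/
def restr {V : Type} (G : SimpleGraph V) (A : Finset V) : SimpleGraph V where
  Adj := fun u v => G.Adj u v ∧ u ∉ A ∧ v ∉ A
  symm := ⟨fun u v h => ⟨h.1.symm, h.2.2, h.2.1⟩⟩
  loopless := ⟨fun u h => h.1.ne rfl⟩

open scoped Classical in
lemma arcs_split (G : SimpleGraph V) (A : Finset V) :
    arcs G = arcs (restr G A)
      + 2 * (∑ u ∈ Aᶜ, ∑ v ∈ A, (if G.Adj u v then (1 : ℝ) else 0))
      + ∑ u ∈ A, ∑ v ∈ A, (if G.Adj u v then (1 : ℝ) else 0) := by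
  have e1 : arcs G = (∑ u ∈ A, ∑ v ∈ A, (if G.Adj u v then (1 : ℝ) else 0)
      + ∑ u ∈ A, ∑ v ∈ Aᶜ, (if G.Adj u v then (1 : ℝ) else 0))
      + (∑ u ∈ Aᶜ, ∑ v ∈ A, (if G.Adj u v then (1 : ℝ) else 0)
      + ∑ u ∈ Aᶜ, ∑ v ∈ Aᶜ, (if G.Adj u v then (1 : ℝ) else 0)) := by
    unfold arcs
    rw [← sum_add_sum_compl A, ← sum_add_distrib, ← sum_add_distrib]
    congr 1
    · exact sum_congr rfl fun u _ => (sum_add_sum_compl A _).symm
    · exact sum_congr rfl fun u _ => (sum_add_sum_compl A _).symm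
  have e2 : arcs (restr G A) = ∑ u ∈ Aᶜ, ∑ v ∈ Aᶜ, (if G.Adj u v then (1 : ℝ) else 0) := by
    unfold arcs
    rw [← sum_add_sum_compl A]
    have z1 : ∑ u ∈ A, ∑ v, (if (restr G A).Adj u v then (1 : ℝ) else 0) = 0 :=
      sum_eq_zero fun u hu => sum_eq_zero fun v _ => if_neg fun h => h.2.1 hu
    rw [z1, zero_add]
    refine sum_congr rfl fun u hu => ?_
    rw [← sum_add_sum_compl A]
    have z2 : ∑ v ∈ A, (if (restr G A).Adj u v then (1 : ℝ) else 0) = 0 :=
      sum_eq_zero fun v hv => if_neg fun h => h.2.2 hv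
    rw [z2, zero_add]
    refine sum_congr rfl fun v hv => ?_
    have hu' : u ∉ A := mem_compl.1 hu
    have hv' : v ∉ A := mem_compl.1 hv
    by_cases h : G.Adj u v
    · rw [if_pos h, if_pos (show (restr G A).Adj u v from ⟨h, hu', hv'⟩)]
    · rw [if_neg h, if_neg (show ¬ (restr G A).Adj u v from fun h' => h h'.1)]
  have e4 : ∑ u ∈ A, ∑ v ∈ Aᶜ, (if G.Adj u v then (1 : ℝ) else 0)
      = ∑ u ∈ Aᶜ, ∑ v ∈ A, (if G.Adj u v then (1 : ℝ) else 0) := by
    rw [sum_comm]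
    exact sum_congr rfl fun u _ => sum_congr rfl fun v _ => by
      rw [if_congr (G.adj_comm v u) rfl rfl]
  rw [e1, e2, e4]
  ring

open scoped Classical in
theorem main_aux (ε : ℝ) (hε : 0 < ε) (hε1 : ε ≤ 1) :
    ∃ M₀ : ℝ, ∀ M : ℝ, M₀ ≤ M → ∀ (V : Type) [Fintype V] (G : SimpleGraph V),
      (G.edgeSet.ncard : ℝ) = M ^ 3 →
      ∃ H ≤ G, NoC4 H ∧ (3 / 2 - ε) * M ^ 2 ≤ (H.edgeSet.ncard : ℝ) := by
  set η : ℝ := ε / 24 with hη
  have hη0 : 0 < η := by positivity
  have hη1 : η ≤ 1 / 24 := by rw [hη]; linarith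
  set δ : ℝ := (η / 18) ^ 2 with hδ
  have hδ0 : 0 < δ := by positivity
  set C : ℝ := 648 / η ^ 2 with hC
  have hCδ : C = 2 / δ := by rw [hC, hδ]; field_simp; norm_num
  have hC1 : 1 ≤ C := by
    rw [hC, le_div_iff₀ (by positivity)]
    nlinarith
  set ε₁ : ℝ := 2 * η / 3 with hε₁
  have hε₁0 : 0 < ε₁ := by positivity
  have hCε₁ : 1 / ε₁ ≤ C := by
    rw [hC, hε₁, div_le_div_iff₀ (by positivity) (by positivity)]
    nlinarith
  obtain ⟨M₁, hbip⟩ := bip C (ε / 2) hC1 (by positivity)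
  refine ⟨max M₁ (max (max 1 (18 / η)) (max (2 / (η * δ ^ 2)) (1 / (η * ε₁)))), ?_⟩
  intro M hM V _ G hG
  have hM1 : M₁ ≤ M := (le_max_left _ _).trans hM
  have hMone : 1 ≤ M := (le_max_left _ _).trans ((le_max_left _ _).trans ((le_max_right _ _).trans hM))
  have hMη : 18 / η ≤ M :=
    (le_max_right _ _).trans ((le_max_left _ _).trans ((le_max_right _ _).trans hM))
  have hMδ : 2 / (η * δ ^ 2) ≤ M :=
    (le_max_left _ _).trans ((le_max_right _ _).trans ((le_max_right _ _).trans hM))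
  have hMε : 1 / (η * ε₁) ≤ M :=
    (le_max_right _ _).trans ((le_max_right _ _).trans ((le_max_right _ _).trans hM))
  have hMpos : 0 < M := by linarith
  -- degrees
  set dg : V → ℝ := fun v => ((univ.filter fun w => G.Adj v w).card : ℝ) with hdg
  have hdg' : ∀ v, dg v = ∑ w, (if G.Adj v w then (1 : ℝ) else 0) := by
    intro v
    rw [hdg]
    simp
  have harcs : ∑ v, dg v = 2 * M ^ 3 := by
    rw [← hG, ← arcs_eq]
    unfold arcs
    exact sum_congr rfl fun v _ => hdg' v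
  set A : Finset V := univ.filter fun v => δ * M ^ 2 ≤ dg v with hA
  have hAcard : (A.card : ℝ) ≤ C * M := by
    have h1 : (A.card : ℝ) * (δ * M ^ 2) ≤ 2 * M ^ 3 := by
      rw [← harcs]
      calc (A.card : ℝ) * (δ * M ^ 2) = ∑ v ∈ A, δ * M ^ 2 := by rw [sum_const, nsmul_eq_mul]
        _ ≤ ∑ v ∈ A, dg v := sum_le_sum fun v hv => (mem_filter.1 hv).2
        _ ≤ ∑ v, dg v := sum_le_sum_of_subset_of_nonneg (subset_univ _)
            fun v _ _ => by rw [hdg]; positivity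
    have h2 : C * M * (δ * M ^ 2) = 2 * M ^ 3 := by
      rw [hCδ]
      field_simp
    have h3 : 0 < δ * M ^ 2 := by positivity
    have h4 : (A.card : ℝ) * (δ * M ^ 2) ≤ C * M * (δ * M ^ 2) := by rw [h2]; exact h1
    exact le_of_mul_le_mul_right h4 h3
  -- the sparse part
  set G₁ : SimpleGraph V := restr G A with hG₁
  have hsqrt : √(δ * M ^ 2) = η / 18 * M := by
    rw [hδ, ← mul_pow]
    exact Real.sqrt_sq (by positivity)
  by_cases hcase1 : η * M ^ 3 ≤ (G₁.edgeSet.ncard : ℝ)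
  · have hD1 : 1 ≤ δ * M ^ 2 := by
      have h1 : 1 ≤ η / 18 * M := by
        rw [div_le_iff₀ hη0] at hMη
        linarith
      have h2 : δ * M ^ 2 = (η / 18 * M) ^ 2 := by rw [hδ]; ring
      rw [h2]
      nlinarith
    have hdeg : ∀ v, ((univ.filter fun w => G₁.Adj v w).card : ℝ) ≤ δ * M ^ 2 := by
      intro v
      by_cases hv : v ∈ A
      · have : (univ.filter fun w => G₁.Adj v w) = ∅ := by
          rw [filter_eq_empty_iff]
          intro w _ h
          exact h.2.1 hv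
        rw [this]
        simp only [card_empty, Nat.cast_zero]
        positivity
      · have h1 : dg v < δ * M ^ 2 := by
          by_contra hcon
          exact hv (mem_filter.2 ⟨mem_univ _, not_lt.1 hcon⟩)
        refine le_trans ?_ h1.le
        rw [hdg]
        simp only
        exact_mod_cast card_le_card (monotone_filter_right univ (fun w _ (h : G₁.Adj v w) => h.1))
    obtain ⟨H, hH1, hH2, hH3⟩ := sparse_sub G₁ (δ * M ^ 2) hD1 hdeg
    refine ⟨H, hH1.trans fun u v h => h.1, hH2, le_trans ?_ hH3⟩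
    rw [hsqrt]
    have h1 : 3 / 2 * M ^ 2 = η * M ^ 3 / (12 * (η / 18 * M)) := by
      field_simp
      norm_num
    have h2 : η * M ^ 3 / (12 * (η / 18 * M)) ≤ (G₁.edgeSet.ncard : ℝ) / (12 * (η / 18 * M)) :=
      div_le_div_of_nonneg_right hcase1 (by positivity)
    have h3 : 0 ≤ ε * M ^ 2 := by positivity
    linarith
  push Not at hcase1
  -- degrees to A
  set NB : V → Finset ↥A := fun b => univ.filter fun a : ↥A => G.Adj b a.1 with hNB
  have hNBcard : ∀ b, ((NB b).card : ℝ) = ∑ a ∈ A, (if G.Adj b a then (1 : ℝ) else 0) := by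
    intro b
    rw [hNB]
    simp only
    rw [card_filter]
    push_cast
    rw [Finset.sum_coe_sort A (fun a => if G.Adj b a then (1 : ℝ) else 0)]
  set T : ℝ := ∑ b ∈ Aᶜ, ((NB b).card : ℝ) with hT
  have hsplit : arcs G = arcs G₁ + 2 * T + ∑ u ∈ A, ∑ v ∈ A, (if G.Adj u v then (1 : ℝ) else 0) := by
    have e3 : ∑ u ∈ Aᶜ, ∑ v ∈ A, (if G.Adj u v then (1 : ℝ) else 0) = T := by
      rw [hT]
      exact sum_congr rfl fun u _ => (hNBcard u).symm
    rw [← e3]
    exact arcs_split G A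
  have hAA : ∑ u ∈ A, ∑ v ∈ A, (if G.Adj u v then (1 : ℝ) else 0) ≤ (A.card : ℝ) ^ 2 := by
    calc ∑ u ∈ A, ∑ v ∈ A, (if G.Adj u v then (1 : ℝ) else 0)
        ≤ ∑ u ∈ A, ∑ v ∈ A, (1 : ℝ) :=
          sum_le_sum fun u _ => sum_le_sum fun v _ => by split_ifs <;> norm_num
      _ = (A.card : ℝ) ^ 2 := by simp [sq]
  have hAA0 : 0 ≤ ∑ u ∈ A, ∑ v ∈ A, (if G.Adj u v then (1 : ℝ) else 0) :=
    sum_nonneg fun u _ => sum_nonneg fun v _ => by split_ifs <;> norm_num
  rw [arcs_eq, arcs_eq, hG] at hsplit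
  have hG₁0 : (0 : ℝ) ≤ (G₁.edgeSet.ncard : ℝ) := by positivity
  have hTle : T ≤ M ^ 3 := by linarith
  have hA2 : (A.card : ℝ) ^ 2 ≤ 2 * (η * M ^ 3) := by
    have h1 : (A.card : ℝ) ^ 2 ≤ (C * M) ^ 2 := pow_le_pow_left₀ (by positivity) hAcard 2
    refine h1.trans ?_
    rw [hCδ]
    rw [div_le_iff₀ (by positivity)] at hMδ
    have h2 : (2 / δ * M) ^ 2 = 2 * M ^ 2 * (2 / δ ^ 2) := by ring
    rw [h2]
    have h3 : 2 / δ ^ 2 ≤ η * M := by
      rw [div_le_iff₀ (by positivity)]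
      linarith
    calc 2 * M ^ 2 * (2 / δ ^ 2) ≤ 2 * M ^ 2 * (η * M) :=
          mul_le_mul_of_nonneg_left h3 (by positivity)
      _ = 2 * (η * M ^ 3) := by ring
  have hTge : (1 - 2 * η) * M ^ 3 ≤ T := by nlinarith
  -- vertices of low degree to A
  set Low : Finset V := Aᶜ.filter fun b => (NB b).Nonempty ∧ ((NB b).card : ℝ) < ε₁ * M with hLow
  by_cases hcase2 : 3 / 2 * M ^ 2 ≤ (Low.card : ℝ)
  · have hf : ∀ b : V, ∃ a : V, b ∈ Low → a ∈ A ∧ G.Adj b a := by
      intro b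
      by_cases hb : b ∈ Low
      · obtain ⟨a, ha⟩ := (mem_filter.1 hb).2.1
        exact ⟨a.1, fun _ => ⟨a.2, (mem_filter.1 ha).2⟩⟩
      · exact ⟨b, fun h => absurd h hb⟩
    choose f hf using hf
    obtain ⟨H, hH1, hH2, hH3⟩ := of_pairs G A (Low.image fun b => (b, f b))
      (by
        intro p hp
        obtain ⟨b, hb, rfl⟩ := mem_image.1 hp
        exact ⟨mem_compl.1 (mem_filter.1 hb).1, (hf b hb).1, (hf b hb).2⟩)
      (by
        intro b b' a a' hb ha h1 h2 _ _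
        obtain ⟨c, _, hc⟩ := mem_image.1 h1
        obtain ⟨c', _, hc'⟩ := mem_image.1 h2
        simp only [Prod.mk.injEq] at hc hc'
        apply ha
        rw [← hc.2, ← hc'.2, hc.1, hc'.1])
    refine ⟨H, hH1, hH2, ?_⟩
    rw [hH3, card_image_of_injective _ (fun b b' h => (Prod.mk.inj h).1)]
    have : 0 ≤ ε * M ^ 2 := by positivity
    linarith
  push Not at hcase2
  set Bs : Finset V := Aᶜ.filter fun b => ε₁ * M ≤ ((NB b).card : ℝ) with hBs
  have hTsplit : T = ∑ b ∈ Low, ((NB b).card : ℝ) + ∑ b ∈ Bs, ((NB b).card : ℝ) := by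
    have h1 : ∑ b ∈ Low, ((NB b).card : ℝ)
        = ∑ b ∈ Aᶜ.filter (fun b => ¬ (ε₁ * M ≤ ((NB b).card : ℝ))), ((NB b).card : ℝ) := by
      refine sum_subset ?_ ?_
      · intro b hb
        rw [mem_filter] at hb ⊢
        exact ⟨hb.1, not_le.2 hb.2.2⟩
      · intro b hb hb'
        rw [mem_filter] at hb
        by_contra hne
        apply hb'
        rw [hLow, mem_filter]
        refine ⟨hb.1, ?_, not_le.1 hb.2⟩
        rw [← card_pos]
        by_contra h0
        apply hne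
        have : (NB b).card = 0 := by omega
        rw [this]
        simp
    rw [h1, hT, hBs, add_comm, sum_filter_add_sum_filter_not]
  have hLowle : ∑ b ∈ Low, ((NB b).card : ℝ) ≤ η * M ^ 3 := by
    calc ∑ b ∈ Low, ((NB b).card : ℝ) ≤ ∑ b ∈ Low, ε₁ * M :=
          sum_le_sum fun b hb => (mem_filter.1 hb).2.2.le
      _ = (Low.card : ℝ) * (ε₁ * M) := by rw [sum_const, nsmul_eq_mul]
      _ ≤ (3 / 2 * M ^ 2) * (ε₁ * M) := mul_le_mul_of_nonneg_right hcase2.le (by positivity)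
      _ = η * M ^ 3 := by rw [hε₁]; ring
  have hLow0 : 0 ≤ ∑ b ∈ Low, ((NB b).card : ℝ) := sum_nonneg fun b _ => by positivity
  have hBge : (1 - 3 * η) * M ^ 3 ≤ ∑ b ∈ Bs, ((NB b).card : ℝ) := by nlinarith
  have hBle : ∑ b ∈ Bs, ((NB b).card : ℝ) ≤ M ^ 3 := by linarith
  have hBcard : (Bs.card : ℝ) ≤ 1 / ε₁ * M ^ 2 := by
    have h1 : (Bs.card : ℝ) * (ε₁ * M) ≤ M ^ 3 := by
      refine le_trans ?_ hBle
      rw [← nsmul_eq_mul, ← sum_const]
      exact sum_le_sum fun b hb => (mem_filter.1 hb).2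
    have h2 : 1 / ε₁ * M ^ 2 * (ε₁ * M) = M ^ 3 := by field_simp
    have h3 : 0 < ε₁ * M := by positivity
    exact le_of_mul_le_mul_right (h2.symm ▸ h1) h3
  have hμ3 : ((1 - 4 * η) * M) ^ 3 ≤ ∑ b : ↥Bs, (((NB b.1).card : ℝ) - 1) := by
    rw [Finset.sum_coe_sort Bs (fun b => ((NB b).card : ℝ) - 1), sum_sub_distrib]
    simp only [sum_const, nsmul_eq_mul, mul_one]
    have h1 : 1 / ε₁ * M ^ 2 ≤ η * M ^ 3 := by
      rw [div_le_iff₀ (by positivity)] at hMε
      have h2 : 1 / ε₁ ≤ η * M := by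
        rw [div_le_iff₀ hε₁0]
        linarith
      calc 1 / ε₁ * M ^ 2 ≤ (η * M) * M ^ 2 := mul_le_mul_of_nonneg_right h2 (by positivity)
        _ = η * M ^ 3 := by ring
    have h3 : ((1 - 4 * η) * M) ^ 3 ≤ (1 - 4 * η) * M ^ 3 := by
      rw [mul_pow]
      refine mul_le_mul_of_nonneg_right ?_ (by positivity)
      have h4 : 0 ≤ 1 - 4 * η := by linarith
      have h5 : 1 - 4 * η ≤ 1 := by linarith
      calc (1 - 4 * η) ^ 3 = (1 - 4 * η) ^ 2 * (1 - 4 * η) := by ring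
        _ ≤ 1 * (1 - 4 * η) := mul_le_mul_of_nonneg_right (by nlinarith) h4
        _ = 1 - 4 * η := one_mul _
    have h6 : (1 - 4 * η) * M ^ 3 = (1 - 3 * η) * M ^ 3 - η * M ^ 3 := by ring
    linarith
  obtain ⟨S, hS1, hS2, hS3⟩ := hbip M hM1 ↥A ↥Bs (fun b => NB b.1) ((1 - 4 * η) * M)
    (by rw [Fintype.card_coe]; exact hAcard)
    (by
      rw [Fintype.card_coe]
      refine hBcard.trans (mul_le_mul_of_nonneg_right hCε₁ (by positivity)))
    (by
      intro b
      have h1 := (mem_filter.1 b.2).2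
      refine le_trans ?_ h1
      rw [div_le_iff₀ (by linarith)]
      have h2 : 1 ≤ ε₁ * C := by
        rw [div_le_iff₀ hε₁0] at hCε₁
        linarith
      nlinarith)
    (by
      rw [div_le_iff₀ (by linarith)]
      have h2 : 2 ≤ C := by
        rw [hC, le_div_iff₀ (by positivity)]
        nlinarith
      have h3 : 1 ≤ (1 - 4 * η) * C := by nlinarith
      nlinarith)
    hμ3
  set P : Finset (V × V) := ((univ : Finset ↥Bs).sigma S).image (fun q => (q.1.1, q.2.1)) with hPdef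
  have hPmem : ∀ b a, (b, a) ∈ P → ∃ (hb : b ∈ Bs) (ha : a ∈ A), (⟨a, ha⟩ : ↥A) ∈ S ⟨b, hb⟩ := by
    intro b a h
    obtain ⟨q, hq, hqe⟩ := mem_image.1 h
    have h1 : q.1.1 = b := congrArg Prod.fst hqe
    have h2 : q.2.1 = a := congrArg Prod.snd hqe
    subst h1
    subst h2
    exact ⟨q.1.2, q.2.2, (mem_sigma.1 hq).2⟩
  obtain ⟨H, hH1, hH2, hH3⟩ := of_pairs G A P
    (by
      intro p hp
      obtain ⟨hb, ha, h⟩ := hPmem p.1 p.2 hp
      have h1 := hS1 ⟨p.1, hb⟩ h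
      exact ⟨mem_compl.1 (mem_filter.1 hb).1, ha, (mem_filter.1 h1).2⟩)
    (by
      intro b b' a a' hbb haa h1 h2 h3 h4
      obtain ⟨hb, ha, k1⟩ := hPmem _ _ h1
      obtain ⟨_, ha', k2⟩ := hPmem _ _ h2
      obtain ⟨hb', _, k3⟩ := hPmem _ _ h3
      obtain ⟨_, _, k4⟩ := hPmem _ _ h4
      have h5 := hS2 ⟨b, hb⟩ ⟨b', hb'⟩ (fun h => hbb (congrArg Subtype.val h))
      have h6 : ({(⟨a, ha⟩ : ↥A), ⟨a', ha'⟩} : Finset ↥A) ⊆ S ⟨b, hb⟩ ∩ S ⟨b', hb'⟩ := by
        intro y hy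
        rw [mem_insert, mem_singleton] at hy
        rcases hy with rfl | rfl
        · exact mem_inter.2 ⟨k1, k3⟩
        · exact mem_inter.2 ⟨k2, k4⟩
      have h7 := card_le_card h6
      rw [card_pair (fun h => haa (congrArg Subtype.val h))] at h7
      omega)
  refine ⟨H, hH1, hH2, ?_⟩
  have hPcard : (P.card : ℝ) = ∑ b, ((S b).card : ℝ) := by
    rw [hPdef, card_image_of_injective, card_sigma]
    · push_cast
      rfl
    · rintro ⟨b, a⟩ ⟨b', a'⟩ h
      have h1 : b = b' := Subtype.ext (congrArg Prod.fst h)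
      have h2 : a = a' := Subtype.ext (congrArg Prod.snd h)
      subst h1
      subst h2
      rfl
  rw [hH3, hPcard]
  refine le_trans ?_ hS3
  have h1 : (1 - 8 * η) * M ^ 2 ≤ ((1 - 4 * η) * M) ^ 2 := by
    rw [mul_pow]
    refine mul_le_mul_of_nonneg_right ?_ (by positivity)
    nlinarith [sq_nonneg η]
  have h2 : (3 / 2 - ε) * M ^ 2 = 3 / 2 * ((1 - 8 * η) * M ^ 2) - ε / 2 * M ^ 2 := by
    rw [hη]; ring
  rw [h2]
  linarith

end Main

end Pool.Agent.MP9a04dc
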