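import Pool.Agent.MP9a04dc.Assign

set_option autoImplicit false

open Finset BigOperators

namespace Pool.Agent.MP9a04dc

theorem kap_nonneg (s : ℕ) : 0 ≤ kap s := by
  rcases Nat.lt_or_ge s 2 with h | h
  · unfold kap
    rw [if_pos (by omega)]
  · exact (kap_pos h).le

theorem strat {s₀ : ℕ} {d ω : ℝ} (hd : 1 < d) (hs : d ≤ s₀) (W : Fin (s₀ + 1) → ℝ)
    (hω : 4 / 27 * d ^ 3 ≤ ω) (hW : ∀ j : Fin (s₀ + 1), 2 ≤ (j : ℕ) → ω / kap j ≤ W j) :
    ∃ π : Fin (s₀ + 1) → ℝ, (∀ j, 0 ≤ π j) ∧ (∀ j, 0 < π j → 2 ≤ (j : ℕ)) ∧ ∑ j, π j ≤ 1 ∧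
      ∑ j, π j * W j ≤ 1 ∧ ∑ j, π j * ((j : ℕ) - 1) * W j = d - 1 := by
  have hω0 : 0 < ω := lt_of_lt_of_le (by positivity) hω
  obtain ⟨s, hs2, hs1, hsd, hss⟩ : ∃ s : ℕ, 2 ≤ s ∧ (s : ℝ) - 1 < d ∧ d ≤ s ∧ s ≤ s₀ := by
    refine ⟨⌈d⌉₊, ?_, ?_, Nat.le_ceil d, Nat.ceil_le.2 hs⟩
    · have : 1 < ⌈d⌉₊ := Nat.lt_ceil.2 (by exact_mod_cast hd)
      exact this
    · have := Nat.ceil_lt_add_one (show 0 ≤ d by linarith)
      linarith
  set js : Fin (s₀ + 1) := ⟨s, by omega⟩ with hjs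
  set jt : Fin (s₀ + 1) := ⟨s - 1, by omega⟩ with hjt
  have hne : jt ≠ js := by
    intro h
    have := congrArg Fin.val h
    simp only [hjs, hjt] at this
    omega
  have hjt1 : (((jt : Fin (s₀ + 1)) : ℕ) : ℝ) = s - 1 := by
    show ((s - 1 : ℕ) : ℝ) = s - 1
    rw [Nat.cast_sub (by omega)]; simp
  have hWs : ω / kap s ≤ W js := hW js hs2
  have hks := kap_pos hs2
  have hWs0 : 0 < W js := lt_of_lt_of_le (by positivity) hWs
  set α : ℝ := (d - (s - 1)) / W js with hα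
  set β : ℝ := if s = 2 then 0 else (s - d) / W jt with hβ
  have hα0 : 0 ≤ α := div_nonneg (by linarith) hWs0.le
  have hαle : α ≤ (d - (s - 1)) * kap s / ω := by
    rw [hα, div_le_div_iff₀ hWs0 hω0]
    rw [div_le_iff₀ hks] at hWs
    have h1 : 0 ≤ d - (s - 1) := by linarith
    nlinarith [mul_le_mul_of_nonneg_left hWs h1]
  have hβs : 0 ≤ β ∧ β ≤ (s - d) * kap (s - 1) / ω ∧ β * W jt ≤ s - d ∧
      β * ((s : ℝ) - 1 - 1) * W jt = (s - d) * (s - 2) := by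
    by_cases h2 : s = 2
    · rw [hβ, if_pos h2]
      subst h2
      refine ⟨le_rfl, ?_, by simpa using hsd, by norm_num⟩
      simp [kap_one]
    · rw [hβ, if_neg h2]
      have h3 : 2 ≤ s - 1 := by omega
      have hkt := kap_pos h3
      have hWt : ω / kap (s - 1) ≤ W jt := hW jt h3
      have hWt0 : 0 < W jt := lt_of_lt_of_le (by positivity) hWt
      refine ⟨div_nonneg (by linarith) hWt0.le, ?_, ?_, ?_⟩
      · rw [div_le_div_iff₀ hWt0 hω0]
        rw [div_le_iff₀ hkt] at hWt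
        have h1 : 0 ≤ s - d := by linarith
        nlinarith [mul_le_mul_of_nonneg_left hWt h1]
      · rw [div_mul_cancel₀ _ hWt0.ne']
      · field_simp
        ring
  obtain ⟨hβ0, hβ1, hβ2, hβ3⟩ := hβs
  have hsum : ∀ h : Fin (s₀ + 1) → ℝ,
      ∑ j, ((if j = js then α else 0) + (if j = jt then β else 0)) * h j =
        α * h js + β * h jt := by
    intro h
    simp only [add_mul, sum_add_distrib, ite_mul, zero_mul, sum_ite_eq', mem_univ, if_true]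
  refine ⟨fun j => (if j = js then α else 0) + (if j = jt then β else 0), fun j => ?_,
    fun j hj => ?_, ?_, ?_, ?_⟩
  · apply add_nonneg
    · split_ifs
      · exact hα0
      · exact le_rfl
    · split_ifs
      · exact hβ0
      · exact le_rfl
  · simp only at hj
    by_cases h1 : j = js
    · rw [h1]; exact hs2
    · by_cases h2 : j = jt
      · rw [if_neg h1, if_pos h2, zero_add] at hj
        have h3 : s ≠ 2 := by
          intro h
          rw [hβ, if_pos h] at hj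
          exact lt_irrefl _ hj
        rw [h2]
        show 2 ≤ s - 1
        omega
      · rw [if_neg h1, if_neg h2, add_zero] at hj
        exact absurd hj (lt_irrefl _)
  · have := hsum (fun _ => 1)
    simp only [mul_one] at this
    rw [this]
    have h1 := kap_interp hs2 hs1 hsd
    have h2 : (d - (s - 1)) * kap s / ω + (s - d) * kap (s - 1) / ω ≤ 1 := by
      rw [← add_div, div_le_one hω0]
      linarith
    linarith
  · rw [hsum W]
    have : α * W js = d - (s - 1) := by rw [hα, div_mul_cancel₀ _ hWs0.ne']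
    linarith
  · have e : ∀ j : Fin (s₀ + 1), ((if j = js then α else 0) + (if j = jt then β else 0)) *
        (((j : ℕ) : ℝ) - 1) * W j =
        ((if j = js then α else 0) + (if j = jt then β else 0)) * ((((j : ℕ) : ℝ) - 1) * W j) :=
      fun j => by ring
    rw [sum_congr rfl fun j _ => e j, hsum (fun j => (((j : ℕ) : ℝ) - 1) * W j)]
    simp only [hjt1]
    have h1 : α * ((((js : Fin (s₀ + 1)) : ℕ) : ℝ) - 1) * W js = (d - (s - 1)) * (s - 1) := by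
      show α * ((s : ℝ) - 1) * W js = _
      have : α * W js = d - (s - 1) := by rw [hα, div_mul_cancel₀ _ hWs0.ne']
      linear_combination ((s : ℝ) - 1) * this
    have h2 : β * (((s : ℝ) - 1 - 1) * W jt) = (s - d) * (s - 2) := by
      rw [← hβ3]; ring
    rw [h2, ← mul_assoc, h1]
    ring

/-- number of blocks available to one vertex -/
theorem blocks_lower {A : Type} [DecidableEq A] {K Q : ℕ} [NeZero K] [NeZero Q]
    (hcop : Nat.Coprime K.factorial Q) {r : A → ZMod K} {τ : A → ZMod Q}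
    (hinj : ∀ i j, r i = r j → τ i = τ j → i = j) {k L : ℝ} (hk : 0 < k)
    (P : Finset (ZMod K) → Finset (Finset (ZMod K)))
    (hP : ∀ M : Finset (ZMod K), (M.card : ℝ) * (M.card - 1) / (2 * k) - L * M.card ≤ (P M).card)
    (X : Finset A) :
    ((X.card : ℝ) * (X.card - 1) - RR r X) / (2 * k) - L * (X.card * Q) ≤
      ∑ ℓ : ZMod Q × ZMod Q, ((P (MM r τ X ℓ)).card : ℝ) := by
  have h1 := sum_sq_cells hcop hinj X
  have h2 := sum_card_cells (K := K) (Q := Q) r τ X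
  rw [← h1, ← h2, sum_div, mul_sum, ← sum_sub_distrib]
  refine sum_le_sum fun ℓ _ => ?_
  have := hP (MM r τ X ℓ)
  rw [card_MM hinj] at this
  exact this

theorem rows_weights {A B : Type} [Fintype A] [DecidableEq A] [Fintype B] (N : B → Finset A)
    (K : ℕ) [NeZero K] (c : B → ℝ) (hc0 : ∀ v, 0 ≤ c v) (hc1 : ∑ v, c v ≤ 1)
    (hN : ∀ v, (N v).Nonempty) :
    ∃ (r : A → ZMod K) (t : A → ℕ), (∀ i, t i ≤ Fintype.card A / K) ∧
      (∀ i j, r i = r j → t i = t j → i = j) ∧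
      ∑ v, c v * (RR r (N v) / ((N v).card : ℝ) ^ 2) ≤ 1 / K := by
  classical
  obtain ⟨r, t, h1, h2, h3⟩ := rows K
    (fun i j => ∑ v, c v / ((N v).card : ℝ) ^ 2 * (if i ∈ N v ∧ j ∈ N v then 1 else 0))
    (fun i j => sum_nonneg fun v _ => mul_nonneg (div_nonneg (hc0 v) (by positivity)) (by
      split_ifs <;> norm_num))
  refine ⟨r, t, h1, h2, ?_⟩
  have hx : ∀ v, (0 : ℝ) < (N v).card := fun v => by exact_mod_cast (hN v).card_pos
  -- total weight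
  have e1 : ∑ i, ∑ j, ∑ v, c v / ((N v).card : ℝ) ^ 2 *
      (if i ∈ N v ∧ j ∈ N v then (1 : ℝ) else 0) = ∑ v, c v := by
    have : ∀ i, ∑ j, ∑ v, c v / ((N v).card : ℝ) ^ 2 *
        (if i ∈ N v ∧ j ∈ N v then (1 : ℝ) else 0) =
        ∑ v, ∑ j, c v / ((N v).card : ℝ) ^ 2 * (if i ∈ N v ∧ j ∈ N v then (1 : ℝ) else 0) :=
      fun i => sum_comm
    rw [sum_congr rfl fun i _ => this i, sum_comm]
    refine sum_congr rfl fun v _ => ?_
    have h4 : ∀ i, ∑ j, c v / ((N v).card : ℝ) ^ 2 *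
        (if i ∈ N v ∧ j ∈ N v then (1 : ℝ) else 0) =
        if i ∈ N v then c v / ((N v).card : ℝ) ^ 2 * (N v).card else 0 := by
      intro i
      rw [← mul_sum]
      split_ifs with h
      · simp [h]
      · simp [h]
    rw [sum_congr rfl fun i _ => h4 i, ← sum_filter, sum_const, nsmul_eq_mul]
    have h5 : (univ.filter fun i => i ∈ N v) = N v := by ext; simp
    rw [h5]
    have := (hx v).ne'
    field_simp
  have e2 : ∑ i, ∑ j, (if i ≠ j ∧ r i = r j then ∑ v, c v / ((N v).card : ℝ) ^ 2 *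
      (if i ∈ N v ∧ j ∈ N v then (1 : ℝ) else 0) else 0) =
      ∑ v, c v * (RR r (N v) / ((N v).card : ℝ) ^ 2) := by
    have h4 : ∀ i j, (if i ≠ j ∧ r i = r j then ∑ v, c v / ((N v).card : ℝ) ^ 2 *
      (if i ∈ N v ∧ j ∈ N v then (1 : ℝ) else 0) else 0) =
      ∑ v, c v / ((N v).card : ℝ) ^ 2 * (if (i ∈ N v ∧ j ∈ N v) ∧ (i ≠ j ∧ r i = r j)
        then (1 : ℝ) else 0) := by
      intro i j
      by_cases h : i ≠ j ∧ r i = r j
      · rw [if_pos h]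
        refine sum_congr rfl fun v _ => ?_
        simp [h.1, h.2]
      · rw [if_neg h]
        symm
        refine sum_eq_zero fun v _ => ?_
        rw [if_neg (fun h' => h h'.2), mul_zero]
    simp only [h4]
    have : ∀ i, ∑ j, ∑ v, c v / ((N v).card : ℝ) ^ 2 *
        (if (i ∈ N v ∧ j ∈ N v) ∧ (i ≠ j ∧ r i = r j) then (1 : ℝ) else 0) =
        ∑ v, ∑ j, c v / ((N v).card : ℝ) ^ 2 *
        (if (i ∈ N v ∧ j ∈ N v) ∧ (i ≠ j ∧ r i = r j) then (1 : ℝ) else 0) :=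
      fun i => sum_comm
    rw [sum_congr rfl fun i _ => this i, sum_comm]
    refine sum_congr rfl fun v _ => ?_
    have h5 : ∑ i, ∑ j, (if (i ∈ N v ∧ j ∈ N v) ∧ (i ≠ j ∧ r i = r j) then (1 : ℝ) else 0) =
        RR r (N v) := by
      unfold RR
      rw [← sum_product', ← sum_filter, sum_const, nsmul_eq_mul, mul_one]
      congr 2
      ext q
      simp
    simp only [← mul_sum]
    rw [h5]
    ring
  rw [e1, e2] at h3
  refine h3.trans ?_
  have : (0 : ℝ) ≤ 1 / K := by positivity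
  nlinarith

theorem num1 {x R u θ n LM Q : ℝ} (hθ0 : 0 < θ) (hx : 3 / θ ≤ x) (hx1 : 1 ≤ x)
    (hR : R ≤ θ / 3 * x ^ 2) (hu : u ≤ LM) (hLM : 0 < LM) (hQ0 : 0 ≤ Q)
    (hQR : Q ≤ θ * n / (9 * LM)) (hxn : 2 / 3 * n ≤ x) :
    (1 - θ) * x ^ 2 ≤ x * (x - 1) - R - 2 * u * (x * Q) := by
  have h6 : x ≤ θ / 3 * x ^ 2 := by
    rw [div_le_iff₀ hθ0] at hx
    have h := mul_le_mul_of_nonneg_right hx (show 0 ≤ x by linarith)
    have e : x * θ * x = θ * x ^ 2 := by ring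
    rw [e] at h
    linarith
  have h8 : 2 * u * (x * Q) ≤ θ / 3 * x ^ 2 := by
    have h10 : 0 ≤ x * Q := mul_nonneg (by linarith) hQ0
    have h11 : 2 * u * (x * Q) ≤ 2 * LM * (x * Q) :=
      mul_le_mul_of_nonneg_right (by linarith) h10
    have h12 : LM * Q ≤ θ * n / 9 := by
      have := mul_le_mul_of_nonneg_left hQR hLM.le
      refine this.trans (le_of_eq ?_)
      field_simp
    have h13 : 2 * LM * (x * Q) = 2 * x * (LM * Q) := by ring
    have h14 := mul_le_mul_of_nonneg_left h12 (show 0 ≤ 2 * x by linarith)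
    have h15 : 2 * x * (θ * n / 9) ≤ θ / 3 * x ^ 2 := by
      have := mul_le_mul_of_nonneg_left hxn (show 0 ≤ θ / 3 * x by positivity)
      have e1 : 2 * x * (θ * n / 9) = θ / 3 * x * (2 / 3 * n) := by ring
      have e2 : θ / 3 * x ^ 2 = θ / 3 * x * x := by ring
      rw [e1, e2]
      exact this
    linarith
  have e : x * (x - 1) = x ^ 2 - x := by ring
  rw [e]
  linarith

theorem num2 {LM C θ K n : ℝ} (hθ0 : 0 < θ) (hLM : 0 < LM) (hK0 : 0 < K) (hn0 : 0 < n)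
    (hK1 : 18 * LM * C / θ ≤ K) : C * n / K ≤ θ * n / (18 * LM) := by
  rw [div_le_div_iff₀ hK0 (by positivity)]
  rw [div_le_iff₀ hθ0] at hK1
  have := mul_le_mul_of_nonneg_right hK1 hn0.le
  linarith

theorem num3 {e0 x n : ℝ} (he0 : 0 ≤ e0) (hn0 : 0 < n) (hx : 0 ≤ x)
    (h1 : 1 < 3 / 2 * (1 - e0) * x / n) : 2 / 3 * n ≤ x := by
  rw [lt_div_iff₀ hn0] at h1
  have : 0 ≤ e0 * x := mul_nonneg he0 hx
  linarith

theorem num4 {e0 x n C : ℝ} (he0 : 0 ≤ e0) (hn0 : 0 < n) (hx : 0 ≤ x)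
    (h1 : x ≤ C * n) : 3 / 2 * (1 - e0) * x / n ≤ 3 / 2 * C := by
  rw [div_le_iff₀ hn0]
  have : 0 ≤ e0 * x := mul_nonneg he0 hx
  linarith

theorem num5 {e0 x n : ℝ} (he0 : 0 ≤ e0) (hn0 : 0 < n) (hx : 0 ≤ x) :
    3 / 2 * (1 - e0) * x / n ≤ 3 / 2 * n ^ 2 * (x / n ^ 3) := by
  have e : 3 / 2 * n ^ 2 * (x / n ^ 3) = 3 / 2 * x / n := by field_simp
  rw [e]
  refine div_le_div_of_nonneg_right ?_ hn0.le
  have : 0 ≤ e0 * x := mul_nonneg he0 hx
  linarith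

theorem num6 {θ n c : ℝ} (hθ0 : 0 < θ) :
    9 / (2 * θ) * n ^ 2 * (c * (θ / 3)) = 3 / 2 * n ^ 2 * c := by
  field_simp
  ring

theorem num7 {θ n K ε : ℝ} (hθ0 : 0 < θ) (hK0 : 0 < K) (hε : 0 < ε)
    (hK2 : 18 / (θ * ε) ≤ K) : 9 / (2 * θ) * n ^ 2 * (1 / K) ≤ ε / 4 * n ^ 2 := by
  rw [div_le_iff₀ (by positivity)] at hK2
  have : 9 / (2 * θ) * n ^ 2 * (1 / K) = (9 / (2 * θ * K)) * n ^ 2 := by
    field_simp
  rw [this]
  refine mul_le_mul_of_nonneg_right ?_ (by positivity)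
  rw [div_le_div_iff₀ (by positivity) (by norm_num)]
  linarith

theorem num8 {q n a δ D ε : ℝ} (ha : 0 < a) (hD : 0 < D) (hε : 0 < ε)
    (hδ : δ = ε / (8 * a * D ^ 2)) (hq : q ≤ n ^ 2) : q * a * δ * D ^ 2 ≤ ε / 8 * n ^ 2 := by
  have h1 : a * δ * D ^ 2 = ε / 8 := by
    rw [hδ]; field_simp
  have h2 : q * a * δ * D ^ 2 = q * (a * δ * D ^ 2) := by ring
  rw [h2, h1, mul_comm]
  exact mul_le_mul_of_nonneg_left hq (by positivity)

theorem num9 {b q n C δ D ε E1 : ℝ} (hb0 : 0 ≤ b) (hq0 : 0 ≤ q) (hn0 : 0 < n) (hC : 0 < C)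
    (hδ : 0 < δ)
    (hD : 0 ≤ D) (hε : 0 < ε) (hb : b ≤ 3 / 2 * n ^ 2) (hq : q ≤ n ^ 2)
    (hE1 : E1 = (1 + D) * Real.sqrt (3 / 2 * (C * (D ^ 2 + (D ^ 2) ^ 2) / δ)))
    (q3 : 8 * E1 / ε ≤ n) :
    (1 + D) * Real.sqrt (b * (q * (C / n ^ 2 * (D ^ 2 + (D ^ 2) ^ 2) / δ))) ≤ ε / 8 * n ^ 2 := by
  have h1 : b * (q * (C / n ^ 2 * (D ^ 2 + (D ^ 2) ^ 2) / δ)) ≤
      (3 / 2 * n ^ 2) * (n ^ 2 * (C / n ^ 2 * (D ^ 2 + (D ^ 2) ^ 2) / δ)) := by
    refine mul_le_mul hb ?_ (by positivity) (by positivity)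
    exact mul_le_mul_of_nonneg_right hq (by positivity)
  have h2 : (3 / 2 * n ^ 2) * (n ^ 2 * (C / n ^ 2 * (D ^ 2 + (D ^ 2) ^ 2) / δ)) =
      n ^ 2 * (3 / 2 * (C * (D ^ 2 + (D ^ 2) ^ 2) / δ)) := by
    field_simp
  rw [h2] at h1
  have h3 := Real.sqrt_le_sqrt h1
  rw [Real.sqrt_mul (show 0 ≤ n ^ 2 by positivity), Real.sqrt_sq hn0.le] at h3
  have h4 : (1 + D) * Real.sqrt (b * (q * (C / n ^ 2 * (D ^ 2 + (D ^ 2) ^ 2) / δ))) ≤ n * E1 := by
    rw [hE1]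
    have := mul_le_mul_of_nonneg_left h3 (show 0 ≤ 1 + D by positivity)
    refine this.trans (le_of_eq ?_)
    ring
  refine h4.trans ?_
  rw [div_le_iff₀ hε] at q3
  have := mul_le_mul_of_nonneg_left q3 hn0.le
  linarith

theorem mbt_core (ε C : ℝ) (hε : 0 < ε) (hε1 : ε ≤ 1) (hC : 1 ≤ C) :
    ∃ n₀ : ℝ, 0 < n₀ ∧ ∀ (A B : Type) [Fintype A] [DecidableEq A] [Fintype B] [DecidableEq B]
      (N : B → Finset A) (n : ℝ), n₀ ≤ n → (∀ v, (N v).Nonempty) →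
      n ^ 3 = ∑ v, ((N v).card : ℝ) → (Fintype.card A : ℝ) ≤ C * n →
      (Fintype.card B : ℝ) ≤ 3 / 2 * n ^ 2 →
      ∃ S : B → Finset A, (∀ v, S v ⊆ N v) ∧ (∀ v v', v ≠ v' → (S v ∩ S v').card ≤ 1) ∧
        (3 / 2 - ε) * n ^ 2 ≤ ∑ v, ((S v).card : ℝ) := by
  classical
  -- constants
  obtain ⟨e0, he0⟩ : ∃ e0 : ℝ, e0 = ε / 6 := ⟨_, rfl⟩
  have he0' : 0 < e0 := by rw [he0]; positivity
  have he1 : e0 ≤ 1 / 6 := by rw [he0]; linarith
  obtain ⟨θ, hθ⟩ : ∃ θ : ℝ, θ = 1 - (1 - e0) ^ 3 := ⟨_, rfl⟩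
  have hθ0 : 0 < θ := by
    have : (1 - e0) ^ 3 < 1 := pow_lt_one₀ (by linarith) (by linarith) (by norm_num)
    rw [hθ]; linarith
  have hθ1 : θ ≤ 1 := by
    have : 0 ≤ (1 - e0) ^ 3 := pow_nonneg (by linarith) 3
    rw [hθ]; linarith
  obtain ⟨s₀, hs₀C⟩ : ∃ s₀ : ℕ, 3 / 2 * C ≤ s₀ := ⟨⌈3 / 2 * C⌉₊, Nat.le_ceil _⟩
  have hpk : ∀ j : Fin (s₀ + 1), ∃ L : ℝ, 0 ≤ L ∧ (2 ≤ (j : ℕ) →
      ∀ {α : Type} [DecidableEq α] (M : Finset α),
      ∃ P : Finset (Finset α), IsPack (j : ℕ) M P ∧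
        (M.card : ℝ) * (M.card - 1) / (2 * kap j) - L * M.card ≤ P.card) := by
    intro j
    by_cases h : 2 ≤ (j : ℕ)
    · obtain ⟨L, hL, -, h2⟩ := pack (j : ℕ) h
      exact ⟨L, hL, fun _ => h2⟩
    · exact ⟨0, le_rfl, fun h' => absurd h' h⟩
  choose L hL0 hL using hpk
  obtain ⟨LM, hLM⟩ : ∃ LM : ℝ, LM = 1 + ∑ j : Fin (s₀ + 1), kap j * L j := ⟨_, rfl⟩
  have hLM1 : 1 ≤ LM := by
    have : 0 ≤ ∑ j : Fin (s₀ + 1), kap j * L j :=
      sum_nonneg fun j _ => mul_nonneg (kap_nonneg _) (hL0 j)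
    rw [hLM]; linarith
  have hLMj : ∀ j : Fin (s₀ + 1), kap j * L j ≤ LM := by
    intro j
    have := single_le_sum (f := fun j : Fin (s₀ + 1) => kap j * L j)
      (fun j _ => mul_nonneg (kap_nonneg _) (hL0 j)) (mem_univ j)
    rw [hLM]; linarith
  obtain ⟨K, hKge, hKpos⟩ : ∃ K : ℕ, 18 * LM * C / θ + 18 / (θ * ε) ≤ K ∧ 0 < K := by
    refine ⟨⌈18 * LM * C / θ + 18 / (θ * ε)⌉₊ + 1, ?_, Nat.succ_pos _⟩
    push_cast
    have := Nat.le_ceil (18 * LM * C / θ + 18 / (θ * ε))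
    linarith
  have hK1 : 18 * LM * C / θ ≤ K := by
    have : 0 ≤ 18 / (θ * ε) := by positivity
    linarith
  have hK2 : 18 / (θ * ε) ≤ K := by
    have : 0 ≤ 18 * LM * C / θ := by positivity
    linarith
  have : NeZero K := ⟨hKpos.ne'⟩
  have hK0 : (0 : ℝ) < K := by exact_mod_cast hKpos
  obtain ⟨D, hD1, hD2⟩ : ∃ D : ℕ, 2 ^ K ≤ D ∧ s₀ ≤ D :=
    ⟨2 ^ K + s₀, Nat.le_add_right _ _, Nat.le_add_left _ _⟩
  have hD0 : (0 : ℝ) < D := by
    have : 0 < D := lt_of_lt_of_le (by positivity) hD1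
    exact_mod_cast this
  obtain ⟨δ, hδ⟩ : ∃ δ : ℝ, δ = ε / (8 * (2 ^ K * (s₀ + 1)) * D ^ 2) := ⟨_, rfl⟩
  have hδ0 : 0 < δ := by rw [hδ]; positivity
  obtain ⟨E1, hE1⟩ : ∃ E1 : ℝ, E1 = (1 + D) *
    Real.sqrt (3 / 2 * (C * ((D : ℝ) ^ 2 + ((D : ℝ) ^ 2) ^ 2) / δ)) := ⟨_, rfl⟩
  have hE10 : 0 ≤ E1 := by rw [hE1]; positivity
  obtain ⟨F, hF⟩ : ∃ F : ℝ, F = (K.factorial : ℝ) + 1 := ⟨_, rfl⟩
  have hF0 : 1 ≤ F := by rw [hF]; have : (0 : ℝ) ≤ K.factorial := Nat.cast_nonneg _; linarith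
  refine ⟨F * (18 * LM / θ) + 9 / θ + 8 * E1 / ε + 1, by positivity, ?_⟩
  intro A B _ _ _ _ N n hn hN hn3 hA hB
  have p1 : 0 ≤ F * (18 * LM / θ) := by positivity
  have p2 : 0 ≤ 9 / θ := by positivity
  have p3 : 0 ≤ 8 * E1 / ε := by positivity
  have hn1 : 1 ≤ n := by linarith
  have hn0 : 0 < n := by linarith
  have q1 : F * (18 * LM / θ) ≤ n := by linarith
  have q2 : 9 / θ ≤ n := by linarith
  have q3 : 8 * E1 / ε ≤ n := by linarith
  -- shares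
  obtain ⟨x, hx⟩ : ∃ x : B → ℝ, ∀ v, x v = ((N v).card : ℝ) := ⟨_, fun _ => rfl⟩
  have hx1 : ∀ v, 1 ≤ x v := fun v => by
    rw [hx]; exact_mod_cast (hN v).card_pos
  have hxA : ∀ v, x v ≤ C * n := fun v => by
    refine le_trans ?_ hA
    rw [hx]; exact_mod_cast card_le_univ (N v)
  obtain ⟨c, hc⟩ : ∃ c : B → ℝ, ∀ v, c v = x v / n ^ 3 := ⟨_, fun _ => rfl⟩
  have hc0 : ∀ v, 0 ≤ c v := fun v => by
    rw [hc]; exact div_nonneg (by linarith [hx1 v]) (by positivity)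
  have hsumx : ∑ v, x v = n ^ 3 := by
    rw [hn3]; exact sum_congr rfl fun v _ => hx v
  have hc1 : ∑ v, c v ≤ 1 := by
    rw [sum_congr rfl fun v _ => hc v, ← sum_div, hsumx, div_self (by positivity)]
  have hcm0 : 0 ≤ C / n ^ 2 := by positivity
  have hcm : ∀ v, c v ≤ C / n ^ 2 := by
    intro v
    rw [hc, div_le_div_iff₀ (by positivity) (by positivity)]
    have := mul_le_mul_of_nonneg_right (hxA v) (show 0 ≤ n ^ 2 by positivity)
    refine this.trans (le_of_eq ?_)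
    ring
  obtain ⟨r, t, ht, hrt, hrows⟩ := rows_weights N K c hc0 hc1 hN
  -- the modulus
  obtain ⟨q, hq⟩ : ∃ q : ℕ, q = Fintype.card A / K := ⟨_, rfl⟩
  rw [← hq] at ht
  obtain ⟨Q, hQ⟩ : ∃ Q : ℕ, Q = K.factorial * (q / K.factorial + 1) + 1 := ⟨_, rfl⟩
  have hfpos : 0 < K.factorial := Nat.factorial_pos K
  have hqQ : q < Q := by
    have := Nat.lt_mul_div_succ q hfpos
    rw [hQ]; omega
  have hQle : Q ≤ q + K.factorial + 1 := by
    have := Nat.mul_div_le q K.factorial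
    rw [hQ, Nat.mul_add, Nat.mul_one]; omega
  have : NeZero Q := ⟨by rw [hQ]; omega⟩
  have hcop : Nat.Coprime K.factorial Q := by
    rw [hQ]; simp
  have hQR : (Q : ℝ) ≤ θ * n / (9 * LM) := by
    have h1 : (Q : ℝ) ≤ q + K.factorial + 1 := by exact_mod_cast hQle
    have h2 : (q : ℝ) ≤ C * n / K := by
      have h3 : (q : ℝ) ≤ (Fintype.card A : ℝ) / K := by
        rw [hq]; exact Nat.cast_div_le
      exact h3.trans (div_le_div_of_nonneg_right hA hK0.le)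
    have h4 : C * n / K ≤ θ * n / (18 * LM) :=
      num2 hθ0 (by linarith) hK0 hn0 hK1
    have h5 : F ≤ θ * n / (18 * LM) := by
      rw [le_div_iff₀ (by positivity)]
      rw [mul_div_assoc', div_le_iff₀ hθ0] at q1
      linarith
    have h6 : θ * n / (9 * LM) = θ * n / (18 * LM) + θ * n / (18 * LM) := by
      field_simp; ring
    rw [h6]
    rw [hF] at h5
    linarith
  have hQn : (Q : ℝ) ≤ n := by
    refine hQR.trans ?_
    rw [div_le_iff₀ (by positivity)]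
    nlinarith
  obtain ⟨τ, hτ⟩ : ∃ τ : A → ZMod Q, ∀ i, τ i = (t i : ZMod Q) := ⟨_, fun _ => rfl⟩
  have hinj : ∀ i j, r i = r j → τ i = τ j → i = j := by
    intro i j h1 h2
    refine hrt i j h1 ?_
    rw [hτ, hτ, ZMod.natCast_eq_natCast_iff'] at h2
    rwa [Nat.mod_eq_of_lt ((ht i).trans_lt hqQ), Nat.mod_eq_of_lt ((ht j).trans_lt hqQ)] at h2
  -- packings
  have hPex : ∀ (j : Fin (s₀ + 1)) (M : Finset (ZMod K)), ∃ P : Finset (Finset (ZMod K)),
      2 ≤ (j : ℕ) → (IsPack (j : ℕ) M P ∧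
        (M.card : ℝ) * (M.card - 1) / (2 * kap j) - L j * M.card ≤ P.card) := by
    intro j M
    by_cases h : 2 ≤ (j : ℕ)
    · obtain ⟨P, hP⟩ := hL j h M
      exact ⟨P, fun _ => hP⟩
    · exact ⟨∅, fun h' => absurd h' h⟩
  choose P hP using hPex
  obtain ⟨W, hW⟩ : ∃ W : B → Fin (s₀ + 1) → ℝ, ∀ v j, W v j =
    c v * ∑ ℓ, ((P j (MM r τ (N v) ℓ)).card : ℝ) := ⟨_, fun _ _ => rfl⟩
  obtain ⟨d, hd⟩ : ∃ d : B → ℝ, ∀ v, d v = 3 / 2 * (1 - e0) * x v / n := ⟨_, fun _ => rfl⟩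
  have hd0 : ∀ v, 0 ≤ d v := fun v => by
    have := hx1 v
    rw [hd]
    apply div_nonneg _ hn0.le
    apply mul_nonneg _ (by linarith)
    linarith
  have hds : ∀ v, d v ≤ s₀ := by
    intro v
    refine le_trans ?_ hs₀C
    rw [hd]
    exact num4 he0'.le hn0 (by linarith [hx1 v]) (hxA v)
  -- active vertices
  have hstr : ∀ v, ∃ π : Fin (s₀ + 1) → ℝ, (∀ j, 0 ≤ π j) ∧ (∀ j, 0 < π j → 2 ≤ (j : ℕ)) ∧
      ∑ j, π j ≤ 1 ∧ ∑ j, π j * W v j ≤ 1 ∧
      d v - (if θ / 3 * x v ^ 2 < RR r (N v) then d v else 0) ≤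
        1 + ∑ j, π j * ((j : ℕ) - 1) * W v j := by
    intro v
    by_cases hact : 1 < d v ∧ ¬ (θ / 3 * x v ^ 2 < RR r (N v))
    · obtain ⟨h1, h2⟩ := hact
      have hxn : 2 / 3 * n ≤ x v := num3 he0'.le hn0 (by linarith [hx1 v]) (by
        rw [hd] at h1; exact h1)
      have hx3 : 3 / θ ≤ x v := by
        have : 3 / θ = 1 / 3 * (9 / θ) := by ring
        rw [this]
        linarith
      have hWj : ∀ j : Fin (s₀ + 1), 2 ≤ (j : ℕ) →
          ((1 - θ) * (c v * x v ^ 2 / 2)) / kap j ≤ W v j := by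
        intro j hj
        have hk := kap_pos hj
        have hb := blocks_lower hcop hinj hk (P j) (fun M => (hP j M hj).2) (N v)
        have h3 := mul_le_mul_of_nonneg_left hb (hc0 v)
        rw [hW]
        refine le_trans ?_ h3
        have h4 : (1 - θ) * (c v * x v ^ 2 / 2) / kap j =
            c v * ((1 - θ) * x v ^ 2 / (2 * kap j)) := by
          field_simp
        rw [h4]
        refine mul_le_mul_of_nonneg_left ?_ (hc0 v)
        have h5 : (((N v).card : ℝ) * ((N v).card - 1) - RR r (N v)) / (2 * kap j) -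
            L j * ((N v).card * Q) =
            (x v * (x v - 1) - RR r (N v) - 2 * (kap j * L j) * (x v * Q)) / (2 * kap j) := by
          rw [← hx]
          have := hk.ne'
          field_simp
        rw [h5]
        refine div_le_div_of_nonneg_right ?_ (by positivity)
        exact num1 hθ0 hx3 (hx1 v) (not_lt.1 h2) (hLMj j) (by linarith) (Nat.cast_nonneg _) hQR hxn
      have hω : 4 / 27 * (d v) ^ 3 ≤ (1 - θ) * (c v * x v ^ 2 / 2) := by
        have : (1 - θ) = (1 - e0) ^ 3 := by rw [hθ]; ring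
        rw [this, hd, hc]
        apply le_of_eq
        field_simp
        ring
      obtain ⟨π, π0, π1, π2, π3, π4⟩ := strat h1 (hds v) (W v) hω hWj
      refine ⟨π, π0, π1, π2, π3, ?_⟩
      rw [π4, if_neg h2]
      linarith
    · refine ⟨fun _ => 0, fun _ => le_rfl, fun j hj => absurd hj (lt_irrefl _), by simp,
        by simp, ?_⟩
      simp only [zero_mul, sum_const_zero, add_zero]
      by_cases h2 : θ / 3 * x v ^ 2 < RR r (N v)
      · rw [if_pos h2]; linarith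
      · rw [if_neg h2, sub_zero]
        by_contra h3
        exact hact ⟨not_le.1 h3, h2⟩
  choose π π0 π1 π2 π3 π4 using hstr
  obtain ⟨S, hS1, hS2, hS3⟩ := assign N hN hcop hinj s₀ P (fun s M hs => (hP s M hs).1) c hc0 hc1
    hcm0 hcm π π0 π2 π1 (fun v => by
      have := π3 v
      simp only [hW] at this
      exact this) hδ0 hD1 hD2
  refine ⟨S, hS1, hS2, le_trans ?_ hS3⟩
  -- final estimate
  have hsumd : ∑ v, d v = 3 / 2 * (1 - e0) * n ^ 2 := by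
    rw [sum_congr rfl fun v _ => hd v, ← sum_div, ← mul_sum, hsumx]
    field_simp
  have hbad : ∑ v, (if θ / 3 * x v ^ 2 < RR r (N v) then d v else 0) ≤ ε / 4 * n ^ 2 := by
    have h1 : ∀ v, (if θ / 3 * x v ^ 2 < RR r (N v) then d v else 0) ≤
        (9 / (2 * θ)) * n ^ 2 * (c v * (RR r (N v) / ((N v).card : ℝ) ^ 2)) := by
      intro v
      have hxv := hx1 v
      rw [← hx]
      split_ifs with h
      · have h2 : θ / 3 ≤ RR r (N v) / x v ^ 2 := by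
          rw [le_div_iff₀ (pow_pos (by linarith) 2)]; exact h.le
        have h3 : d v ≤ 3 / 2 * n ^ 2 * c v := by
          rw [hd, hc]
          exact num5 he0'.le hn0 (by linarith)
        have h4 : (9 / (2 * θ)) * n ^ 2 * (c v * (θ / 3)) = 3 / 2 * n ^ 2 * c v := num6 hθ0
        refine h3.trans ?_
        rw [← h4]
        refine mul_le_mul_of_nonneg_left ?_ (by positivity)
        exact mul_le_mul_of_nonneg_left h2 (hc0 v)
      · have := hc0 v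
        positivity
    refine (sum_le_sum fun v _ => h1 v).trans ?_
    rw [← mul_sum]
    exact (mul_le_mul_of_nonneg_left hrows (by positivity)).trans (num7 hθ0 hK0 hε hK2)
  have hmain : ∑ v, (d v - (if θ / 3 * x v ^ 2 < RR r (N v) then d v else 0)) ≤
      (Fintype.card B : ℝ) + ∑ v, ∑ s, π v s * ((s : ℕ) - 1) *
        (c v * ∑ ℓ, ((P s (MM r τ (N v) ℓ)).card : ℝ)) := by
    rw [← card_univ, card_eq_sum_ones, Nat.cast_sum, ← sum_add_distrib]
    refine sum_le_sum fun v _ => ?_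
    have := π4 v
    simp only [hW] at this
    simpa using this
  rw [sum_sub_distrib, hsumd] at hmain
  have hQQ : (Q * Q : ℝ) ≤ n ^ 2 := by
    rw [sq]
    exact mul_le_mul hQn hQn (Nat.cast_nonneg _) hn0.le
  have herr1 : (Q * Q : ℝ) * (2 ^ K * (s₀ + 1)) * δ * D ^ 2 ≤ ε / 8 * n ^ 2 :=
    num8 (by positivity) hD0 hε hδ hQQ
  have herr2 : (1 + D) * Real.sqrt (Fintype.card B *
      ((Q * Q : ℝ) * (C / n ^ 2 * (D ^ 2 + (D ^ 2) ^ 2) / δ))) ≤ ε / 8 * n ^ 2 :=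
    num9 (Nat.cast_nonneg _) (by positivity) hn0 (by linarith) hδ0 hD0.le hε hB hQQ hE1 q3
  have hfin : (3 / 2 - ε) * n ^ 2 ≤ 3 / 2 * (1 - e0) * n ^ 2 - ε / 4 * n ^ 2 - ε / 8 * n ^ 2 -
      ε / 8 * n ^ 2 := by
    have : 0 < n ^ 2 := by positivity
    rw [he0]
    nlinarith
  linarith

end Pool.Agent.MP9a04dc
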