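import Pool.Agent.MP9a04dc.Mbt

set_option autoImplicit false

open Finset BigOperators

namespace Pool.Agent.MP9a04dc

theorem sum_sub {B : Type} [Fintype B] (p : B → Prop) [Fintype {b // p b}] (f : B → ℝ)
    (hf : ∀ b, ¬ p b → f b = 0) : ∑ b : {b // p b}, f b = ∑ b, f b := by
  classical
  rw [← Finset.sum_subtype (univ.filter p) (p := p) (fun b => by simp) f]
  refine sum_filter_of_ne fun b _ hb => ?_
  by_contra h
  exact hb (hf b h)

/-- Main bipartite theorem: for a bipartite host with `m` edges, one side of size `O(m^{1/3})`,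
one can choose subsets of the neighbourhoods pairwise meeting in at most one point with total
size at least `(3/2 - ε) m^{2/3}`. -/
theorem mbt (ε C : ℝ) (hε : 0 < ε) : ∃ m₀ : ℕ, ∀ (A B : Type) [Fintype A] [DecidableEq A]
    [Fintype B] (N : B → Finset A), m₀ ≤ ∑ b, (N b).card →
    (Fintype.card A : ℝ) ≤ C * ((∑ b, (N b).card : ℕ) : ℝ) ^ ((1 : ℝ) / 3) →
    ∃ S : B → Finset A, (∀ b, S b ⊆ N b) ∧ (∀ b b', b ≠ b' → (S b ∩ S b').card ≤ 1) ∧
      (3 / 2 - ε) * ((∑ b, (N b).card : ℕ) : ℝ) ^ ((2 : ℝ) / 3) ≤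
        ((∑ b, (S b).card : ℕ) : ℝ) := by
  classical
  obtain ⟨n₀, hn₀, hcore⟩ := mbt_core (min ε 1) (max C 1) (lt_min hε one_pos) (min_le_right _ _)
    (le_max_right _ _)
  refine ⟨⌈n₀ ^ 3⌉₊, ?_⟩
  intro A B _ _ _ N hm hA
  obtain ⟨m, hm_def⟩ : ∃ m : ℕ, m = ∑ b, (N b).card := ⟨_, rfl⟩
  rw [← hm_def] at hm hA ⊢
  obtain ⟨n, hn⟩ : ∃ n : ℝ, n = (m : ℝ) ^ ((1 : ℝ) / 3) := ⟨_, rfl⟩
  have hm0 : (0 : ℝ) ≤ m := Nat.cast_nonneg _
  have hn0 : 0 ≤ n := by rw [hn]; exact Real.rpow_nonneg hm0 _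
  have hn3 : n ^ 3 = m := by
    rw [hn, ← Real.rpow_natCast, ← Real.rpow_mul hm0]
    norm_num
  have hn2 : (m : ℝ) ^ ((2 : ℝ) / 3) = n ^ 2 := by
    rw [hn, ← Real.rpow_natCast, ← Real.rpow_mul hm0]
    norm_num
  rw [← hn] at hA
  have hnn₀ : n₀ ≤ n := by
    have h1 : n₀ ^ 3 ≤ n ^ 3 := by
      rw [hn3]
      exact (Nat.le_ceil _).trans (by exact_mod_cast hm)
    by_contra h
    have h2 : n ^ 3 < n₀ ^ 3 := pow_lt_pow_left₀ (not_le.1 h) hn0 (by norm_num)
    linarith
  rw [hn2]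
  have hsumN : ∑ b : {b // (N b).Nonempty}, ((N b.1).card : ℝ) = m := by
    rw [sum_sub (fun b => (N b).Nonempty) (fun b => ((N b).card : ℝ)), hm_def]
    · push_cast; rfl
    · intro b hb
      rw [not_nonempty_iff_eq_empty] at hb
      rw [hb, card_empty, Nat.cast_zero]
  by_cases hB : (Fintype.card {b // (N b).Nonempty} : ℝ) ≤ 3 / 2 * n ^ 2
  · obtain ⟨S, hS1, hS2, hS3⟩ := hcore A {b // (N b).Nonempty} (fun b => N b.1) n hnn₀
      (fun b => b.2) (by rw [hn3]; exact hsumN.symm)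
      (hA.trans (mul_le_mul_of_nonneg_right (le_max_left _ _) hn0)) hB
    obtain ⟨S', hS', hS''⟩ : ∃ S' : B → Finset A,
        (∀ b (h : (N b).Nonempty), S' b = S ⟨b, h⟩) ∧ ∀ b, ¬ (N b).Nonempty → S' b = ∅ :=
      ⟨fun b => if h : (N b).Nonempty then S ⟨b, h⟩ else ∅, fun b h => dif_pos h,
        fun b h => dif_neg h⟩
    refine ⟨S', fun b => ?_, fun b b' hbb => ?_, ?_⟩
    · by_cases h : (N b).Nonempty
      · rw [hS' b h]; exact hS1 ⟨b, h⟩
      · rw [hS'' b h]; exact empty_subset _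
    · by_cases h : (N b).Nonempty
      · by_cases h' : (N b').Nonempty
        · rw [hS' b h, hS' b' h']
          exact hS2 _ _ fun he => hbb (congrArg Subtype.val he)
        · rw [hS'' b' h']; simp
      · rw [hS'' b h]; simp
    · have h1 : (3 / 2 - ε) * n ^ 2 ≤ (3 / 2 - min ε 1) * n ^ 2 :=
        mul_le_mul_of_nonneg_right (by linarith [min_le_left ε 1]) (by positivity)
      refine h1.trans (hS3.trans (le_of_eq ?_))
      push_cast
      rw [← sum_sub (fun b => (N b).Nonempty) (fun b => ((S' b).card : ℝ))]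
      · refine sum_congr rfl fun b _ => ?_
        rw [hS' b.1 b.2]
      · intro b hb
        rw [hS'' b hb, card_empty, Nat.cast_zero]
  · obtain ⟨S', hS', hS''⟩ : ∃ S' : B → Finset A,
        (∀ b (h : (N b).Nonempty), S' b = {h.choose}) ∧ ∀ b, ¬ (N b).Nonempty → S' b = ∅ :=
      ⟨fun b => if h : (N b).Nonempty then {h.choose} else ∅, fun b h => dif_pos h,
        fun b h => dif_neg h⟩
    refine ⟨S', fun b => ?_, fun b b' _ => ?_, ?_⟩
    · by_cases h : (N b).Nonempty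
      · rw [hS' b h, singleton_subset_iff]; exact h.choose_spec
      · rw [hS'' b h]; exact empty_subset _
    · refine (card_le_card inter_subset_left).trans ?_
      by_cases h : (N b).Nonempty
      · rw [hS' b h, card_singleton]
      · rw [hS'' b h]; simp
    · have h1 : (3 / 2 - ε) * n ^ 2 ≤ 3 / 2 * n ^ 2 :=
        mul_le_mul_of_nonneg_right (by linarith) (by positivity)
      refine h1.trans ((not_le.1 hB).le.trans (le_of_eq ?_))
      push_cast
      rw [← sum_sub (fun b => (N b).Nonempty) (fun b => ((S' b).card : ℝ))]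
      · rw [← card_univ, card_eq_sum_ones, Nat.cast_sum]
        refine sum_congr rfl fun b _ => ?_
        rw [hS' b.1 b.2, card_singleton]
      · intro b hb
        rw [hS'' b hb, card_empty, Nat.cast_zero]

end Pool.Agent.MP9a04dc
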