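import Mathlib

set_option autoImplicit false

open Finset BigOperators

namespace Pool.Agent.MP9a04dc

/-- `P` is a family of `s`-subsets of `M`, pairwise meeting in at most one point -/
def IsPack {α : Type*} [DecidableEq α] (s : ℕ) (M : Finset α) (P : Finset (Finset α)) : Prop :=
  (∀ o ∈ P, o ⊆ M ∧ o.card = s) ∧ ∀ o ∈ P, ∀ o' ∈ P, o ≠ o' → (o ∩ o').card ≤ 1

theorem isPack_empty {α : Type*} [DecidableEq α] (s : ℕ) (M : Finset α) :
    IsPack s M ∅ := ⟨by simp, by simp⟩

/-- transport of a packing along an injection -/
theorem IsPack.map {α β : Type*} [DecidableEq α] [DecidableEq β] {s : ℕ} {M : Finset α}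
    {P : Finset (Finset α)} (h : IsPack s M P) (e : α ↪ β) {M' : Finset β}
    (hM : ∀ a ∈ M, e a ∈ M') :
    IsPack s M' (P.map (Finset.mapEmbedding e).toEmbedding) := by
  refine ⟨fun o ho => ?_, fun o ho o' ho' hne => ?_⟩
  · rw [mem_map] at ho
    obtain ⟨a, ha, rfl⟩ := ho
    refine ⟨fun x hx => ?_, ?_⟩
    · have hx' : x ∈ a.map e := hx
      rw [mem_map] at hx'
      obtain ⟨y, hy, rfl⟩ := hx'
      exact hM y ((h.1 a ha).1 hy)
    · show (a.map e).card = s
      rw [card_map]
      exact (h.1 a ha).2
  · rw [mem_map] at ho ho'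
    obtain ⟨a, ha, rfl⟩ := ho
    obtain ⟨a', ha', rfl⟩ := ho'
    have hne' : a ≠ a' := fun h => hne (by rw [h])
    show ((a.map e) ∩ (a'.map e)).card ≤ 1
    rw [← map_inter, card_map]
    exact h.2 a ha a' ha' hne'

/-- pairs -/
theorem pack_two {α : Type*} [DecidableEq α] (M : Finset α) :
    ∃ P : Finset (Finset α), IsPack 2 M P ∧
      ((M.card : ℝ) * (M.card - 1) / 2) ≤ P.card := by
  refine ⟨M.powersetCard 2, ⟨fun o ho => mem_powersetCard.1 ho, fun o ho o' ho' hne => ?_⟩, ?_⟩
  · rw [mem_powersetCard] at ho ho'
    by_contra hcon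
    push Not at hcon
    have h1 : o ∩ o' = o := eq_of_subset_of_card_le inter_subset_left (by omega)
    have h2 : o ∩ o' = o' := eq_of_subset_of_card_le inter_subset_right (by omega)
    exact hne (h1.symm.trans h2)
  · rw [card_powersetCard, Nat.cast_choose_two]

/-- triples with zero sum -/
theorem pack_three_zmod (m : ℕ) [NeZero m] :
    ∃ P : Finset (Finset (ZMod m)), IsPack 3 univ P ∧
      ((m : ℝ) * m - 3 * m) / 6 ≤ P.card := by
  classical
  refine ⟨(univ.powersetCard 3).filter fun o => ∑ i ∈ o, i = 0, ⟨fun o ho => ?_,
    fun o ho o' ho' hne => ?_⟩, ?_⟩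
  · rw [mem_filter, mem_powersetCard] at ho
    exact ho.1
  · rw [mem_filter, mem_powersetCard] at ho ho'
    by_contra hcon
    push Not at hcon
    have hle : (o ∩ o').card ≤ o.card := card_le_card inter_subset_left
    have hc : (o ∩ o').card = 2 ∨ (o ∩ o').card = 3 := by omega
    rcases hc with hc | hc
    · have d1 : (o \ o').card = 1 := by
        have := card_sdiff_add_card_inter o o'
        omega
      have d2 : (o' \ o).card = 1 := by
        have := card_sdiff_add_card_inter o' o
        rw [inter_comm] at this
        omega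
      obtain ⟨x, hx⟩ := card_eq_one.1 d1
      obtain ⟨y, hy⟩ := card_eq_one.1 d2
      have s1 : ∑ i ∈ o, i = x + ∑ i ∈ o ∩ o', i := by
        rw [← sum_sdiff (inter_subset_left : o ∩ o' ⊆ o), sdiff_inter_self_left, hx,
          sum_singleton]
      have s2 : ∑ i ∈ o', i = y + ∑ i ∈ o ∩ o', i := by
        rw [← sum_sdiff (inter_subset_right : o ∩ o' ⊆ o'), sdiff_inter_self_right, hy,
          sum_singleton]
      have hxy : x = y := by
        have h3 := ho.2
        have h4 := ho'.2
        rw [s1] at h3
        rw [s2, ← h3] at h4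
        exact (add_right_cancel h4).symm
      have hxo : x ∈ o \ o' := by rw [hx]; simp
      have hyo : y ∈ o' \ o := by rw [hy]; simp
      rw [mem_sdiff] at hxo hyo
      exact hyo.2 (hxy ▸ hxo.1)
    · have h1 : o ∩ o' = o := eq_of_subset_of_card_le inter_subset_left (by omega)
      have h2 : o ∩ o' = o' := eq_of_subset_of_card_le inter_subset_right (by omega)
      exact hne (h1.symm.trans h2)
  · set P := (univ.powersetCard 3).filter fun o : Finset (ZMod m) => ∑ i ∈ o, i = 0 with hP
    set D : Finset (ZMod m × ZMod m) :=
      univ.filter fun q => q.1 ≠ q.2 ∧ q.1 ≠ -q.1 - q.2 ∧ q.2 ≠ -q.1 - q.2 with hD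
    have hmaps : ∀ q ∈ D, ({q.1, q.2, -q.1 - q.2} : Finset (ZMod m)) ∈ P := by
      intro q hq
      rw [hD, mem_filter] at hq
      obtain ⟨-, h1, h2, h3⟩ := hq
      rw [hP, mem_filter, mem_powersetCard]
      refine ⟨⟨subset_univ _, ?_⟩, ?_⟩
      · rw [card_insert_of_notMem, card_insert_of_notMem, card_singleton]
        · rwa [mem_singleton]
        · rw [mem_insert, mem_singleton]; push Not; exact ⟨h1, h2⟩
      · rw [sum_insert, sum_insert, sum_singleton]
        · ring
        · rwa [mem_singleton]
        · rw [mem_insert, mem_singleton]; push Not; exact ⟨h1, h2⟩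
    have hcard : D.card ≤ 6 * P.card := by
      refine card_le_mul_card_image_of_maps_to hmaps 6 fun o ho => ?_
      rw [hP, mem_filter, mem_powersetCard] at ho
      have hsub : (D.filter fun q => ({q.1, q.2, -q.1 - q.2} : Finset (ZMod m)) = o) ⊆
          o.offDiag := by
        intro q hq
        rw [mem_filter, hD, mem_filter] at hq
        rw [mem_offDiag]
        refine ⟨?_, ?_, hq.1.2.1⟩
        · rw [← hq.2]; simp
        · rw [← hq.2]; simp
      refine (card_le_card hsub).trans ?_
      rw [offDiag_card, ho.1.2]
    have hcompl : (univ : Finset (ZMod m × ZMod m)).card ≤ D.card + 3 * m := by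
      have hsub : (univ : Finset (ZMod m × ZMod m)) ⊆ D ∪
          ((univ : Finset (ZMod m)).image (fun i => (i, i)) ∪
          ((univ : Finset (ZMod m)).image (fun i => (i, -i - i)) ∪
          (univ : Finset (ZMod m)).image (fun i => (-i - i, i)))) := by
        intro q _
        by_cases hq : q ∈ D
        · exact mem_union_left _ hq
        · refine mem_union_right _ ?_
          rw [hD, mem_filter] at hq
          simp only [mem_univ, true_and] at hq
          by_cases h1 : q.1 = q.2
          · refine mem_union_left _ (mem_image.2 ⟨q.1, mem_univ _, ?_⟩)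
            ext <;> simp [h1]
          · refine mem_union_right _ ?_
            by_cases h2 : q.1 = -q.1 - q.2
            · refine mem_union_left _ (mem_image.2 ⟨q.1, mem_univ _, ?_⟩)
              have : q.2 = -q.1 - q.1 := by linear_combination h2
              ext
              · rfl
              · exact this.symm
            · refine mem_union_right _ (mem_image.2 ⟨q.2, mem_univ _, ?_⟩)
              have h3 : q.2 = -q.1 - q.2 := by
                by_contra h3
                exact hq ⟨h1, h2, h3⟩
              have : q.1 = -q.2 - q.2 := by linear_combination h3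
              ext
              · exact this.symm
              · rfl
      have h4 := card_le_card hsub
      have h5 := card_union_le D
        ((univ : Finset (ZMod m)).image (fun i => (i, i)) ∪
          ((univ : Finset (ZMod m)).image (fun i => (i, -i - i)) ∪
          (univ : Finset (ZMod m)).image (fun i => (-i - i, i))))
      have h6 := card_union_le ((univ : Finset (ZMod m)).image (fun i => (i, i)))
          ((univ : Finset (ZMod m)).image (fun i => (i, -i - i)) ∪
          (univ : Finset (ZMod m)).image (fun i => (-i - i, i)))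
      have h7 := card_union_le ((univ : Finset (ZMod m)).image (fun i => (i, -i - i)))
          ((univ : Finset (ZMod m)).image (fun i => (-i - i, i)))
      have h8 : ((univ : Finset (ZMod m)).image (fun i => (i, i))).card ≤ m := by
        refine card_image_le.trans ?_
        rw [card_univ, ZMod.card]
      have h9 : ((univ : Finset (ZMod m)).image (fun i => (i, -i - i))).card ≤ m := by
        refine card_image_le.trans ?_
        rw [card_univ, ZMod.card]
      have h10 : ((univ : Finset (ZMod m)).image (fun i => (-i - i, i))).card ≤ m := by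
        refine card_image_le.trans ?_
        rw [card_univ, ZMod.card]
      omega
    rw [card_univ, Fintype.card_prod, ZMod.card] at hcompl
    have h1 : ((m * m : ℕ) : ℝ) ≤ D.card + 3 * m := by exact_mod_cast hcompl
    have h2 : (D.card : ℝ) ≤ 6 * P.card := by exact_mod_cast hcard
    push_cast at h1
    linarith

theorem pack_three {α : Type*} [DecidableEq α] (M : Finset α) :
    ∃ P : Finset (Finset α), IsPack 3 M P ∧
      (M.card : ℝ) * (M.card - 1) / 6 - M.card ≤ P.card := by
  rcases Nat.eq_zero_or_pos M.card with h0 | h0
  · refine ⟨∅, isPack_empty _ _, ?_⟩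
    rw [h0]; simp
  · have : NeZero M.card := ⟨h0.ne'⟩
    obtain ⟨P, hP, hc⟩ := pack_three_zmod M.card
    have e : ZMod M.card ≃ M := Fintype.equivOfCardEq (by rw [ZMod.card, Fintype.card_coe])
    let f : ZMod M.card ↪ α := e.toEmbedding.trans (Function.Embedding.subtype _)
    refine ⟨_, hP.map f (M' := M) fun a _ => (e a).2, ?_⟩
    rw [card_map]
    refine le_trans ?_ hc
    have : (0 : ℝ) ≤ M.card := Nat.cast_nonneg _
    nlinarith

end Pool.Agent.MP9a04dc
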