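import Mathlib

set_option autoImplicit false

open Finset BigOperators

namespace Pool.Agent.MP9a04dc

variable {ι κ : Type*} [Fintype ι] [DecidableEq ι] [Fintype κ]

/-- expectation for a product of finite probability distributions -/
noncomputable def EE (p : ι → κ → ℝ) (f : (ι → κ) → ℝ) : ℝ :=
  ∑ c : ι → κ, (∏ i, p i (c i)) * f c

theorem EE_add (p : ι → κ → ℝ) (f g : (ι → κ) → ℝ) :
    EE p (fun c => f c + g c) = EE p f + EE p g := by
  unfold EE
  rw [← sum_add_distrib]
  exact sum_congr rfl fun c _ => by ring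

theorem EE_const_mul (p : ι → κ → ℝ) (a : ℝ) (f : (ι → κ) → ℝ) :
    EE p (fun c => a * f c) = a * EE p f := by
  unfold EE
  rw [mul_sum]
  exact sum_congr rfl fun c _ => by ring

theorem EE_sum {α : Type*} (s : Finset α) (p : ι → κ → ℝ) (f : α → (ι → κ) → ℝ) :
    EE p (fun c => ∑ a ∈ s, f a c) = ∑ a ∈ s, EE p (f a) := by
  unfold EE
  rw [sum_comm]
  exact sum_congr rfl fun c _ => by rw [mul_sum]

theorem EE_mono {p : ι → κ → ℝ} (hp : ∀ i k, 0 ≤ p i k) {f g : (ι → κ) → ℝ}
    (h : ∀ c, f c ≤ g c) : EE p f ≤ EE p g :=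
  sum_le_sum fun c _ => mul_le_mul_of_nonneg_left (h c) (prod_nonneg fun i _ => hp i _)

theorem EE_prod (p : ι → κ → ℝ) (g : ι → κ → ℝ) :
    EE p (fun c => ∏ i, g i (c i)) = ∏ i, ∑ k, p i k * g i k := by
  unfold EE
  rw [Finset.prod_univ_sum]
  rw [Fintype.piFinset_univ]
  exact sum_congr rfl fun c _ => by rw [prod_mul_distrib]

theorem EE_const {p : ι → κ → ℝ} (hp1 : ∀ i, ∑ k, p i k = 1) (a : ℝ) :
    EE p (fun _ => a) = a := by
  have h := EE_prod p (fun _ _ => (1 : ℝ))
  simp only [prod_const_one, mul_one, hp1] at h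
  have h2 := EE_const_mul p a (fun _ => (1 : ℝ))
  rw [h] at h2
  simpa using h2

theorem EE_one {p : ι → κ → ℝ} (hp1 : ∀ i, ∑ k, p i k = 1) (i : ι) (g : κ → ℝ) :
    EE p (fun c => g (c i)) = ∑ k, p i k * g k := by
  have h := EE_prod p (fun j k => if j = i then g k else 1)
  have e1 : (fun c : ι → κ => ∏ j, (if j = i then g (c j) else 1)) = fun c => g (c i) := by
    funext c
    rw [prod_ite_eq' univ i fun j => g (c j)]
    simp
  rw [e1] at h
  rw [h, ← mul_prod_erase univ _ (mem_univ i)]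
  have e2 : ∏ x ∈ univ.erase i, ∑ k, p x k * (if x = i then g k else 1) = 1 := by
    refine prod_eq_one fun x hx => ?_
    have : x ≠ i := (mem_erase.1 hx).1
    simp [this, hp1]
  rw [e2]
  simp

theorem EE_two {p : ι → κ → ℝ} (hp1 : ∀ i, ∑ k, p i k = 1) {i j : ι} (hij : i ≠ j)
    (g h : κ → ℝ) :
    EE p (fun c => g (c i) * h (c j)) = (∑ k, p i k * g k) * ∑ k, p j k * h k := by
  have hh := EE_prod p (fun l k => if l = i then g k else if l = j then h k else 1)
  have e1 : (fun c : ι → κ => ∏ l, (if l = i then g (c l) else if l = j then h (c l) else 1)) =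
      fun c => g (c i) * h (c j) := by
    funext c
    rw [← mul_prod_erase univ _ (mem_univ i),
      ← mul_prod_erase (univ.erase i) _ (mem_erase.2 ⟨hij.symm, mem_univ j⟩)]
    have : ∏ x ∈ (univ.erase i).erase j,
        (if x = i then g (c x) else if x = j then h (c x) else 1) = 1 := by
      refine prod_eq_one fun x hx => ?_
      rw [mem_erase, mem_erase] at hx
      simp [hx.1, hx.2.1]
    rw [this]
    simp [hij.symm]
  rw [e1] at hh
  rw [hh, ← mul_prod_erase univ _ (mem_univ i),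
      ← mul_prod_erase (univ.erase i) _ (mem_erase.2 ⟨hij.symm, mem_univ j⟩)]
  have : ∏ x ∈ (univ.erase i).erase j,
      ∑ k, p x k * (if x = i then g k else if x = j then h k else 1) = 1 := by
    refine prod_eq_one fun x hx => ?_
    rw [mem_erase, mem_erase] at hx
    simp [hx.1, hx.2.1, hp1]
  rw [this]
  simp [hij.symm]

/-- three coordinates -/
theorem EE_three {p : ι → κ → ℝ} (hp1 : ∀ i, ∑ k, p i k = 1) {i j l : ι} (hij : i ≠ j)
    (hil : i ≠ l) (hjl : j ≠ l) (g h f : κ → ℝ) :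
    EE p (fun c => g (c i) * h (c j) * f (c l)) =
      (∑ k, p i k * g k) * (∑ k, p j k * h k) * ∑ k, p l k * f k := by
  have hh := EE_prod p
    (fun m k => if m = i then g k else if m = j then h k else if m = l then f k else 1)
  have e1 : (fun c : ι → κ => ∏ m, (if m = i then g (c m) else if m = j then h (c m) else
      if m = l then f (c m) else 1)) = fun c => g (c i) * h (c j) * f (c l) := by
    funext c
    rw [← mul_prod_erase univ _ (mem_univ i),
      ← mul_prod_erase (univ.erase i) _ (mem_erase.2 ⟨hij.symm, mem_univ j⟩),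
      ← mul_prod_erase ((univ.erase i).erase j) _
        (mem_erase.2 ⟨hjl.symm, mem_erase.2 ⟨hil.symm, mem_univ l⟩⟩)]
    have : ∏ x ∈ ((univ.erase i).erase j).erase l,
        (if x = i then g (c x) else if x = j then h (c x) else if x = l then f (c x) else 1)
          = 1 := by
      refine prod_eq_one fun x hx => ?_
      rw [mem_erase, mem_erase, mem_erase] at hx
      simp [hx.1, hx.2.1, hx.2.2.1]
    rw [this]
    simp [hij.symm, hil.symm, hjl.symm, mul_assoc]
  rw [e1] at hh
  rw [hh, ← mul_prod_erase univ _ (mem_univ i),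
      ← mul_prod_erase (univ.erase i) _ (mem_erase.2 ⟨hij.symm, mem_univ j⟩),
      ← mul_prod_erase ((univ.erase i).erase j) _
        (mem_erase.2 ⟨hjl.symm, mem_erase.2 ⟨hil.symm, mem_univ l⟩⟩)]
  have : ∏ x ∈ ((univ.erase i).erase j).erase l,
      ∑ k, p x k * (if x = i then g k else if x = j then h k else if x = l then f k else 1)
        = 1 := by
    refine prod_eq_one fun x hx => ?_
    rw [mem_erase, mem_erase, mem_erase] at hx
    simp [hx.1, hx.2.1, hx.2.2.1, hp1]
  rw [this]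
  simp [hij.symm, hil.symm, hjl.symm, mul_assoc]

theorem EE_exists_le {p : ι → κ → ℝ} (hp : ∀ i k, 0 ≤ p i k) (hp1 : ∀ i, ∑ k, p i k = 1)
    (f : (ι → κ) → ℝ) : ∃ c : ι → κ, (∀ i, 0 < p i (c i)) ∧ f c ≤ EE p f := by
  by_contra hcon
  push Not at hcon
  have h1 : ∀ c : ι → κ, (∏ i, p i (c i)) * EE p f ≤ (∏ i, p i (c i)) * f c := by
    intro c
    by_cases hc : ∀ i, 0 < p i (c i)
    · exact mul_le_mul_of_nonneg_left (hcon c hc).le (prod_nonneg fun i _ => hp i _)
    · push Not at hc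
      obtain ⟨i, hi⟩ := hc
      have : ∏ i, p i (c i) = 0 := prod_eq_zero (mem_univ i) (le_antisymm hi (hp _ _))
      rw [this, zero_mul, zero_mul]
  have hpos : ∃ c : ι → κ, ∀ i, 0 < p i (c i) := by
    have : ∀ i, ∃ k, 0 < p i k := by
      intro i
      by_contra h
      push Not at h
      have h2 : ∑ k, p i k ≤ 0 := sum_nonpos fun k _ => h k
      rw [hp1] at h2
      linarith
    choose c hc using this
    exact ⟨c, hc⟩
  obtain ⟨c₀, hc₀⟩ := hpos
  have h2 : EE p (fun _ => EE p f) < EE p f := by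
    refine sum_lt_sum (fun c _ => h1 c) ⟨c₀, mem_univ _, ?_⟩
    exact mul_lt_mul_of_pos_left (hcon c₀ hc₀) (prod_pos fun i _ => hc₀ i)
  rw [EE_const hp1] at h2
  exact lt_irrefl _ h2

/-- variance of a sum of independent centred variables -/
theorem EE_var {p : ι → κ → ℝ} (hp1 : ∀ i, ∑ k, p i k = 1) (Y : ι → κ → ℝ)
    (hY : ∀ i, ∑ k, p i k * Y i k = 0) :
    EE p (fun c => (∑ i, Y i (c i)) ^ 2) = ∑ i, ∑ k, p i k * (Y i k) ^ 2 := by
  have e1 : (fun c : ι → κ => (∑ i, Y i (c i)) ^ 2) =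
      fun c => ∑ i, ∑ j, Y i (c i) * Y j (c j) := by
    funext c
    rw [sq, sum_mul_sum]
  rw [e1, EE_sum]
  refine sum_congr rfl fun i _ => ?_
  rw [EE_sum, ← add_sum_erase univ _ (mem_univ i)]
  have e2 : ∑ j ∈ univ.erase i, EE p (fun c => Y i (c i) * Y j (c j)) = 0 := by
    refine sum_eq_zero fun j hj => ?_
    rw [EE_two hp1 (mem_erase.1 hj).1.symm (Y i) (Y j), hY, zero_mul]
  rw [e2, add_zero]
  have e3 : (fun c : ι → κ => Y i (c i) * Y i (c i)) = fun c => (fun k => (Y i k) ^ 2) (c i) := by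
    funext c; ring
  rw [e3]
  exact EE_one hp1 i fun k => (Y i k) ^ 2

end Pool.Agent.MP9a04dc
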