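import Pool.Agent.MP9a04dc.Prod
import Pool.Agent.InvC4.Match

set_option autoImplicit false

open Finset BigOperators

namespace Pool.Agent.MP9a04dc

section

variable {V Λ κ : Type*} [Fintype V] [Fintype Λ] [Fintype κ]

/-- total share of the configuration `k` in the cell `ℓ` -/
noncomputable def zz (a : V → Λ → κ → ℝ) (ℓ : Λ) (k : κ) : ℝ := ∑ v, a v ℓ k

/-- the probabilities -/
noncomputable def pp (a : V → Λ → κ → ℝ) (ℓ : Λ) : Option κ → ℝ
  | none => 1 - ∑ k, zz a ℓ k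
  | some k => zz a ℓ k

/-- the random weight -/
noncomputable def XX (a : V → Λ → κ → ℝ) (δ : ℝ) (f : κ → ℝ) (v : V) (ℓ : Λ) : Option κ → ℝ
  | none => 0
  | some k => if δ ≤ zz a ℓ k then a v ℓ k * f k / zz a ℓ k else 0

/-- the mean of the random weight -/
noncomputable def XM (a : V → Λ → κ → ℝ) (δ : ℝ) (f : κ → ℝ) (v : V) (ℓ : Λ) : ℝ :=
  ∑ k, if δ ≤ zz a ℓ k then a v ℓ k * f k else 0

theorem pp_nonneg {a : V → Λ → κ → ℝ} (ha : ∀ v ℓ k, 0 ≤ a v ℓ k)
    (hsum : ∀ ℓ, ∑ v, ∑ k, a v ℓ k ≤ 1) (ℓ : Λ) (k : Option κ) : 0 ≤ pp a ℓ k := by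
  cases k with
  | none =>
    have h := hsum ℓ
    rw [sum_comm] at h
    simp only [pp, zz]
    linarith
  | some k => exact sum_nonneg fun v _ => ha v ℓ k

theorem pp_sum (a : V → Λ → κ → ℝ) (ℓ : Λ) : ∑ k, pp a ℓ k = 1 := by
  rw [Fintype.sum_option]
  simp [pp]

theorem pp_mean {a : V → Λ → κ → ℝ} {δ : ℝ} (hδ : 0 < δ) (f : κ → ℝ) (v : V) (ℓ : Λ) :
    ∑ k, pp a ℓ k * XX a δ f v ℓ k = XM a δ f v ℓ := by
  rw [Fintype.sum_option]
  simp only [XX, pp, mul_zero, zero_add]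
  unfold XM
  refine sum_congr rfl fun k _ => ?_
  split_ifs with h
  · have : zz a ℓ k ≠ 0 := (hδ.trans_le h).ne'
    field_simp
  · simp

theorem pp_second {a : V → Λ → κ → ℝ} (ha : ∀ v ℓ k, 0 ≤ a v ℓ k) {δ : ℝ} (hδ : 0 < δ)
    {f : κ → ℝ} (hf0 : ∀ k, 0 ≤ f k) {D cm : ℝ} (hfD : ∀ k, f k ≤ D)
    (hcm : ∀ v ℓ k, a v ℓ k ≤ cm) (v : V) (ℓ : Λ) :
    ∑ k, pp a ℓ k * (XX a δ f v ℓ k) ^ 2 ≤ (∑ k, a v ℓ k) * (cm * D ^ 2 / δ) := by
  rw [Fintype.sum_option]
  simp only [XX, pp]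
  rw [zero_pow two_ne_zero, mul_zero, zero_add, sum_mul]
  refine sum_le_sum fun k _ => ?_
  have hcm0 : 0 ≤ cm := (ha v ℓ k).trans (hcm v ℓ k)
  split_ifs with h
  · have hz : 0 < zz a ℓ k := hδ.trans_le h
    have e : zz a ℓ k * (a v ℓ k * f k / zz a ℓ k) ^ 2 = a v ℓ k * (a v ℓ k * (f k) ^ 2 / zz a ℓ k) := by
      field_simp
    rw [e]
    refine mul_le_mul_of_nonneg_left ?_ (ha v ℓ k)
    have h1 : (f k) ^ 2 ≤ D ^ 2 := pow_le_pow_left₀ (hf0 k) (hfD k) 2
    have h2 : a v ℓ k * (f k) ^ 2 ≤ cm * D ^ 2 := mul_le_mul (hcm v ℓ k) h1 (by positivity) hcm0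
    exact div_le_div₀ (by positivity) h2 hδ h
  · rw [zero_pow two_ne_zero, mul_zero]
    exact mul_nonneg (ha v ℓ k) (by positivity)

/-- centred second moment -/
theorem pp_var {a : V → Λ → κ → ℝ} (ha : ∀ v ℓ k, 0 ≤ a v ℓ k)
    {δ : ℝ} (hδ : 0 < δ)
    {f : κ → ℝ} (hf0 : ∀ k, 0 ≤ f k) {D cm : ℝ} (hfD : ∀ k, f k ≤ D)
    (hcm : ∀ v ℓ k, a v ℓ k ≤ cm) (v : V) (ℓ : Λ) :
    ∑ k, pp a ℓ k * (XX a δ f v ℓ k - XM a δ f v ℓ) ^ 2 ≤
      (∑ k, a v ℓ k) * (cm * D ^ 2 / δ) := by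
  refine le_trans ?_ (pp_second ha hδ hf0 hfD hcm v ℓ)
  have e : ∑ k, pp a ℓ k * (XX a δ f v ℓ k - XM a δ f v ℓ) ^ 2 =
      ∑ k, pp a ℓ k * (XX a δ f v ℓ k) ^ 2 -
        2 * XM a δ f v ℓ * (∑ k, pp a ℓ k * XX a δ f v ℓ k) +
        (XM a δ f v ℓ) ^ 2 * ∑ k, pp a ℓ k := by
    rw [mul_sum, mul_sum, ← sum_sub_distrib, ← sum_add_distrib]
    exact sum_congr rfl fun k _ => by ring
  rw [e, pp_mean hδ, pp_sum]
  nlinarith [sq_nonneg (XM a δ f v ℓ)]

theorem XX_nonneg {a : V → Λ → κ → ℝ} (ha : ∀ v ℓ k, 0 ≤ a v ℓ k) {δ : ℝ}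
    {f : κ → ℝ} (hf0 : ∀ k, 0 ≤ f k) (v : V) (ℓ : Λ) (k : Option κ) : 0 ≤ XX a δ f v ℓ k := by
  cases k with
  | none => exact le_rfl
  | some k =>
    simp only [XX]
    split_ifs
    · exact div_nonneg (mul_nonneg (ha v ℓ k) (hf0 k)) (sum_nonneg fun v _ => ha v ℓ k)
    · exact le_rfl

/-- choice of the configurations -/
theorem choose_conf [DecidableEq Λ] {a : V → Λ → κ → ℝ} (ha : ∀ v ℓ k, 0 ≤ a v ℓ k)
    (hsum : ∀ ℓ, ∑ v, ∑ k, a v ℓ k ≤ 1) {δ : ℝ} (hδ : 0 < δ)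
    {f g : κ → ℝ} (hf0 : ∀ k, 0 ≤ f k) (hg0 : ∀ k, 0 ≤ g k) {D D' cm : ℝ}
    (hfD : ∀ k, f k ≤ D) (hgD : ∀ k, g k ≤ D') (hcm0 : 0 ≤ cm)
    (hcm : ∀ v ℓ k, a v ℓ k ≤ cm) :
    ∃ c : Λ → Option κ,
      ∑ v, (∑ ℓ, (XX a δ f v ℓ (c ℓ) - XM a δ f v ℓ)) ^ 2 +
      ∑ v, (∑ ℓ, (XX a δ g v ℓ (c ℓ) - XM a δ g v ℓ)) ^ 2 ≤
      Fintype.card Λ * (cm * (D ^ 2 + D' ^ 2) / δ) := by
  have hp := pp_nonneg ha hsum
  have hp1 := pp_sum a
  obtain ⟨c, -, hc⟩ := EE_exists_le hp hp1 (fun c => ∑ v, (∑ ℓ, (XX a δ f v ℓ (c ℓ) - XM a δ f v ℓ)) ^ 2 +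
      ∑ v, (∑ ℓ, (XX a δ g v ℓ (c ℓ) - XM a δ g v ℓ)) ^ 2)
  refine ⟨c, hc.trans ?_⟩
  have key : ∀ (f : κ → ℝ) (D : ℝ), (∀ k, 0 ≤ f k) → (∀ k, f k ≤ D) →
      EE (pp a) (fun c => ∑ v, (∑ ℓ, (XX a δ f v ℓ (c ℓ) - XM a δ f v ℓ)) ^ 2) ≤
      Fintype.card Λ * (cm * D ^ 2 / δ) := by
    intro f D hf0 hfD
    rw [EE_sum]
    have h1 : ∀ v, EE (pp a) (fun c => (∑ ℓ, (XX a δ f v ℓ (c ℓ) - XM a δ f v ℓ)) ^ 2) ≤
        ∑ ℓ, (∑ k, a v ℓ k) * (cm * D ^ 2 / δ) := by
      intro v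
      rw [EE_var hp1 (fun ℓ k => XX a δ f v ℓ k - XM a δ f v ℓ)]
      · exact sum_le_sum fun ℓ _ => pp_var ha hδ hf0 hfD hcm v ℓ
      · intro ℓ
        have : ∑ k, pp a ℓ k * (XX a δ f v ℓ k - XM a δ f v ℓ) =
            ∑ k, pp a ℓ k * XX a δ f v ℓ k - XM a δ f v ℓ * ∑ k, pp a ℓ k := by
          rw [mul_sum, ← sum_sub_distrib]
          exact sum_congr rfl fun k _ => by ring
        rw [this, pp_mean hδ, pp_sum, mul_one, sub_self]
    refine (sum_le_sum fun v _ => h1 v).trans ?_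
    rw [sum_comm]
    have h2 : ∀ ℓ, ∑ v, (∑ k, a v ℓ k) * (cm * D ^ 2 / δ) ≤ cm * D ^ 2 / δ := by
      intro ℓ
      rw [← sum_mul]
      have := mul_le_mul_of_nonneg_right (hsum ℓ) (show 0 ≤ cm * D ^ 2 / δ by positivity)
      rwa [one_mul] at this
    refine (sum_le_sum fun ℓ _ => h2 ℓ).trans ?_
    rw [sum_const, card_univ, nsmul_eq_mul]
  rw [EE_add]
  have h1 := key f D hf0 hfD
  have h2 := key g D' hg0 hgD
  have e : (Fintype.card Λ : ℝ) * (cm * (D ^ 2 + D' ^ 2) / δ) =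
      Fintype.card Λ * (cm * D ^ 2 / δ) + Fintype.card Λ * (cm * D' ^ 2 / δ) := by ring
  rw [e]
  exact add_le_add h1 h2

theorem sum_abs_le (Z : V → ℝ) {Γ : ℝ} (h : ∑ v, Z v ^ 2 ≤ Γ) :
    ∑ v, |Z v| ≤ Real.sqrt (Fintype.card V * Γ) := by
  apply Real.le_sqrt_of_sq_le
  have h2 : (∑ v, |Z v|) ^ 2 ≤ Fintype.card V * ∑ v, |Z v| ^ 2 := by
    have := sq_sum_le_card_mul_sum_sq (s := (univ : Finset V)) (f := fun v => |Z v|)
    rwa [card_univ] at this
  refine h2.trans (mul_le_mul_of_nonneg_left ?_ (Nat.cast_nonneg _))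
  simpa [sq_abs] using h

theorem card_lt_fin (D n : ℕ) (h : n ≤ D) (x : ℝ) :
    ∑ b : Fin D, (if (b : ℕ) < n then x else 0) = n * x := by
  rw [← sum_filter, sum_const, nsmul_eq_mul]
  congr 2
  have : (univ.filter fun b : Fin D => (b : ℕ) < n).card = n := by
    rw [Fin.card_filter_val_lt]
    simp [h]
  exact this

theorem rounding [DecidableEq V] [DecidableEq Λ] {a : V → Λ → κ → ℝ}
    (ha : ∀ v ℓ k, 0 ≤ a v ℓ k)
    (hsum : ∀ ℓ, ∑ v, ∑ k, a v ℓ k ≤ 1) {nb : κ → ℕ} {gb : κ → ℝ} {D : ℕ}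
    (hnb : ∀ k, nb k ≤ D) (hg0 : ∀ k, 0 ≤ gb k) (hgD : ∀ k, gb k ≤ D) {cm : ℝ} (hcm0 : 0 ≤ cm)
    (hcm : ∀ v ℓ k, a v ℓ k ≤ cm) (hmass : ∀ v, ∑ ℓ, ∑ k, a v ℓ k * nb k ≤ 1)
    {δ : ℝ} (hδ : 0 < δ) :
    ∃ (c : Λ → Option κ) (φ : V → Option (Λ × Fin D)),
      (∀ i i' j, φ i = some j → φ i' = some j → i = i') ∧
      (∀ v j, φ v = some j → ∃ k, c j.1 = some k ∧ (j.2 : ℕ) < nb k ∧ 0 < a v j.1 k) ∧
      ∑ v, ∑ ℓ, ∑ k, a v ℓ k * nb k * gb k - Fintype.card Λ * Fintype.card κ * δ * D ^ 2 -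
        (1 + D) * Real.sqrt (Fintype.card V * (Fintype.card Λ * (cm * (D ^ 2 + (D ^ 2) ^ 2) / δ))) ≤
      ∑ v, (match φ v with
        | none => 0
        | some j => match c j.1 with
          | none => 0
          | some k => gb k) := by
  have hfD : ∀ k, (nb k : ℝ) ≤ D := fun k => by exact_mod_cast hnb k
  have hf0 : ∀ k, (0 : ℝ) ≤ nb k := fun k => Nat.cast_nonneg _
  have hD0 : (0 : ℝ) ≤ D := Nat.cast_nonneg _
  obtain ⟨c, hc⟩ := choose_conf ha hsum hδ (f := fun k => (nb k : ℝ))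
    (g := fun k => (nb k : ℝ) * gb k) hf0
    (fun k => mul_nonneg (hf0 k) (hg0 k)) hfD
    (fun k => by
      have := mul_le_mul (hfD k) (hgD k) (hg0 k) hD0
      rw [← sq] at this
      exact this) hcm0 hcm
  set Γ : ℝ := Fintype.card Λ * (cm * ((D : ℝ) ^ 2 + ((D : ℝ) ^ 2) ^ 2) / δ) with hΓ
  set X : V → ℝ := fun v => ∑ ℓ, XX a δ (fun k => (nb k : ℝ)) v ℓ (c ℓ) with hX
  set G : V → ℝ := fun v => ∑ ℓ, XX a δ (fun k => (nb k : ℝ) * gb k) v ℓ (c ℓ) with hG
  set XB : V → ℝ := fun v => ∑ ℓ, XM a δ (fun k => (nb k : ℝ)) v ℓ with hXB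
  set GB : V → ℝ := fun v => ∑ ℓ, XM a δ (fun k => (nb k : ℝ) * gb k) v ℓ with hGB
  have hc' : ∑ v, (X v - XB v) ^ 2 + ∑ v, (G v - GB v) ^ 2 ≤ Γ := by
    simpa only [hX, hG, hXB, hGB, sum_sub_distrib] using hc
  have n1 : 0 ≤ ∑ v, (X v - XB v) ^ 2 := sum_nonneg fun v _ => sq_nonneg _
  have n2 : 0 ≤ ∑ v, (G v - GB v) ^ 2 := sum_nonneg fun v _ => sq_nonneg _
  have a1 := sum_abs_le (fun v => X v - XB v) (Γ := Γ) (by linarith)
  have a2 := sum_abs_le (fun v => G v - GB v) (Γ := Γ) (by linarith)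
  have hX0 : ∀ v, 0 ≤ X v := fun v => sum_nonneg fun ℓ _ => XX_nonneg ha hf0 v ℓ (c ℓ)
  have hXB1 : ∀ v, XB v ≤ 1 := by
    intro v
    refine le_trans (sum_le_sum fun ℓ _ => ?_) (hmass v)
    refine sum_le_sum fun k _ => ?_
    split_ifs
    · exact le_rfl
    · exact mul_nonneg (ha v ℓ k) (hf0 k)
  have hGD : ∀ v, G v ≤ D * X v := by
    intro v
    simp only [hG, hX]
    rw [mul_sum]
    refine sum_le_sum fun ℓ _ => ?_
    rcases c ℓ with _ | k
    · simp [XX]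
    · simp only [XX]
      split_ifs with h
      · have hz : 0 < zz a ℓ k := hδ.trans_le h
        rw [mul_div_assoc', div_le_div_iff_of_pos_right hz]
        have := mul_le_mul_of_nonneg_left (hgD k) (mul_nonneg (ha v ℓ k) (hf0 k))
        linarith
      · simp
  -- the fractional matching
  set mx : V → ℝ := fun v => max 1 (X v) with hmx
  have hmx1 : ∀ v, 1 ≤ mx v := fun v => le_max_left _ _
  have hmx0 : ∀ v, 0 < mx v := fun v => one_pos.trans_le (hmx1 v)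
  set w : V → (Λ × Fin D) → ℝ := fun v j =>
    match c j.1 with
    | none => 0
    | some k => if δ ≤ zz a j.1 k ∧ (j.2 : ℕ) < nb k then a v j.1 k / zz a j.1 k / mx v else 0
    with hw
  set gg : (Λ × Fin D) → ℝ := fun j => match c j.1 with
    | none => 0
    | some k => gb k with hgg
  have hw0 : ∀ v j, 0 ≤ w v j := by
    intro v j
    simp only [hw]
    rcases hcj : c j.1 with _ | k
    · exact le_rfl
    · simp only
      split_ifs with h
      · exact div_nonneg (div_nonneg (ha _ _ _) (hδ.trans_le h.1).le) (hmx0 v).le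
      · exact le_rfl
  have hrowval : ∀ v ℓ (y : ℝ), (∀ b : Fin D, gg (ℓ, b) = y) →
      ∑ b : Fin D, w v (ℓ, b) * gg (ℓ, b) =
        XX a δ (fun k => (nb k : ℝ)) v ℓ (c ℓ) * y / mx v := by
    intro v ℓ y hy
    rw [sum_congr rfl fun b _ => by rw [hy b]]
    rw [← sum_mul]
    have : ∑ b : Fin D, w v (ℓ, b) = XX a δ (fun k => (nb k : ℝ)) v ℓ (c ℓ) / mx v := by
      simp only [hw]
      rcases hcj : c ℓ with _ | k
      · simp [XX]
      · simp only [XX]
        by_cases h : δ ≤ zz a ℓ k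
        · simp only [h, true_and, if_true]
          rw [card_lt_fin D (nb k) (hnb k)]
          ring
        · simp [h]
    rw [this]
    ring
  have hrow1 : ∀ v ℓ, ∑ b : Fin D, w v (ℓ, b) =
      XX a δ (fun k => (nb k : ℝ)) v ℓ (c ℓ) / mx v := by
    intro v ℓ
    simp only [hw]
    rcases hcj : c ℓ with _ | k
    · simp [XX]
    · simp only [XX]
      by_cases h : δ ≤ zz a ℓ k
      · simp only [h, true_and, if_true]
        rw [card_lt_fin D (nb k) (hnb k)]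
        ring
      · simp [h]
  have hrow : ∀ v, ∑ j, w v j ≤ 1 := by
    intro v
    rw [Fintype.sum_prod_type]
    rw [sum_congr rfl fun ℓ _ => hrow1 v ℓ, ← sum_div, div_le_one (hmx0 v)]
    exact le_max_right _ _
  have hcol : ∀ j, ∑ v, w v j ≤ 1 := by
    intro j
    simp only [hw]
    rcases hcj : c j.1 with _ | k
    · simp
    · simp only
      by_cases h : δ ≤ zz a j.1 k ∧ (j.2 : ℕ) < nb k
      · have hz : 0 < zz a j.1 k := hδ.trans_le h.1
        simp only [h, and_self, if_true]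
        have : ∀ v, a v j.1 k / zz a j.1 k / mx v ≤ a v j.1 k / zz a j.1 k := fun v =>
          div_le_self (div_nonneg (ha _ _ _) hz.le) (hmx1 v)
        refine (sum_le_sum fun v _ => this v).trans ?_
        rw [← sum_div, div_le_one hz]
        exact le_rfl
      · simp [h]
  obtain ⟨φ, φ1, φ2, φ3⟩ := InvC4.exists_matching w (fun _ j => gg j) hw0 hrow hcol
  refine ⟨c, φ, φ1, fun v j hj => ?_, ?_⟩
  · have h := φ2 v j hj
    simp only [hw] at h
    rcases hcj : c j.1 with _ | k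
    · rw [hcj] at h; exact absurd h (lt_irrefl _)
    · rw [hcj] at h
      simp only at h
      split_ifs at h with h1
      · refine ⟨k, rfl, h1.2, ?_⟩
        by_contra hcon
        have h0 : a v j.1 k = 0 := le_antisymm (not_lt.1 hcon) (ha _ _ _)
        rw [h0] at h
        simp at h
      · exact absurd h (lt_irrefl _)
  · have hφ : ∑ i, ∑ j, w i j * gg j ≤
        ∑ v, (match φ v with
        | none => 0
        | some j => match c j.1 with
          | none => 0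
          | some k => gb k) := by
      refine φ3.trans (le_of_eq (sum_congr rfl fun v _ => ?_))
      rcases φ v with _ | j
      · rfl
      · simp only [hgg]
    refine le_trans ?_ hφ
    -- value of the fractional matching
    have hval : ∑ v, ∑ j, w v j * gg j = ∑ v, G v / mx v := by
      refine sum_congr rfl fun v _ => ?_
      rw [Fintype.sum_prod_type]
      simp only [hG]
      rw [sum_div]
      refine sum_congr rfl fun ℓ _ => ?_
      rcases hcj : c ℓ with _ | k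
      · rw [hrowval v ℓ 0 (fun b => by simp [hgg, hcj]), hcj]
        simp [XX]
      · rw [hrowval v ℓ (gb k) (fun b => by simp [hgg, hcj]), hcj]
        simp only [XX]
        split_ifs
        · ring
        · ring
    rw [hval]
    have h1 : ∀ v, GB v - |G v - GB v| - D * |X v - XB v| ≤ G v / mx v := by
      intro v
      have b1 : GB v - |G v - GB v| ≤ G v := by
        have := neg_abs_le (G v - GB v)
        linarith
      have b2 : G v - D * |X v - XB v| ≤ G v / mx v := by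
        rcases le_total (X v) 1 with h | h
        · have : mx v = 1 := max_eq_left h
          rw [this, div_one]
          have : 0 ≤ D * |X v - XB v| := by positivity
          linarith
        · have e : mx v = X v := max_eq_right h
          rw [e]
          have hXp : 0 < X v := by linarith
          have b3 : G v / X v ≤ D := by
            rw [div_le_iff₀ hXp]; exact hGD v
          have b4 : G v = G v / X v * X v := by field_simp
          have b5 : X v - 1 ≤ |X v - XB v| := by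
            have := le_abs_self (X v - XB v)
            have := hXB1 v
            linarith
          have b6 : G v / X v * (X v - 1) ≤ D * |X v - XB v| :=
            mul_le_mul b3 b5 (by linarith) hD0
          have b7 : G v / X v * (X v - 1) = G v - G v / X v := by
            rw [mul_sub, mul_one, ← b4]
          linarith
      linarith
    have h2 : ∑ v, GB v - Real.sqrt (Fintype.card V * Γ) - D * Real.sqrt (Fintype.card V * Γ) ≤
        ∑ v, G v / mx v := by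
      have := sum_le_sum fun v (_ : v ∈ (univ : Finset V)) => h1 v
      rw [sum_sub_distrib, sum_sub_distrib, ← mul_sum] at this
      have b8 := mul_le_mul_of_nonneg_left a1 hD0
      linarith
    have h3 : ∑ v, ∑ ℓ, ∑ k, a v ℓ k * nb k * gb k -
        Fintype.card Λ * Fintype.card κ * δ * (D : ℝ) ^ 2 ≤ ∑ v, GB v := by
      have e1 : ∑ v, ∑ ℓ, ∑ k, a v ℓ k * nb k * gb k - ∑ v, GB v =
          ∑ ℓ, ∑ k, (if δ ≤ zz a ℓ k then 0 else zz a ℓ k * (nb k * gb k)) := by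
        simp only [hGB]
        rw [← sum_sub_distrib]
        simp only [← sum_sub_distrib, XM]
        rw [sum_comm]
        refine sum_congr rfl fun ℓ _ => ?_
        rw [sum_comm]
        refine sum_congr rfl fun k _ => ?_
        split_ifs with h
        · refine sum_eq_zero fun v _ => by ring
        · unfold zz
          rw [sum_mul]
          exact sum_congr rfl fun v _ => by ring
      have e2 : ∑ ℓ, ∑ k, (if δ ≤ zz a ℓ k then 0 else zz a ℓ k * (nb k * gb k)) ≤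
          ∑ ℓ : Λ, ∑ k : κ, δ * (D : ℝ) ^ 2 := by
        refine sum_le_sum fun ℓ _ => sum_le_sum fun k _ => ?_
        split_ifs with h
        · positivity
        · have h4 := mul_le_mul (hfD k) (hgD k) (hg0 k) hD0
          rw [← sq] at h4
          exact mul_le_mul (not_le.1 h).le h4 (mul_nonneg (hf0 k) (hg0 k)) hδ.le
      simp only [sum_const, card_univ, nsmul_eq_mul] at e2
      have e3 : (Fintype.card Λ : ℝ) * (Fintype.card κ * (δ * (D : ℝ) ^ 2)) =
        Fintype.card Λ * Fintype.card κ * δ * (D : ℝ) ^ 2 := by ring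
      linarith
    linarith

end

end Pool.Agent.MP9a04dc
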