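import Pool.Agent.MP9a04dc.Bern

/-!
# One step of the weighted nibble
-/

set_option autoImplicit false
set_option linter.unusedSectionVars false
set_option linter.unusedVariables false

namespace Pool.Agent.MP9a04dc

open Finset

section Step

variable {E V : Type*} [Fintype E] [DecidableEq E] [DecidableEq V]

/-- weighted degree -/
noncomputable def deg (vs : E → Finset V) (x : E → ℝ) (v : V) : ℝ :=
  ∑ e, if v ∈ vs e then x e else 0

/-- weighted codegree -/
noncomputable def codeg (vs : E → Finset V) (x : E → ℝ) (u v : V) : ℝ :=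
  ∑ e, if u ∈ vs e ∧ v ∈ vs e then x e else 0

/-- the edges meeting `U` -/
def meets (vs : E → Finset V) (U : Finset V) : Finset E :=
  univ.filter fun e => ¬ Disjoint (vs e) U

/-- the weight of the edges meeting `U` -/
noncomputable def mass (vs : E → Finset V) (x : E → ℝ) (U : Finset V) : ℝ :=
  ∑ e ∈ meets vs U, x e

lemma mem_meets {vs : E → Finset V} {U : Finset V} {e : E} :
    e ∈ meets vs U ↔ ¬ Disjoint (vs e) U := by simp [meets]

lemma meets_union (vs : E → Finset V) (U U' : Finset V) :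
    meets vs (U ∪ U') = meets vs U ∪ meets vs U' := by
  ext e
  simp only [mem_meets, mem_union, disjoint_union_right]
  tauto

lemma meets_mono (vs : E → Finset V) {U U' : Finset V} (h : U ⊆ U') :
    meets vs U ⊆ meets vs U' := by
  intro e
  simp only [mem_meets]
  intro h1 h2
  exact h1 (h2.mono_right h)

variable {vs : E → Finset V} {x : E → ℝ}

lemma mass_eq (U : Finset V) :
    mass vs x U = ∑ e, (if ¬ Disjoint (vs e) U then 1 else 0) * x e := by
  unfold mass meets
  rw [sum_filter]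
  exact sum_congr rfl fun e _ => by split_ifs <;> simp

lemma mass_nonneg (hx : ∀ e, 0 ≤ x e) (U : Finset V) : 0 ≤ mass vs x U :=
  sum_nonneg fun e _ => hx e

lemma sum_deg (U : Finset V) :
    ∑ u ∈ U, deg vs x u = ∑ e, ((vs e ∩ U).card : ℝ) * x e := by
  unfold deg
  rw [sum_comm]
  refine sum_congr rfl fun e _ => ?_
  rw [← sum_filter, sum_const, nsmul_eq_mul]
  congr 2
  congr 1
  ext v
  simp [and_comm]

lemma sum_codeg (U : Finset V) :
    ∑ u ∈ U, ∑ v ∈ U.erase u, codeg vs x u v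
      = ∑ e, ((vs e ∩ U).card : ℝ) * (((vs e ∩ U).card : ℝ) - 1) * x e := by
  unfold codeg
  have h1 : ∀ u ∈ U, ∑ v ∈ U.erase u, ∑ e, (if u ∈ vs e ∧ v ∈ vs e then x e else 0)
      = ∑ e, (if u ∈ vs e then (((vs e ∩ U).card : ℝ) - 1) * x e else 0) := by
    intro u hu
    rw [sum_comm]
    refine sum_congr rfl fun e _ => ?_
    by_cases hue : u ∈ vs e
    · simp only [hue, true_and, if_true]
      rw [← sum_filter, sum_const, nsmul_eq_mul]
      congr 1
      have h2 : filter (fun v => v ∈ vs e) (U.erase u) = (vs e ∩ U).erase u := by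
        ext v
        simp only [mem_filter, mem_erase, mem_inter]
        tauto
      rw [h2, card_erase_of_mem (mem_inter.2 ⟨hue, hu⟩)]
      have h3 : 1 ≤ (vs e ∩ U).card := card_pos.2 ⟨u, mem_inter.2 ⟨hue, hu⟩⟩
      push_cast [Nat.cast_sub h3]
      ring
    · simp [hue]
  rw [sum_congr rfl h1, sum_comm]
  refine sum_congr rfl fun e _ => ?_
  rw [← sum_filter, sum_const, nsmul_eq_mul, mul_assoc]
  congr 2
  congr 1
  ext v
  simp [and_comm]

lemma mass_le (hx : ∀ e, 0 ≤ x e) (U : Finset V) : mass vs x U ≤ ∑ u ∈ U, deg vs x u := by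
  rw [sum_deg, mass_eq]
  refine sum_le_sum fun e _ => mul_le_mul_of_nonneg_right ?_ (hx e)
  by_cases h : Disjoint (vs e) U
  · rw [if_neg (not_not.2 h)]
    positivity
  · rw [if_pos h]
    have : (vs e ∩ U).Nonempty := by
      rw [Finset.not_disjoint_iff] at h
      obtain ⟨a, h1, h2⟩ := h
      exact ⟨a, mem_inter.2 ⟨h1, h2⟩⟩
    have := card_pos.2 this
    exact_mod_cast this

lemma le_mass (hx : ∀ e, 0 ≤ x e) {κ : ℝ} (hco : ∀ u v, u ≠ v → codeg vs x u v ≤ κ)
    (hκ : 0 ≤ κ) (U : Finset V) :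
    ∑ u ∈ U, deg vs x u - (U.card : ℝ) ^ 2 * κ ≤ mass vs x U := by
  have h1 : ∑ u ∈ U, ∑ v ∈ U.erase u, codeg vs x u v ≤ (U.card : ℝ) ^ 2 * κ := by
    calc ∑ u ∈ U, ∑ v ∈ U.erase u, codeg vs x u v
        ≤ ∑ u ∈ U, ∑ v ∈ U.erase u, κ := by
          refine sum_le_sum fun u _ => sum_le_sum fun v hv => hco u v ?_
          exact (ne_of_mem_erase hv).symm
      _ ≤ ∑ u ∈ U, (U.card : ℝ) * κ := by
          refine sum_le_sum fun u _ => ?_
          rw [sum_const, nsmul_eq_mul]
          refine mul_le_mul_of_nonneg_right ?_ hκ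
          exact_mod_cast card_le_card (erase_subset _ _)
      _ = (U.card : ℝ) ^ 2 * κ := by
          rw [sum_const, nsmul_eq_mul]; ring
  have h2 : ∑ u ∈ U, deg vs x u - ∑ u ∈ U, ∑ v ∈ U.erase u, codeg vs x u v ≤ mass vs x U := by
    rw [sum_deg, sum_codeg, mass_eq, ← sum_sub_distrib]
    refine sum_le_sum fun e _ => ?_
    rw [← sub_mul]
    refine mul_le_mul_of_nonneg_right ?_ (hx e)
    by_cases h : Disjoint (vs e) U
    · have : vs e ∩ U = ∅ := disjoint_iff_inter_eq_empty.1 h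
      rw [if_neg (not_not.2 h), this]
      simp
    · rw [if_pos h]
      have h3 : 1 ≤ (vs e ∩ U).card := by
        apply card_pos.2
        rw [Finset.not_disjoint_iff] at h
        obtain ⟨a, h1, h2⟩ := h
        exact ⟨a, mem_inter.2 ⟨h1, h2⟩⟩
      have h4 : (1 : ℝ) ≤ ((vs e ∩ U).card : ℝ) := by exact_mod_cast h3
      nlinarith
  linarith

lemma deg_nonneg (hx : ∀ e, 0 ≤ x e) (v : V) : 0 ≤ deg vs x v :=
  sum_nonneg fun e _ => by split_ifs; exacts [hx e, le_rfl]

lemma codeg_nonneg (hx : ∀ e, 0 ≤ x e) (u v : V) : 0 ≤ codeg vs x u v :=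
  sum_nonneg fun e _ => by split_ifs; exacts [hx e, le_rfl]

lemma deg_mono {y : E → ℝ} (h : ∀ e, y e ≤ x e) (v : V) : deg vs y v ≤ deg vs x v :=
  sum_le_sum fun e _ => by split_ifs; exacts [h e, le_rfl]

lemma codeg_mono {y : E → ℝ} (h : ∀ e, y e ≤ x e) (u v : V) :
    codeg vs y u v ≤ codeg vs x u v :=
  sum_le_sum fun e _ => by split_ifs; exacts [h e, le_rfl]

/-- the probability that nothing meeting `U` is chosen -/
lemma ex_surv (θ : ℝ) (U : Finset V) :
    ex (fun e => Real.exp (-θ * x e)) (fun R => if Disjoint R (meets vs U) then 1 else 0)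
      = Real.exp (-θ * mass vs x U) := by
  rw [ex_avoid, mass, mul_sum, Real.exp_sum]

/-- the degree sum over the vertices of an edge -/
noncomputable def tau (vs : E → Finset V) (x : E → ℝ) (e : E) : ℝ := ∑ v ∈ vs e, deg vs x v

/-- normalised weight of an edge -/
noncomputable def nw (vs : E → Finset V) (x : E → ℝ) (θ : ℝ) (e : E) : ℝ :=
  x e * Real.exp (θ * (tau vs x e - 1))

/-- new weights after the step in which `R` was chosen -/
noncomputable def nx (vs : E → Finset V) (x : E → ℝ) (θ : ℝ) (R : Finset E) (e : E) : ℝ :=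
  nw vs x θ e * (if Disjoint R (meets vs (vs e)) then 1 else 0)

/-- truncated new weights -/
noncomputable def ny (vs : E → Finset V) (x : E → ℝ) (θ : ℝ) (R : Finset E) (e : E) : ℝ :=
  nx vs x θ R e * ∏ v ∈ vs e, (max 1 (deg vs (nx vs x θ R) v))⁻¹

/-- isolated chosen edges -/
def iso (vs : E → Finset V) (R : Finset E) : Finset E :=
  R.filter fun e => R ∩ meets vs (vs e) = {e}

variable {θ κ : ℝ}

lemma nw_nonneg (hx : ∀ e, 0 ≤ x e) (e : E) : 0 ≤ nw vs x θ e :=
  mul_nonneg (hx e) (Real.exp_pos _).le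

lemma nx_nonneg (hx : ∀ e, 0 ≤ x e) (R : Finset E) (e : E) : 0 ≤ nx vs x θ R e :=
  mul_nonneg (nw_nonneg hx e) (by split_ifs <;> norm_num)

lemma ny_nonneg (hx : ∀ e, 0 ≤ x e) (R : Finset E) (e : E) : 0 ≤ ny vs x θ R e :=
  mul_nonneg (nx_nonneg hx R e) (prod_nonneg fun v _ => inv_nonneg.2 (le_max_of_le_left zero_le_one))

lemma inv_max_le_one (a : ℝ) : (max 1 a)⁻¹ ≤ 1 :=
  inv_le_one_of_one_le₀ (le_max_left _ _)

lemma inv_max_nonneg (a : ℝ) : 0 ≤ (max 1 a)⁻¹ :=
  inv_nonneg.2 (le_max_of_le_left zero_le_one)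

lemma ny_le_nx (hx : ∀ e, 0 ≤ x e) (R : Finset E) (e : E) : ny vs x θ R e ≤ nx vs x θ R e := by
  unfold ny
  exact mul_le_of_le_one_right (nx_nonneg hx R e)
    (prod_le_one (fun v _ => inv_max_nonneg _) (fun v _ => inv_max_le_one _))

lemma deg_ny_le_one (hx : ∀ e, 0 ≤ x e) (R : Finset E) (v : V) :
    deg vs (ny vs x θ R) v ≤ 1 := by
  set D := deg vs (nx vs x θ R) v with hD
  have h1 : deg vs (ny vs x θ R) v ≤ D * (max 1 D)⁻¹ := by
    rw [hD]
    conv_rhs => rw [deg, sum_mul]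
    unfold deg
    refine sum_le_sum fun e _ => ?_
    by_cases hv : v ∈ vs e
    · rw [if_pos hv, if_pos hv]
      unfold ny
      refine mul_le_mul_of_nonneg_left ?_ (nx_nonneg hx R e)
      rw [← mul_prod_erase _ _ hv]
      exact mul_le_of_le_one_right (inv_max_nonneg _)
        (prod_le_one (fun v _ => inv_max_nonneg _) (fun v _ => inv_max_le_one _))
    · simp [hv]
  have h2 : D * (max 1 D)⁻¹ ≤ 1 := by
    rw [← div_eq_mul_inv, div_le_one (lt_max_of_lt_left zero_lt_one)]
    exact le_max_right _ _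
  exact h1.trans h2

lemma one_sub_prod_le {ι : Type*} (s : Finset ι) (a : ι → ℝ) (h0 : ∀ i ∈ s, 0 ≤ a i)
    (h1 : ∀ i ∈ s, a i ≤ 1) : 1 - ∏ i ∈ s, a i ≤ ∑ i ∈ s, (1 - a i) := by
  classical
  induction s using Finset.induction_on with
  | empty => simp
  | insert i s hi ih =>
    rw [prod_insert hi, sum_insert hi]
    have h2 := ih (fun j hj => h0 j (mem_insert_of_mem hj)) (fun j hj => h1 j (mem_insert_of_mem hj))
    have h3 : ∏ j ∈ s, a j ≤ 1 := prod_le_one (fun j hj => h0 j (mem_insert_of_mem hj))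
      (fun j hj => h1 j (mem_insert_of_mem hj))
    have h4 : 0 ≤ ∏ j ∈ s, a j := prod_nonneg (fun j hj => h0 j (mem_insert_of_mem hj))
    have h5 := h0 i (mem_insert_self _ _)
    have h6 := h1 i (mem_insert_self _ _)
    nlinarith [mul_nonneg (sub_nonneg.2 h6) (sub_nonneg.2 h3)]

/-- Loss through truncation. -/
lemma sum_nx_sub_ny_le [Fintype V] (hx : ∀ e, 0 ≤ x e) (R : Finset E) :
    ∑ e, (nx vs x θ R e - ny vs x θ R e)
      ≤ ∑ v, max 0 (deg vs (nx vs x θ R) v - 1) := by
  have h1 : ∀ e, nx vs x θ R e - ny vs x θ R e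
      ≤ ∑ v, (if v ∈ vs e then nx vs x θ R e else 0) * (1 - (max 1 (deg vs (nx vs x θ R) v))⁻¹) := by
    intro e
    have h2 := one_sub_prod_le (vs e) (fun v => (max 1 (deg vs (nx vs x θ R) v))⁻¹)
      (fun v _ => inv_max_nonneg _) (fun v _ => inv_max_le_one _)
    have h3 := mul_le_mul_of_nonneg_left h2 (nx_nonneg (θ := θ) (vs := vs) hx R e)
    have h4 : ∑ v, (if v ∈ vs e then nx vs x θ R e else 0) * (1 - (max 1 (deg vs (nx vs x θ R) v))⁻¹)
        = nx vs x θ R e * ∑ v ∈ vs e, (1 - (max 1 (deg vs (nx vs x θ R) v))⁻¹) := by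
      rw [mul_sum, ← Finset.sum_subset (subset_univ (vs e))]
      · exact sum_congr rfl fun v hv => by rw [if_pos hv]
      · intro v _ hv
        rw [if_neg hv, zero_mul]
    rw [h4]
    unfold ny
    linarith
  refine (sum_le_sum fun e _ => h1 e).trans ?_
  rw [sum_comm]
  refine sum_le_sum fun v _ => ?_
  rw [← sum_mul]
  change deg vs (nx vs x θ R) v * (1 - (max 1 (deg vs (nx vs x θ R) v))⁻¹) ≤ _
  set D := deg vs (nx vs x θ R) v
  rcases le_total D 1 with h | h
  · rw [max_eq_left h]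
    simp
  · rw [max_eq_right h, mul_sub, mul_inv_cancel₀ (by linarith)]
    rw [mul_one]
    exact le_max_right _ _

end Step

end Pool.Agent.MP9a04dc
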