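import Pool.Agent.MP9a04dc.Step

/-!
# One step of the weighted nibble: expectations
-/

set_option autoImplicit false
set_option linter.unusedSectionVars false
set_option linter.unusedVariables false

namespace Pool.Agent.MP9a04dc

open Finset

section Step2

variable {E V : Type*} [Fintype E] [DecidableEq E] [DecidableEq V]

/-- A fractional matching with small codegrees. -/
structure Good (vs : E → Finset V) (x : E → ℝ) (κ : ℝ) (r : ℕ) : Prop where
  nonneg : ∀ e, 0 ≤ x e
  deg_le : ∀ v, deg vs x v ≤ 1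
  codeg_le : ∀ u v, u ≠ v → codeg vs x u v ≤ κ
  card_le : ∀ e, (vs e).card ≤ r
  nonempty : ∀ e, (vs e).Nonempty

variable {vs : E → Finset V} {x : E → ℝ} {κ : ℝ} {r : ℕ}

lemma Good.x_le_one (h : Good vs x κ r) (e : E) : x e ≤ 1 := by
  obtain ⟨v, hv⟩ := h.nonempty e
  refine le_trans ?_ (h.deg_le v)
  unfold deg
  have := single_le_sum (f := fun e => if v ∈ vs e then x e else 0)
    (fun e _ => by split_ifs; exacts [h.nonneg e, le_rfl]) (mem_univ e)
  simpa [hv] using this

lemma Good.tau_le (h : Good vs x κ r) (e : E) : tau vs x e ≤ r := by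
  unfold tau
  calc ∑ v ∈ vs e, deg vs x v ≤ ∑ v ∈ vs e, (1 : ℝ) := sum_le_sum fun v _ => h.deg_le v
    _ = ((vs e).card : ℝ) := by simp
    _ ≤ r := by exact_mod_cast h.card_le e

lemma Good.tau_nonneg (h : Good vs x κ r) (e : E) : 0 ≤ tau vs x e :=
  sum_nonneg fun v _ => deg_nonneg h.nonneg v

lemma Good.mass_le_tau (h : Good vs x κ r) (e : E) : mass vs x (vs e) ≤ tau vs x e :=
  mass_le h.nonneg _

lemma Good.le_mass_tau (h : Good vs x κ r) (hκ : 0 ≤ κ) (e : E) :
    tau vs x e - (r : ℝ) ^ 2 * κ ≤ mass vs x (vs e) := by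
  refine le_trans ?_ (le_mass h.nonneg h.codeg_le hκ (vs e))
  have h1 : ((vs e).card : ℝ) ≤ r := by exact_mod_cast h.card_le e
  have h2 : ((vs e).card : ℝ) ^ 2 ≤ (r : ℝ) ^ 2 := pow_le_pow_left₀ (by positivity) h1 2
  have h3 := mul_le_mul_of_nonneg_right h2 hκ
  unfold tau
  linarith

lemma ex_nx (θ : ℝ) (e : E) :
    ex (fun e => Real.exp (-θ * x e)) (fun R => nx vs x θ R e)
      = nw vs x θ e * Real.exp (-θ * mass vs x (vs e)) := by
  unfold nx
  rw [ex_mul, ex_surv]

lemma Good.le_ex_nx (h : Good vs x κ r) {θ : ℝ} (hθ : 0 ≤ θ) (e : E) :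
    x e * Real.exp (-θ) ≤ ex (fun e => Real.exp (-θ * x e)) (fun R => nx vs x θ R e) := by
  rw [ex_nx, nw, mul_assoc, ← Real.exp_add]
  refine mul_le_mul_of_nonneg_left (Real.exp_le_exp.2 ?_) (h.nonneg e)
  nlinarith [h.mass_le_tau e]

lemma Good.ex_nx_le (h : Good vs x κ r) (hκ : 0 ≤ κ) {θ : ℝ} (hθ : 0 ≤ θ) (e : E) :
    ex (fun e => Real.exp (-θ * x e)) (fun R => nx vs x θ R e)
      ≤ x e * Real.exp (-θ + θ * ((r : ℝ) ^ 2 * κ)) := by
  rw [ex_nx, nw, mul_assoc, ← Real.exp_add]
  refine mul_le_mul_of_nonneg_left (Real.exp_le_exp.2 ?_) (h.nonneg e)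
  nlinarith [h.le_mass_tau hκ e]

lemma one_sub_exp_ge (y : ℝ) : y * Real.exp (-y) ≤ 1 - Real.exp (-y) := by
  have h := Real.add_one_le_exp y
  have h2 : Real.exp y * Real.exp (-y) = 1 := by rw [← Real.exp_add]; simp
  nlinarith [Real.exp_pos (-y)]

lemma sum_iso_eq (w : E → ℝ) (R : Finset E) :
    ∑ e ∈ iso vs R, w e = ∑ e, w e * (if R ∩ meets vs (vs e) = {e} then 1 else 0) := by
  have : iso vs R = univ.filter (fun e => R ∩ meets vs (vs e) = {e}) := by
    ext e
    simp only [iso, mem_filter, mem_univ, true_and, and_iff_right_iff_imp]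
    intro h
    have : e ∈ R ∩ meets vs (vs e) := by rw [h]; simp
    exact (mem_inter.1 this).1
  rw [this, sum_filter]
  exact sum_congr rfl fun e _ => by split_ifs <;> simp

lemma Good.le_ex_iso (h : Good vs x κ r) {θ : ℝ} (hθ : 0 ≤ θ) (w : E → ℝ) (hw : ∀ e, 0 ≤ w e) :
    ∑ e, w e * x e * (θ - r * θ ^ 2)
      ≤ ex (fun e => Real.exp (-θ * x e)) (fun R => ∑ e ∈ iso vs R, w e) := by
  simp_rw [sum_iso_eq]
  rw [ex_sum]
  refine sum_le_sum fun e _ => ?_
  rw [ex_mul, mul_assoc]
  refine mul_le_mul_of_nonneg_left ?_ (hw e)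
  have he : e ∈ meets vs (vs e) := by
    rw [mem_meets, Finset.not_disjoint_iff]
    obtain ⟨v, hv⟩ := h.nonempty e
    exact ⟨v, hv, hv⟩
  rw [ex_single _ _ e he]
  have h1 : Real.exp (-θ * x e) * ∏ f ∈ (meets vs (vs e)).erase e, Real.exp (-θ * x f)
      = Real.exp (-θ * mass vs x (vs e)) := by
    rw [mul_prod_erase _ (fun f => Real.exp (-θ * x f)) he, mass, mul_sum, Real.exp_sum]
  have h2 := one_sub_exp_ge (θ * x e)
  have h3 : 0 ≤ ∏ f ∈ (meets vs (vs e)).erase e, Real.exp (-θ * x f) :=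
    prod_nonneg fun f _ => (Real.exp_pos _).le
  have h4 := mul_le_mul_of_nonneg_right h2 h3
  rw [mul_assoc, show -(θ * x e) = -θ * x e by ring, h1] at h4
  refine le_trans ?_ h4
  have h5 : 1 - r * θ ≤ Real.exp (-θ * mass vs x (vs e)) := by
    have h6 := Real.add_one_le_exp (-θ * mass vs x (vs e))
    have h7 : mass vs x (vs e) ≤ r := (h.mass_le_tau e).trans (h.tau_le e)
    nlinarith
  have h8 : 0 ≤ θ * x e := mul_nonneg hθ (h.nonneg e)
  have h9 := mul_le_mul_of_nonneg_left h5 h8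
  linarith

/-- the second moment expression -/
noncomputable def dev (vs : E → Finset V) (x : E → ℝ) (θ : ℝ) (v : V) (c : ℝ) (R : Finset E) : ℝ :=
  (deg vs (nx vs x θ R) v) ^ 2 - 2 * c * deg vs (nx vs x θ R) v
    + c ^ 2 * (if Disjoint R (meets vs {v}) then 1 else 0)

lemma deg_nx_sq (θ : ℝ) (v : V) (R : Finset E) :
    (deg vs (nx vs x θ R) v) ^ 2
      = ∑ e, ∑ f, (if v ∈ vs e ∧ v ∈ vs f then nw vs x θ e * nw vs x θ f else 0) *
          (if Disjoint R (meets vs (vs e ∪ vs f)) then 1 else 0) := by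
  rw [sq, deg, sum_mul_sum]
  refine sum_congr rfl fun e _ => sum_congr rfl fun f _ => ?_
  unfold nx
  have key : Disjoint R (meets vs (vs e ∪ vs f)) ↔
      Disjoint R (meets vs (vs e)) ∧ Disjoint R (meets vs (vs f)) := by
    rw [meets_union, disjoint_union_right]
  by_cases h1 : v ∈ vs e <;> by_cases h2 : v ∈ vs f <;>
    by_cases h3 : Disjoint R (meets vs (vs e)) <;>
    by_cases h4 : Disjoint R (meets vs (vs f)) <;> simp [h1, h2, h3, h4, key]

lemma Good.ex_deg_nx_sq_le (h : Good vs x κ r) (hκ : 0 ≤ κ) {θ : ℝ} (hθ : 0 ≤ θ) (hθ1 : θ ≤ 1)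
    (v : V) :
    ex (fun e => Real.exp (-θ * x e)) (fun R => (deg vs (nx vs x θ R) v) ^ 2)
      ≤ (deg vs x v) ^ 2 * Real.exp (θ * deg vs x v - 2 * θ + 4 * θ * ((r : ℝ) ^ 2 * κ))
        + Real.exp (2 * r) * (r * κ) := by
  set A := Real.exp (θ * deg vs x v - 2 * θ + 4 * θ * ((r : ℝ) ^ 2 * κ)) with hA
  have hApos : 0 < A := Real.exp_pos _
  simp_rw [deg_nx_sq]
  rw [ex_sum]
  have h0 : ∀ e f, v ∈ vs e → v ∈ vs f →
      nw vs x θ e * nw vs x θ f * Real.exp (-θ * mass vs x (vs e ∪ vs f))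
        ≤ x e * x f * A + x e * x f * Real.exp (2 * r) *
          ∑ u ∈ (vs e).erase v, (if u ∈ vs f then 1 else 0) := by
    intro e f he hf
    have hxe := h.nonneg e
    have hxf := h.nonneg f
    have hxx := mul_nonneg hxe hxf
    have h2 : nw vs x θ e * nw vs x θ f * Real.exp (-θ * mass vs x (vs e ∪ vs f))
        = x e * x f * Real.exp (θ * (tau vs x e - 1) + θ * (tau vs x f - 1)
            - θ * mass vs x (vs e ∪ vs f)) := by
      unfold nw
      rw [show θ * (tau vs x e - 1) + θ * (tau vs x f - 1) - θ * mass vs x (vs e ∪ vs f)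
        = θ * (tau vs x e - 1) + θ * (tau vs x f - 1) + -θ * mass vs x (vs e ∪ vs f) by ring,
        Real.exp_add, Real.exp_add]
      ring
    rw [h2]
    by_cases hint : vs e ∩ vs f = {v}
    · have h3 : θ * (tau vs x e - 1) + θ * (tau vs x f - 1) - θ * mass vs x (vs e ∪ vs f)
          ≤ θ * deg vs x v - 2 * θ + 4 * θ * ((r : ℝ) ^ 2 * κ) := by
        have h4 := le_mass h.nonneg h.codeg_le hκ (vs e ∪ vs f)
        have h5 : ∑ u ∈ vs e ∪ vs f, deg vs x u + deg vs x v = tau vs x e + tau vs x f := by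
          have := Finset.sum_union_inter (s₁ := vs e) (s₂ := vs f) (f := fun u => deg vs x u)
          rw [hint, sum_singleton] at this
          exact this
        have h6 : ((vs e ∪ vs f).card : ℝ) ≤ 2 * r := by
          have : (vs e ∪ vs f).card ≤ r + r :=
            (card_union_le _ _).trans (add_le_add (h.card_le e) (h.card_le f))
          have h7 : ((vs e ∪ vs f).card : ℝ) ≤ ((r + r : ℕ) : ℝ) := by exact_mod_cast this
          push_cast at h7
          linarith
        have h7 : ((vs e ∪ vs f).card : ℝ) ^ 2 ≤ (2 * r) ^ 2 :=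
          pow_le_pow_left₀ (by positivity) h6 2
        have h8 := mul_le_mul_of_nonneg_right h7 hκ
        nlinarith
      have h9 := Real.exp_le_exp.2 h3
      have h10 := mul_le_mul_of_nonneg_left h9 hxx
      rw [← hA] at h10
      have h11 : 0 ≤ x e * x f * Real.exp (2 * r) *
          ∑ u ∈ (vs e).erase v, (if u ∈ vs f then (1 : ℝ) else 0) :=
        mul_nonneg (mul_nonneg hxx (Real.exp_pos _).le)
          (sum_nonneg fun u _ => by split_ifs <;> norm_num)
      linarith
    · have h3 : θ * (tau vs x e - 1) + θ * (tau vs x f - 1) - θ * mass vs x (vs e ∪ vs f)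
          ≤ 2 * r := by
        have h4 := h.tau_le e
        have h5 := h.tau_le f
        have h6 := mass_nonneg (vs := vs) h.nonneg (vs e ∪ vs f)
        have h7 := mul_nonneg hθ h6
        have h8 : θ * (tau vs x e - 1) ≤ r := by
          have : (0 : ℝ) ≤ r := by positivity
          nlinarith
        have h9 : θ * (tau vs x f - 1) ≤ r := by
          have : (0 : ℝ) ≤ r := by positivity
          nlinarith
        linarith
      have h9 := Real.exp_le_exp.2 h3
      have h10 := mul_le_mul_of_nonneg_left h9 hxx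
      have h11 : (1 : ℝ) ≤ ∑ u ∈ (vs e).erase v, (if u ∈ vs f then 1 else 0) := by
        have : ∃ u, u ∈ vs e ∩ vs f ∧ u ≠ v := by
          by_contra hcon
          push Not at hcon
          apply hint
          ext u
          simp only [mem_singleton]
          exact ⟨fun hu => hcon u hu, fun hu => by subst hu; exact mem_inter.2 ⟨he, hf⟩⟩
        obtain ⟨u, hu, huv⟩ := this
        have := single_le_sum (f := fun u => if u ∈ vs f then (1 : ℝ) else 0)
          (fun u _ => by split_ifs <;> norm_num)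
          (mem_erase.2 ⟨huv, (mem_inter.1 hu).1⟩)
        simpa [(mem_inter.1 hu).2] using this
      have h12 : 0 ≤ x e * x f * Real.exp (2 * r) := mul_nonneg hxx (Real.exp_pos _).le
      have h13 := mul_le_mul_of_nonneg_left h11 h12
      have h14 := mul_nonneg hxx hApos.le
      linarith
  have h1 : ∀ e, ex (fun e => Real.exp (-θ * x e)) (fun R => ∑ f,
      (if v ∈ vs e ∧ v ∈ vs f then nw vs x θ e * nw vs x θ f else 0) *
          (if Disjoint R (meets vs (vs e ∪ vs f)) then 1 else 0))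
      ≤ (if v ∈ vs e then x e else 0) * (deg vs x v * A + Real.exp (2 * r) * (r * κ)) := by
    intro e
    rw [ex_sum]
    by_cases he : v ∈ vs e
    · rw [if_pos he]
      have h2 : ∀ f, ex (fun e => Real.exp (-θ * x e)) (fun R =>
          (if v ∈ vs e ∧ v ∈ vs f then nw vs x θ e * nw vs x θ f else 0) *
          (if Disjoint R (meets vs (vs e ∪ vs f)) then 1 else 0))
          ≤ x e * ((if v ∈ vs f then x f else 0) * A + Real.exp (2 * r) *
            ∑ u ∈ (vs e).erase v, (if u ∈ vs f ∧ v ∈ vs f then x f else 0)) := by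
        intro f
        rw [ex_mul, ex_surv]
        by_cases hf : v ∈ vs f
        · simp only [he, hf, and_true, if_true]
          refine (h0 e f he hf).trans (le_of_eq ?_)
          rw [mul_add, mul_sum, mul_sum, mul_sum]
          congr 1
          · ring
          · refine sum_congr rfl fun u _ => ?_
            split_ifs <;> ring
        · simp [hf]
      refine (sum_le_sum fun f _ => h2 f).trans ?_
      rw [← mul_sum]
      refine mul_le_mul_of_nonneg_left ?_ (h.nonneg e)
      rw [sum_add_distrib, ← sum_mul, ← mul_sum]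
      refine add_le_add le_rfl (mul_le_mul_of_nonneg_left ?_ (Real.exp_pos _).le)
      rw [sum_comm]
      calc ∑ u ∈ (vs e).erase v, ∑ f, (if u ∈ vs f ∧ v ∈ vs f then x f else 0)
          ≤ ∑ u ∈ (vs e).erase v, κ :=
            sum_le_sum fun u hu => h.codeg_le u v (ne_of_mem_erase hu)
        _ = (((vs e).erase v).card : ℝ) * κ := by simp
        _ ≤ r * κ := by
            refine mul_le_mul_of_nonneg_right ?_ hκ
            exact_mod_cast (card_le_card (erase_subset _ _)).trans (h.card_le e)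
    · simp only [he, false_and, if_false, zero_mul]
      simp [ex_const]
  refine (sum_le_sum fun e _ => h1 e).trans ?_
  rw [← sum_mul]
  change deg vs x v * _ ≤ _
  have h2 := h.deg_le v
  have h3 := deg_nonneg (vs := vs) h.nonneg v
  have h4 : 0 ≤ Real.exp (2 * r) * (r * κ) := by positivity
  nlinarith

lemma ex_deg_nx (θ : ℝ) (v : V) :
    ex (fun e => Real.exp (-θ * x e)) (fun R => deg vs (nx vs x θ R) v)
      = deg vs (fun e => ex (fun e => Real.exp (-θ * x e)) (fun R => nx vs x θ R e)) v := by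
  unfold deg
  rw [ex_sum]
  refine sum_congr rfl fun e _ => ?_
  split_ifs
  · rfl
  · exact ex_const _ _

lemma Good.ex_dev_le (h : Good vs x κ r) (hκ : 0 ≤ κ) {θ : ℝ} (hθ : 0 ≤ θ) (hθ1 : θ ≤ 1)
    (v : V) :
    ex (fun e => Real.exp (-θ * x e))
      (dev vs x θ v (deg vs x v * Real.exp (-θ * (1 - deg vs x v))))
      ≤ (Real.exp (4 * ((r : ℝ) ^ 2 * κ)) - 1) + Real.exp (2 * r) * (r * κ) := by
  set d := deg vs x v with hd
  set c := d * Real.exp (-θ * (1 - d)) with hc
  have hd0 : 0 ≤ d := deg_nonneg h.nonneg v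
  have hd1 : d ≤ 1 := h.deg_le v
  have hc0 : 0 ≤ c := mul_nonneg hd0 (Real.exp_pos _).le
  have h1 : ex (fun e => Real.exp (-θ * x e)) (dev vs x θ v c)
      = ex (fun e => Real.exp (-θ * x e)) (fun R => (deg vs (nx vs x θ R) v) ^ 2)
        - 2 * c * ex (fun e => Real.exp (-θ * x e)) (fun R => deg vs (nx vs x θ R) v)
        + c ^ 2 * Real.exp (-θ * mass vs x {v}) := by
    have : dev vs x θ v c = fun R => ((deg vs (nx vs x θ R) v) ^ 2
      - 2 * c * deg vs (nx vs x θ R) v) + c ^ 2 * (if Disjoint R (meets vs {v}) then 1 else 0) := rfl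
    rw [this, ex_add, ex_sub, ex_mul, ex_mul, ex_surv]
  have h2 : mass vs x {v} = d := by
    unfold mass meets
    rw [hd, deg, sum_filter]
    refine sum_congr rfl fun e _ => ?_
    simp
  have h3 : d * Real.exp (-θ) ≤
      ex (fun e => Real.exp (-θ * x e)) (fun R => deg vs (nx vs x θ R) v) := by
    rw [ex_deg_nx, hd]
    unfold deg
    rw [sum_mul]
    refine sum_le_sum fun e _ => ?_
    split_ifs
    · exact h.le_ex_nx hθ e
    · simp
  have h4 := h.ex_deg_nx_sq_le hκ hθ hθ1 v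
  rw [h1, h2]
  rw [← hd] at h4
  set B := Real.exp (θ * d - 2 * θ) with hB
  have hB1 : B ≤ 1 := by
    rw [hB, Real.exp_le_one_iff]
    nlinarith
  have hB0 : 0 < B := Real.exp_pos _
  have h5 : c * (d * Real.exp (-θ)) = d ^ 2 * B := by
    rw [hc, hB, show θ * d - 2 * θ = -θ * (1 - d) + -θ by ring, Real.exp_add]
    ring
  have h6 : c ^ 2 * Real.exp (-θ * d) = d ^ 2 * B := by
    rw [hc, hB, show θ * d - 2 * θ = -θ * (1 - d) + (-θ * (1 - d) + -θ * d) by ring,
      Real.exp_add, Real.exp_add]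
    ring
  have h7 : Real.exp (θ * d - 2 * θ + 4 * θ * ((r : ℝ) ^ 2 * κ))
      = B * Real.exp (4 * θ * ((r : ℝ) ^ 2 * κ)) := by rw [hB, ← Real.exp_add]
  have h8 : Real.exp (4 * θ * ((r : ℝ) ^ 2 * κ)) ≤ Real.exp (4 * ((r : ℝ) ^ 2 * κ)) := by
    apply Real.exp_le_exp.2
    have : 0 ≤ (r : ℝ) ^ 2 * κ := by positivity
    nlinarith
  have h9 : 1 ≤ Real.exp (4 * ((r : ℝ) ^ 2 * κ)) := Real.one_le_exp (by positivity)
  rw [h7] at h4
  have h10 := mul_le_mul_of_nonneg_left h3 hc0
  rw [h5] at h10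
  have h11 : d ^ 2 * (B * Real.exp (4 * θ * ((r : ℝ) ^ 2 * κ))) - d ^ 2 * B
      ≤ Real.exp (4 * ((r : ℝ) ^ 2 * κ)) - 1 := by
    have h12 : d ^ 2 * (B * Real.exp (4 * θ * ((r : ℝ) ^ 2 * κ))) - d ^ 2 * B
      = (d ^ 2 * B) * (Real.exp (4 * θ * ((r : ℝ) ^ 2 * κ)) - 1) := by ring
    rw [h12]
    have h13 : d ^ 2 * B ≤ 1 := by
      have : d ^ 2 ≤ 1 := by nlinarith
      nlinarith
    have h14 : 0 ≤ d ^ 2 * B := by positivity
    nlinarith
  linarith

lemma max_le_dev (hx : ∀ e, 0 ≤ x e) {θ : ℝ} (v : V) {c lam : ℝ} (hc : c ≤ 1) (hlam : 0 < lam)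
    (R : Finset E) :
    max 0 (deg vs (nx vs x θ R) v - 1) ≤ lam / 2 + (1 / (2 * lam)) * dev vs x θ v c R := by
  set X := deg vs (nx vs x θ R) v with hX
  unfold dev
  rw [← hX]
  by_cases hd : Disjoint R (meets vs {v})
  · rw [if_pos hd]
    have h1 : X ^ 2 - 2 * c * X + c ^ 2 * 1 = (X - c) ^ 2 := by ring
    rw [h1]
    have h2 : |X - c| ≤ lam / 2 + (1 / (2 * lam)) * (X - c) ^ 2 := by
      rw [← sq_abs (X - c)]
      set a := |X - c|
      have : 0 ≤ (a - lam) ^ 2 / (2 * lam) := by positivity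
      have h3 : (a - lam) ^ 2 / (2 * lam) = lam / 2 + (1 / (2 * lam)) * a ^ 2 - a := by
        field_simp
        ring
      linarith
    refine le_trans (max_le (abs_nonneg _) ?_) h2
    exact le_trans (by linarith) (le_abs_self _)
  · rw [if_neg hd]
    have hX0 : X = 0 := by
      rw [hX, deg]
      refine sum_eq_zero fun e _ => ?_
      split_ifs with hv
      · unfold nx
        rw [if_neg, mul_zero]
        intro h1
        exact hd (h1.mono_right (meets_mono vs (singleton_subset_iff.2 hv)))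
      · rfl
    rw [hX0]
    norm_num
    positivity

lemma Good.ex_max_le (h : Good vs x κ r) (hκ : 0 ≤ κ) {θ : ℝ} (hθ : 0 ≤ θ) (hθ1 : θ ≤ 1)
    {lam : ℝ} (hlam : 0 < lam)
    (hl : (Real.exp (4 * ((r : ℝ) ^ 2 * κ)) - 1) + Real.exp (2 * r) * (r * κ) ≤ lam ^ 2)
    (v : V) :
    ex (fun e => Real.exp (-θ * x e)) (fun R => max 0 (deg vs (nx vs x θ R) v - 1)) ≤ lam := by
  have hd0 : 0 ≤ deg vs x v := deg_nonneg h.nonneg v
  have hd1 : deg vs x v ≤ 1 := h.deg_le v
  have hc1 : deg vs x v * Real.exp (-θ * (1 - deg vs x v)) ≤ 1 := by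
    have : Real.exp (-θ * (1 - deg vs x v)) ≤ 1 := by
      rw [Real.exp_le_one_iff]
      nlinarith
    nlinarith [Real.exp_pos (-θ * (1 - deg vs x v))]
  have h1 := ex_mono (q := fun e => Real.exp (-θ * x e)) (fun e => (Real.exp_pos _).le)
    (fun e => by
      rw [Real.exp_le_one_iff]
      nlinarith [mul_nonneg hθ (h.nonneg e)])
    (fun R => max_le_dev (vs := vs) (θ := θ) h.nonneg v hc1 hlam R)
  refine h1.trans ?_
  rw [ex_add, ex_const, ex_mul]
  have h2 := (h.ex_dev_le hκ hθ hθ1 v).trans hl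
  have h3 := mul_le_mul_of_nonneg_left h2 (show 0 ≤ 1 / (2 * lam) by positivity)
  have h4 : 1 / (2 * lam) * lam ^ 2 = lam / 2 := by
    field_simp
  change lam / 2 + (1 / (2 * lam)) * ex _ (dev vs x θ v _) ≤ lam
  linarith

end Step2

end Pool.Agent.MP9a04dc
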